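import Pool.Agent.P2Gap.Defs

set_option autoImplicit false

namespace Pool.Agent.P2Gap.Ap

open Finset


theorem ap_easy (d r A X : ℕ) (hd : 2 ≤ d) (hA : X / d + 1 ≤ A) (hr : ¬ Nat.Coprime r d) :
    (#{p ∈ pr A X | p % d = r} : ℝ) * Real.log A ≤ 2 * ((X / d + 1 : ℕ) : ℝ) * Real.log d := by
  have hd0 : (0 : ℝ) < Real.log d := Real.log_pos (by exact_mod_cast (by omega : 1 < d))
  have hn : (1 : ℝ) ≤ ((X / d + 1 : ℕ) : ℝ) := by exact_mod_cast Nat.succ_le_succ (Nat.zero_le _)
  have hA1 : (1 : ℝ) ≤ A := by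
    have : 1 ≤ A := le_trans (Nat.succ_le_succ (Nat.zero_le _)) hA
    exact_mod_cast this
  have key : ∀ p ∈ (pr A X).filter (fun p => p % d = r), p = Nat.gcd r d ∧ A < p ∧ p ≤ d := by
    intro p hp
    rw [mem_filter, mem_filter, mem_Ioc] at hp
    obtain ⟨⟨⟨h1, h2⟩, h3⟩, h4⟩ := hp
    have hg : Nat.gcd r d = Nat.gcd p d := by
      rw [← h4, ← Nat.gcd_rec, Nat.gcd_comm]
    have hg1 : Nat.gcd p d ≠ 1 := by
      rw [← hg]; exact hr
    have hpd : p ∣ d := by
      by_contra hcon
      exact hg1 ((Nat.Prime.coprime_iff_not_dvd h3).2 hcon)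
    refine ⟨?_, h1, Nat.le_of_dvd (by omega) hpd⟩
    rw [hg, Nat.gcd_eq_left hpd]
  rcases ((pr A X).filter (fun p => p % d = r)).eq_empty_or_nonempty with he | ⟨p, hp⟩
  · rw [he, card_empty]
    simp only [Nat.cast_zero, zero_mul]
    positivity
  · have hcard : #((pr A X).filter (fun p => p % d = r)) ≤ 1 := by
      rw [card_le_one]
      intro a ha b hb
      rw [(key a ha).1, (key b hb).1]
    obtain ⟨_, h1, h2⟩ := key p hp
    have hAd : (A : ℝ) ≤ d := by exact_mod_cast (by omega : A ≤ d)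
    have hlog : Real.log A ≤ Real.log d := Real.log_le_log (by linarith) hAd
    have hlog0 : 0 ≤ Real.log A := Real.log_nonneg hA1
    have hc : (#((pr A X).filter (fun p => p % d = r)) : ℝ) ≤ 1 := by exact_mod_cast hcard
    calc (#{p ∈ pr A X | p % d = r} : ℝ) * Real.log A ≤ 1 * Real.log A :=
          mul_le_mul_of_nonneg_right hc hlog0
      _ ≤ Real.log d := by rw [one_mul]; exact hlog
      _ ≤ 2 * ((X / d + 1 : ℕ) : ℝ) * Real.log d := by
        apply le_mul_of_one_le_left hd0.le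
        linarith

theorem vq_le (n q : ℕ) (hq : q.Prime) : (n.factorial).factorization q ≤ n := by
  have : Fact q.Prime := ⟨hq⟩
  have h := sub_one_mul_padicValNat_factorial (p := q) n
  rw [Nat.factorization_def _ hq]
  have h2 : 1 ≤ q - 1 := by have := hq.two_le; omega
  calc padicValNat q n.factorial ≤ (q - 1) * padicValNat q n.factorial :=
        Nat.le_mul_of_pos_left _ (by omega)
    _ = n - (Nat.digits q n).sum := h
    _ ≤ n := Nat.sub_le _ _

theorem fact_split (d n : ℕ) (hd : 2 ≤ d) : ∃ F1 F2 : ℕ, n.factorial = F1 * F2 ∧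
    Nat.Coprime F2 d ∧ F1 ≤ d ^ n ∧ 0 < F2 := by
  have hn0 : n.factorial ≠ 0 := Nat.factorial_ne_zero n
  have hprod := Nat.prod_factorization_pow_eq_self hn0
  rw [Finsupp.prod, Nat.support_factorization] at hprod
  refine ⟨∏ q ∈ (n.factorial).primeFactors.filter (fun q => q ∣ d), q ^ (n.factorial).factorization q,
    ∏ q ∈ (n.factorial).primeFactors.filter (fun q => ¬ q ∣ d), q ^ (n.factorial).factorization q,
    ?_, ?_, ?_, ?_⟩
  · rw [prod_filter_mul_prod_filter_not]
    exact hprod.symm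
  · apply Nat.Coprime.prod_left
    intro q hq
    rw [mem_filter] at hq
    apply Nat.Coprime.pow_left
    exact (Nat.Prime.coprime_iff_not_dvd (Nat.prime_of_mem_primeFactors hq.1)).2 hq.2
  · calc ∏ q ∈ (n.factorial).primeFactors.filter (fun q => q ∣ d), q ^ (n.factorial).factorization q
        ≤ ∏ q ∈ (n.factorial).primeFactors.filter (fun q => q ∣ d), q ^ n := by
          apply prod_le_prod'
          intro q hq
          rw [mem_filter] at hq
          have hqp := Nat.prime_of_mem_primeFactors hq.1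
          exact Nat.pow_le_pow_right hqp.pos (vq_le n q hqp)
      _ = (∏ q ∈ (n.factorial).primeFactors.filter (fun q => q ∣ d), q) ^ n := by
          rw [prod_pow]
      _ ≤ d ^ n := by
          apply Nat.pow_le_pow_left
          apply Nat.le_of_dvd (by omega)
          refine dvd_trans ?_ (Nat.prod_primeFactors_dvd d)
          apply prod_dvd_prod_of_subset
          intro q hq
          rw [mem_filter] at hq
          exact Nat.mem_primeFactors.2 ⟨Nat.prime_of_mem_primeFactors hq.1, hq.2, by omega⟩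
  · apply prod_pos
    intro q hq
    rw [mem_filter] at hq
    exact pow_pos (Nat.prime_of_mem_primeFactors hq.1).pos _

theorem F2_dvd (d r n F2 : ℕ) (hc : Nat.Coprime F2 d) (hF : F2 ∣ n.factorial) :
    F2 ∣ ∏ j ∈ range n, (d * j + r) := by
  obtain ⟨e, he⟩ : ∃ e : ℕ, d * e ≡ 1 [MOD F2] := by
    rcases Nat.eq_zero_or_pos F2 with h0 | h0
    · exfalso
      subst h0
      have := Nat.factorial_ne_zero n
      exact this (Nat.eq_zero_of_zero_dvd hF)
    · rcases Nat.lt_or_ge 1 F2 with h1 | h1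
      · obtain ⟨e, _, he⟩ := Nat.exists_mul_mod_eq_one_of_coprime hc.symm h1
        refine ⟨e, ?_⟩
        unfold Nat.ModEq
        rw [he, Nat.mod_eq_of_lt h1]
      · have : F2 = 1 := by omega
        subst this
        exact ⟨0, Nat.modEq_one⟩
  have h1 : e ^ n * ∏ j ∈ range n, (d * j + r) ≡ ∏ j ∈ range n, (e * r + j) [MOD F2] := by
    have e1 : e ^ n * ∏ j ∈ range n, (d * j + r) = ∏ j ∈ range n, (e * (d * j + r)) := by
      rw [prod_mul_distrib, prod_const, card_range]
    rw [e1]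
    have hterm : ∀ j, e * (d * j + r) ≡ e * r + j [MOD F2] := by
      intro j
      have h2 : e * (d * j + r) = (d * e) * j + e * r := by ring
      rw [h2, add_comm (e * r) j]
      have h3 := he.mul_right j
      rw [one_mul] at h3
      exact h3.add_right _
    clear hF
    induction n with
    | zero => simp [Nat.ModEq]
    | succ n ih =>
      rw [prod_range_succ, prod_range_succ]
      exact Nat.ModEq.mul (ih (by rw [prod_mul_distrib, prod_const, card_range])) (hterm n)
  have h2 : n.factorial ∣ ∏ j ∈ range n, (e * r + j) := by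
    have := Nat.factorial_dvd_ascFactorial (e * r) n
    rwa [Nat.ascFactorial_eq_prod_range] at this
  have h3 : F2 ∣ e ^ n * ∏ j ∈ range n, (d * j + r) := by
    rw [← Nat.modEq_zero_iff_dvd]
    exact h1.trans (Nat.modEq_zero_iff_dvd.2 (hF.trans h2))
  have he2 : Nat.Coprime F2 e := by
    have h4 : Nat.Coprime F2 (d * e) := by
      have : Nat.gcd (d * e) F2 = Nat.gcd 1 F2 := he.gcd_eq
      rw [Nat.gcd_one_left] at this
      exact Nat.Coprime.symm this
    exact h4.coprime_mul_left_right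
  exact (Nat.Coprime.pow_right n he2).dvd_of_dvd_mul_left h3

/-- elementary Chebyshev type upper bound for primes in a residue class -/
theorem ap_bound (d r A X : ℕ) (hd : 2 ≤ d) (hA : X / d + 1 ≤ A) :
    (#{p ∈ pr A X | p % d = r} : ℝ) * Real.log A ≤ 2 * ((X / d + 1 : ℕ) : ℝ) * Real.log d := by
  by_cases hr : Nat.Coprime r d
  swap
  · exact ap_easy d r A X hd hA hr
  have hr1 : 1 ≤ r := by
    rcases Nat.eq_zero_or_pos r with h | h
    · exfalso
      rw [h, Nat.coprime_zero_left] at hr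
      omega
    · exact h
  obtain ⟨S, hS⟩ : ∃ S, S = (pr A X).filter (fun p => p % d = r) := ⟨_, rfl⟩
  rw [← hS]
  obtain ⟨n, hn⟩ : ∃ n, n = X / d + 1 := ⟨_, rfl⟩
  rw [← hn] at hA ⊢
  have hSm : ∀ p ∈ S, A < p ∧ p ≤ X ∧ p.Prime ∧ p % d = r := by
    intro p hp
    rw [hS, mem_filter, mem_filter, mem_Ioc] at hp
    exact ⟨hp.1.1.1, hp.1.1.2, hp.1.2, hp.2⟩
  have hn1 : 1 ≤ n := by rw [hn]; exact Nat.succ_le_succ (Nat.zero_le _)
  have hA1 : 1 ≤ A := hn1.trans hA
  -- if r ≥ d the set is empty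
  rcases Nat.lt_or_ge r d with hrd | hrd
  swap
  · have : S = ∅ := by
      rw [eq_empty_iff_forall_notMem]
      intro p hp
      have h1 := (hSm p hp).2.2.2
      have h2 := Nat.mod_lt p (by omega : 0 < d)
      omega
    rw [this, card_empty]
    simp only [Nat.cast_zero, zero_mul]
    have : (0 : ℝ) ≤ Real.log d := Real.log_nonneg (by exact_mod_cast (by omega : 1 ≤ d))
    positivity
  obtain ⟨F1, F2, hF, hFc, hF1, hF2⟩ := fact_split d n hd
  have hdiv1 : ∏ p ∈ S, p ∣ ∏ j ∈ range n, (d * j + r) := by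
    have hinj : Set.InjOn (fun p => p / d) (S : Set ℕ) := by
      intro p hp q hq hpq
      simp only at hpq
      have h1 := Nat.div_add_mod p d
      have h2 := Nat.div_add_mod q d
      rw [(hSm p hp).2.2.2] at h1
      rw [(hSm q hq).2.2.2] at h2
      rw [← h1, ← h2, hpq]
    have e : ∏ p ∈ S, p = ∏ j ∈ S.image (fun p => p / d), (d * j + r) := by
      rw [prod_image hinj]
      refine prod_congr rfl fun p hp => ?_
      have h1 := Nat.div_add_mod p d
      rw [(hSm p hp).2.2.2] at h1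
      exact h1.symm
    rw [e]
    apply prod_dvd_prod_of_subset
    intro j hj
    rw [mem_image] at hj
    obtain ⟨p, hp, rfl⟩ := hj
    rw [mem_range, hn]
    exact Nat.lt_succ_of_le (Nat.div_le_div_right (hSm p hp).2.1)
  have hdiv2 : F2 ∣ ∏ j ∈ range n, (d * j + r) :=
    F2_dvd d r n F2 hFc ⟨F1, by rw [hF, mul_comm]⟩
  have hcop : Nat.Coprime (∏ p ∈ S, p) F2 := by
    apply Nat.Coprime.prod_left
    intro p hp
    obtain ⟨h1, _, h3, _⟩ := hSm p hp
    rw [Nat.Prime.coprime_iff_not_dvd h3]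
    intro hdvd
    have h4 : p ∣ n.factorial := by rw [hF]; exact hdvd.mul_left _
    have h5 := (Nat.Prime.dvd_factorial h3).1 h4
    omega
  have hdiv := Nat.Coprime.mul_dvd_of_dvd_of_dvd hcop hdiv1 hdiv2
  have hPi0 : 0 < ∏ j ∈ range n, (d * j + r) := prod_pos fun j _ => Nat.lt_of_lt_of_le hr1 (Nat.le_add_left _ _)
  have hle1 := Nat.le_of_dvd hPi0 hdiv
  have hPi : ∏ j ∈ range n, (d * j + r) ≤ d ^ n * n.factorial := by
    calc ∏ j ∈ range n, (d * j + r) ≤ ∏ j ∈ range n, (d * (j + 1)) := by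
          apply prod_le_prod'
          intro j _
          rw [mul_add, mul_one]
          omega
      _ = d ^ n * n.factorial := by
          rw [prod_mul_distrib, prod_const, card_range, prod_range_add_one_eq_factorial]
  have hAS : A ^ #S ≤ ∏ p ∈ S, p := by
    rw [← prod_const]
    apply prod_le_prod'
    intro p hp
    exact (hSm p hp).1.le
  have hfin : A ^ #S * F2 ≤ d ^ (2 * n) * F2 := by
    calc A ^ #S * F2 ≤ (∏ p ∈ S, p) * F2 := Nat.mul_le_mul_right _ hAS
      _ ≤ d ^ n * n.factorial := hle1.trans hPi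
      _ = d ^ n * F1 * F2 := by rw [hF, mul_assoc]
      _ ≤ d ^ n * d ^ n * F2 := Nat.mul_le_mul_right _ (Nat.mul_le_mul_left _ hF1)
      _ = d ^ (2 * n) * F2 := by rw [← pow_add, two_mul]
  have hfin2 : A ^ #S ≤ d ^ (2 * n) := Nat.le_of_mul_le_mul_right hfin hF2
  have hfin3 : ((A : ℝ)) ^ #S ≤ (d : ℝ) ^ (2 * n) := by exact_mod_cast hfin2
  have hApos : (0 : ℝ) < A := by exact_mod_cast hA1
  have hlog := Real.log_le_log (pow_pos hApos _) hfin3
  rw [Real.log_pow, Real.log_pow] at hlog
  calc (#S : ℝ) * Real.log A ≤ ((2 * n : ℕ) : ℝ) * Real.log d := hlog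
    _ = 2 * (n : ℝ) * Real.log d := by push_cast; ring


end Pool.Agent.P2Gap.Ap
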