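import Pool.Agent.P2Gap.Defs

set_option autoImplicit false

namespace Pool.Agent.P2Gap

open Finset

theorem assemble (w z₁ z₂ z y : ℕ) (h1 : w ≤ z₁) (h2 : z₁ ≤ z₂) (h3 : z₂ ≤ z)
    (a a' : ℕ → ℕ) (U : Finset ℕ) (hU : U ⊆ pr z₁ z₂)
    (hcard : #{n ∈ Finset.Icc 1 y | #{p ∈ pr w z₁ | p ∣ n} = 1 ∧ (∀ q ∈ pr 0 w, n % q ≠ a q) ∧
        ∀ p ∈ U, n % p ≠ a' p} +
      2 * #{n ∈ Finset.Icc 1 y | #{p ∈ pr w z₁ | p ∣ n} = 0 ∧ #{q ∈ pr 0 w | n % q = a q} ≤ 1} ≤
      #(pr z₂ z)) : DoubleCover z y := by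
  classical
  set T1 := {n ∈ Finset.Icc 1 y | #{p ∈ pr w z₁ | p ∣ n} = 1 ∧ (∀ q ∈ pr 0 w, n % q ≠ a q) ∧
        ∀ p ∈ U, n % p ≠ a' p} with hT1
  set T0 := {n ∈ Finset.Icc 1 y | #{p ∈ pr w z₁ | p ∣ n} = 0 ∧ #{q ∈ pr 0 w | n % q = a q} ≤ 1}
    with hT0
  set D : Finset (ℕ × ℕ) := (T1 ×ˢ {2}) ∪ (T0 ×ˢ {0, 1}) with hD
  have hDcard : D.card ≤ #(pr z₂ z) := by
    refine (card_union_le _ _).trans ?_
    rw [card_product, card_product, card_singleton, mul_one, card_pair (by norm_num), mul_comm _ 2]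
    exact hcard
  obtain ⟨P', hP', hP'c⟩ := exists_subset_card_eq hDcard
  let e : D ≃ P' := Finset.equivOfCardEq hP'c.symm
  set s : ℕ → ℕ := fun p => if h : p ∈ P' then (e.symm ⟨p, h⟩).1.1 else 0 with hs
  have hse : ∀ x (hx : x ∈ D), s (e ⟨x, hx⟩).1 = x.1 := by
    intro x hx
    simp only [hs]
    rw [dif_pos (e ⟨x, hx⟩).2]
    simp
  have hseP : ∀ x (hx : x ∈ D), (e ⟨x, hx⟩).1 ∈ pr z₂ z := fun x hx => hP' (e ⟨x, hx⟩).2
  set c : ℕ → ℕ := fun p => if p ≤ w then a p else if p ≤ z₁ then 0 else if p ≤ z₂ then a' p else s p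
    with hc
  refine ⟨c, fun n hn => ?_⟩
  set A1 := {q ∈ pr 0 w | n % q = a q} with hA1
  set A2 := {p ∈ pr w z₁ | p ∣ n} with hA2
  set A3 := {p ∈ U | n % p = a' p} with hA3
  set A4 := {p ∈ pr z₂ z | s p = n} with hA4
  have hA1' : ∀ p ∈ A1, (0 < p ∧ p ≤ w) ∧ p.Prime ∧ n % p = a p := by
    intro p hp
    rw [hA1, mem_filter, mem_filter, mem_Ioc] at hp
    exact ⟨hp.1.1, hp.1.2, hp.2⟩
  have hA2' : ∀ p ∈ A2, (w < p ∧ p ≤ z₁) ∧ p.Prime ∧ p ∣ n := by
    intro p hp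
    rw [hA2, mem_filter, mem_filter, mem_Ioc] at hp
    exact ⟨hp.1.1, hp.1.2, hp.2⟩
  have hA3' : ∀ p ∈ A3, (z₁ < p ∧ p ≤ z₂) ∧ p.Prime ∧ n % p = a' p := by
    intro p hp
    rw [hA3, mem_filter] at hp
    have := hU hp.1
    rw [mem_filter, mem_Ioc] at this
    exact ⟨this.1, this.2, hp.2⟩
  have hA4' : ∀ p ∈ A4, (z₂ < p ∧ p ≤ z) ∧ p.Prime ∧ s p = n := by
    intro p hp
    rw [hA4, mem_filter, mem_filter, mem_Ioc] at hp
    exact ⟨hp.1.1, hp.1.2, hp.2⟩
  have hsub : A1 ∪ A2 ∪ (A3 ∪ A4) ⊆ {p ∈ pr 0 z | n ≡ c p [MOD p]} := by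
    intro p hp
    rw [mem_filter, mem_filter, mem_Ioc]
    rcases mem_union.1 hp with hp | hp
    · rcases mem_union.1 hp with hp | hp
      · obtain ⟨⟨u1, u2⟩, u3, u4⟩ := hA1' p hp
        refine ⟨⟨⟨u1, by omega⟩, u3⟩, ?_⟩
        have : c p = a p := by simp only [hc]; rw [if_pos u2]
        rw [this, ← u4]
        exact (Nat.mod_modEq n p).symm
      · obtain ⟨⟨u1, u2⟩, u3, u4⟩ := hA2' p hp
        refine ⟨⟨⟨by omega, by omega⟩, u3⟩, ?_⟩
        have : c p = 0 := by simp only [hc]; rw [if_neg (by omega), if_pos u2]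
        rw [this]
        exact (Nat.modEq_zero_iff_dvd).2 u4
    · rcases mem_union.1 hp with hp | hp
      · obtain ⟨⟨u1, u2⟩, u3, u4⟩ := hA3' p hp
        refine ⟨⟨⟨by omega, by omega⟩, u3⟩, ?_⟩
        have : c p = a' p := by
          simp only [hc]; rw [if_neg (by omega), if_neg (by omega), if_pos u2]
        rw [this, ← u4]
        exact (Nat.mod_modEq n p).symm
      · obtain ⟨⟨u1, u2⟩, u3, u4⟩ := hA4' p hp
        refine ⟨⟨⟨by omega, by omega⟩, u3⟩, ?_⟩
        have : c p = s p := by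
          simp only [hc]; rw [if_neg (by omega), if_neg (by omega), if_neg (by omega)]
        rw [this, u4]
  have hd12 : Disjoint A1 A2 := by
    rw [disjoint_left]; intro p hp hp'
    have := (hA1' p hp).1; have := (hA2' p hp').1; omega
  have hd34 : Disjoint A3 A4 := by
    rw [disjoint_left]; intro p hp hp'
    have := (hA3' p hp).1; have := (hA4' p hp').1; omega
  have hd : Disjoint (A1 ∪ A2) (A3 ∪ A4) := by
    rw [disjoint_left]; intro p hp hp'
    rcases mem_union.1 hp with hp | hp <;> rcases mem_union.1 hp' with hp' | hp'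
    · have := (hA1' p hp).1; have := (hA3' p hp').1; omega
    · have := (hA1' p hp).1; have := (hA4' p hp').1; omega
    · have := (hA2' p hp).1; have := (hA3' p hp').1; omega
    · have := (hA2' p hp).1; have := (hA4' p hp').1; omega
  refine le_trans ?_ (card_le_card hsub)
  rw [card_union_of_disjoint hd, card_union_of_disjoint hd12, card_union_of_disjoint hd34]
  -- case analysis
  by_contra hlt
  push Not at hlt
  by_cases c0 : #A2 = 0
  · have hA1c : #A1 ≤ 1 := by omega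
    have hnT : n ∈ T0 := by
      rw [hT0, mem_filter]; exact ⟨hn, c0, hA1c⟩
    have hx0 : (n, 0) ∈ D := by
      rw [hD, mem_union, mem_product, mem_product]
      right; exact ⟨hnT, by simp⟩
    have hx1 : (n, 1) ∈ D := by
      rw [hD, mem_union, mem_product, mem_product]
      right; exact ⟨hnT, by simp⟩
    have m0 : (e ⟨(n, 0), hx0⟩).1 ∈ A4 := by
      rw [hA4, mem_filter]; exact ⟨hseP _ hx0, hse _ hx0⟩
    have m1 : (e ⟨(n, 1), hx1⟩).1 ∈ A4 := by
      rw [hA4, mem_filter]; exact ⟨hseP _ hx1, hse _ hx1⟩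
    have hne : (e ⟨(n, 0), hx0⟩).1 ≠ (e ⟨(n, 1), hx1⟩).1 := by
      intro h
      have := e.injective (Subtype.ext h)
      simp at this
    have : 2 ≤ #A4 := by
      have := card_le_card (show {(e ⟨(n, 0), hx0⟩).1, (e ⟨(n, 1), hx1⟩).1} ⊆ A4 by
        intro t ht
        rw [mem_insert, mem_singleton] at ht
        rcases ht with rfl | rfl
        · exact m0
        · exact m1)
      rwa [card_pair hne] at this
    omega
  · have c1 : #A2 = 1 := by omega
    have cA1 : #A1 = 0 := by omega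
    have cA3 : #A3 = 0 := by omega
    have hnT : n ∈ T1 := by
      rw [hT1, mem_filter]
      refine ⟨hn, c1, ?_, ?_⟩
      · intro q hq h
        have : q ∈ A1 := by rw [hA1, mem_filter]; exact ⟨hq, h⟩
        rw [card_eq_zero] at cA1
        rw [cA1] at this
        exact notMem_empty _ this
      · intro q hq h
        have : q ∈ A3 := by rw [hA3, mem_filter]; exact ⟨hq, h⟩
        rw [card_eq_zero] at cA3
        rw [cA3] at this
        exact notMem_empty _ this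
    have hx : (n, 2) ∈ D := by
      rw [hD, mem_union, mem_product, mem_product]
      left; exact ⟨hnT, by simp⟩
    have m0 : (e ⟨(n, 2), hx⟩).1 ∈ A4 := by
      rw [hA4, mem_filter]; exact ⟨hseP _ hx, hse _ hx⟩
    have : 1 ≤ #A4 := card_pos.2 ⟨_, m0⟩
    omega

end Pool.Agent.P2Gap
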