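import Pool.Agent.P2Gap.Defs

set_option autoImplicit false

namespace Pool.Agent.P2Gap.Base

open Finset


/-! Number theoretic base facts. `Pool/Agent/Helper923/HMertens.lean` (on origin/main, copy it into your
working tree) contains `mertens_log` and `mertens_ratio`; they are taken as hypotheses here. -/

variable (hlog : ∃ C : ℝ, ∀ N : ℕ, 1 ≤ N →
    |∑ p ∈ (Finset.Icc 1 N).filter Nat.Prime, Real.log p / p - Real.log N| ≤ C)
  (hratio : ∃ C : ℝ, 0 ≤ C ∧ ∀ a b : ℕ, 2 ≤ a → a ≤ b →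
    |∑ p ∈ (Finset.Ioc a b).filter Nat.Prime, (1 : ℝ) / p
      - Real.log (Real.log b / Real.log a)| ≤ C / Real.log a)

include hlog in
theorem base_log : ∃ C₁ : ℝ, ∀ N : ℕ, 1 ≤ N → ∑ p ∈ pr 0 N, Real.log p / p ≤ Real.log N + C₁ := by
  obtain ⟨C, hC⟩ := hlog
  refine ⟨C, fun N hN => ?_⟩
  have h := hC N hN
  have he : pr 0 N = (Finset.Icc 1 N).filter Nat.Prime := by
    ext p; simp only [pr, mem_filter, mem_Ioc, mem_Icc]
    constructor
    · rintro ⟨⟨h1, h2⟩, h3⟩; exact ⟨⟨h1, h2⟩, h3⟩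
    · rintro ⟨⟨h1, h2⟩, h3⟩; exact ⟨⟨h1, h2⟩, h3⟩
  rw [he]
  have := (abs_le.mp h).2
  linarith

theorem pr_split (w : ℕ) (hw : 2 ≤ w) : pr 0 w = insert 2 (pr 2 w) := by
  ext p
  simp only [pr, mem_filter, mem_Ioc, mem_insert]
  constructor
  · rintro ⟨⟨h1, h2⟩, h3⟩
    rcases Nat.lt_or_ge 2 p with h | h
    · right; exact ⟨⟨h, h2⟩, h3⟩
    · left; exact le_antisymm h h3.two_le
  · rintro (h | ⟨⟨h1, h2⟩, h3⟩)
    · subst h; exact ⟨⟨by norm_num, hw⟩, Nat.prime_two⟩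
    · exact ⟨⟨by omega, h2⟩, h3⟩

theorem two_notMem (w : ℕ) : 2 ∉ pr 2 w := by
  simp [pr]

theorem inv_bounds (hratio : ∃ C : ℝ, 0 ≤ C ∧ ∀ a b : ℕ, 2 ≤ a → a ≤ b →
    |∑ p ∈ (Finset.Ioc a b).filter Nat.Prime, (1 : ℝ) / p
      - Real.log (Real.log b / Real.log a)| ≤ C / Real.log a) :
    ∃ C₂ : ℝ, ∀ w : ℕ, 2 ≤ w →
    |∑ p ∈ pr 0 w, 1 / (p : ℝ) - Real.log (Real.log w)| ≤ C₂ := by
  obtain ⟨C, hC0, hC⟩ := hratio
  refine ⟨C / Real.log 2 + 1/2 + |Real.log (Real.log 2)|, fun w hw => ?_⟩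
  have h := hC 2 w le_rfl hw
  rw [pr_split w hw, sum_insert (two_notMem w)]
  have hl2 : 0 < Real.log 2 := Real.log_pos (by norm_num)
  have hlw : 0 < Real.log w := Real.log_pos (by exact_mod_cast (by omega : 1 < w))
  have e : Real.log (Real.log (w:ℝ) / Real.log ((2:ℕ):ℝ)) = Real.log (Real.log w) - Real.log (Real.log 2) := by
    push_cast
    rw [Real.log_div hlw.ne' hl2.ne']
  rw [e] at h
  push_cast at h ⊢
  have h1 := abs_le.mp h
  have h2 := abs_le.mp (le_refl |Real.log (Real.log 2)|)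
  rw [abs_le]
  constructor <;> [linarith [h1.1, h2.1, h2.2]; linarith [h1.2, h2.1, h2.2]]

include hratio in
theorem base_inv : ∃ C₂ : ℝ, ∀ w : ℕ, 2 ≤ w →
    ∑ p ∈ pr 0 w, 1 / (p : ℝ) ≤ Real.log (Real.log w) + C₂ := by
  obtain ⟨C, hC⟩ := inv_bounds hratio
  refine ⟨C, fun w hw => ?_⟩
  have := (abs_le.mp (hC w hw)).2
  linarith

theorem sum_tel (w : ℕ) : ∑ p ∈ pr 0 w, 1 / ((p : ℝ) * (p - 1)) ≤ 1 := by
  have h1 : ∑ p ∈ pr 0 w, 1 / ((p : ℝ) * (p - 1)) ≤ ∑ p ∈ Finset.Ico 2 (w+2), 1 / ((p : ℝ) * (p - 1)) := by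
    apply sum_le_sum_of_subset_of_nonneg
    · intro p hp
      simp only [pr, mem_filter, mem_Ioc, mem_Ico] at hp ⊢
      exact ⟨hp.2.two_le, by omega⟩
    · intro p hp _
      have h2 : 2 ≤ p := (mem_Ico.mp hp).1
      have : (2:ℝ) ≤ p := by exact_mod_cast h2
      apply div_nonneg zero_le_one
      apply mul_nonneg <;> linarith
  refine h1.trans ?_
  have h2 : ∀ n : ℕ, ∑ p ∈ Finset.Ico 2 (n+2), 1 / ((p : ℝ) * (p - 1)) = 1 - 1 / ((n:ℝ) + 1) := by
    intro n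
    induction n with
    | zero => simp
    | succ n ih =>
      rw [show n + 1 + 2 = (n + 2) + 1 by ring, Finset.sum_Ico_succ_top (by omega), ih]
      push_cast
      have : (n:ℝ) + 1 ≠ 0 := by positivity
      have h3 : (n:ℝ) + 2 ≠ 0 := by positivity
      have h4 : (n:ℝ) + 2 - 1 ≠ 0 := by
        have : (0:ℝ) ≤ n := by positivity
        intro h; linarith
      have h5 : (n:ℝ) + 1 + 1 ≠ 0 := by positivity
      field_simp
      ring
  rw [h2]
  have : (0:ℝ) ≤ 1 / ((w:ℝ) + 1) := by positivity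
  linarith

theorem one_sub_inv_le (p : ℕ) (hp : 2 ≤ p) :
    (1 - 1 / (p : ℝ))⁻¹ ≤ Real.exp (1 / (p:ℝ) + 1 / ((p : ℝ) * (p - 1))) := by
  have h2 : (2:ℝ) ≤ p := by exact_mod_cast hp
  have e : (1 - 1 / (p : ℝ))⁻¹ = (1 / (p:ℝ) + 1 / ((p : ℝ) * (p - 1))) + 1 := by
    have h3 : (p:ℝ) ≠ 0 := by linarith
    have h4 : (p:ℝ) - 1 ≠ 0 := by intro h; linarith
    have h5 : 1 - 1 / (p:ℝ) = (p - 1) / p := by field_simp
    rw [h5, inv_div]
    field_simp
    ring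
  rw [e]
  exact Real.add_one_le_exp _

include hratio in
theorem base_prod_upper : ∃ C₂ : ℝ, 0 < C₂ ∧ ∀ w : ℕ, 2 ≤ w →
    ∏ p ∈ pr 0 w, (1 - 1 / (p : ℝ))⁻¹ ≤ C₂ * Real.log w := by
  obtain ⟨C, hC⟩ := inv_bounds hratio
  refine ⟨Real.exp (C + 1), Real.exp_pos _, fun w hw => ?_⟩
  have hlw : 0 < Real.log w := Real.log_pos (by exact_mod_cast (by omega : 1 < w))
  have h1 : ∏ p ∈ pr 0 w, (1 - 1 / (p : ℝ))⁻¹ ≤ ∏ p ∈ pr 0 w, Real.exp (1 / (p:ℝ) + 1 / ((p : ℝ) * (p - 1))) := by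
    apply prod_le_prod
    · intro p hp
      have h2 : 2 ≤ p := (mem_filter.mp hp).2.two_le
      have h2' : (2:ℝ) ≤ p := by exact_mod_cast h2
      apply inv_nonneg.mpr
      have : 1 / (p:ℝ) ≤ 1 := by rw [div_le_one (by linarith)]; linarith
      linarith
    · intro p hp
      exact one_sub_inv_le p (mem_filter.mp hp).2.two_le
  refine h1.trans ?_
  rw [← Real.exp_sum, sum_add_distrib]
  have h3 := (abs_le.mp (hC w hw)).2
  have h4 := sum_tel w
  calc Real.exp (∑ p ∈ pr 0 w, 1 / (p:ℝ) + ∑ p ∈ pr 0 w, 1 / ((p : ℝ) * (p - 1)))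
      ≤ Real.exp (Real.log (Real.log w) + C + 1) := by
        apply Real.exp_le_exp.mpr; linarith
    _ = Real.exp (C + 1) * Real.log w := by
        rw [add_assoc, Real.exp_add, Real.exp_log hlw, mul_comm]

include hratio in
theorem base_prod_lower : ∃ C₃ : ℝ, 0 < C₃ ∧ ∀ w : ℕ, 2 ≤ w →
    ∏ p ∈ pr 0 w, (1 - 1 / (p : ℝ)) ≤ C₃ / Real.log w := by
  obtain ⟨C, hC⟩ := inv_bounds hratio
  refine ⟨Real.exp C, Real.exp_pos _, fun w hw => ?_⟩
  have hlw : 0 < Real.log w := Real.log_pos (by exact_mod_cast (by omega : 1 < w))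
  have h1 : ∏ p ∈ pr 0 w, (1 - 1 / (p : ℝ)) ≤ ∏ p ∈ pr 0 w, Real.exp (-(1 / (p:ℝ))) := by
    apply prod_le_prod
    · intro p hp
      have h2 : 2 ≤ p := (mem_filter.mp hp).2.two_le
      have h2' : (2:ℝ) ≤ p := by exact_mod_cast h2
      have : 1 / (p:ℝ) ≤ 1 := by rw [div_le_one (by linarith)]; linarith
      linarith
    · intro p hp
      have := Real.add_one_le_exp (-(1 / (p:ℝ)))
      linarith
  refine h1.trans ?_
  rw [← Real.exp_sum, sum_neg_distrib]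
  have h3 := (abs_le.mp (hC w hw)).1
  calc Real.exp (-∑ p ∈ pr 0 w, 1 / (p:ℝ))
      ≤ Real.exp (C + - Real.log (Real.log w)) := by
        apply Real.exp_le_exp.mpr; linarith
    _ = Real.exp C / Real.log w := by
        rw [Real.exp_add, Real.exp_neg, Real.exp_log hlw, div_eq_mul_inv]

include hratio in
theorem base_prod_range : ∃ c₄ : ℝ, 0 < c₄ ∧ ∀ Q w : ℕ, 2 ≤ Q → Q ≤ w →
    c₄ * Real.log w / Real.log Q ≤ ∏ p ∈ pr Q w, (1 - 1 / (p : ℝ))⁻¹ := by
  obtain ⟨C, hC0, hC⟩ := hratio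
  refine ⟨Real.exp (-(C / Real.log 2)), Real.exp_pos _, fun Q w hQ hw => ?_⟩
  have hl2 : 0 < Real.log 2 := Real.log_pos (by norm_num)
  have hlw : 0 < Real.log w := Real.log_pos (by exact_mod_cast (by omega : 1 < w))
  have hlQ : 0 < Real.log Q := Real.log_pos (by exact_mod_cast (by omega : 1 < Q))
  have h1 : ∏ p ∈ pr Q w, Real.exp (1 / (p:ℝ)) ≤ ∏ p ∈ pr Q w, (1 - 1 / (p : ℝ))⁻¹ := by
    apply prod_le_prod
    · intro p hp; exact (Real.exp_pos _).le
    · intro p hp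
      have h2 : 2 ≤ p := (mem_filter.mp hp).2.two_le
      have h2' : (2:ℝ) ≤ p := by exact_mod_cast h2
      have h3 : 1 / (p:ℝ) ≤ 1/2 := by
        apply one_div_le_one_div_of_le <;> linarith
      have h4 := Real.add_one_le_exp (-(1 / (p:ℝ)))
      have h5 : Real.exp (1 / (p:ℝ)) = (Real.exp (-(1 / (p:ℝ))))⁻¹ := by
        rw [Real.exp_neg, inv_inv]
      rw [h5]
      apply inv_anti₀
      · linarith
      · linarith
  refine le_trans ?_ h1
  rw [← Real.exp_sum]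
  have h3 := (abs_le.mp (hC Q w hQ hw)).1
  have h4 : C / Real.log Q ≤ C / Real.log 2 := by
    apply div_le_div_of_nonneg_left hC0 hl2
    apply Real.log_le_log (by norm_num)
    exact_mod_cast hQ
  calc Real.exp (-(C / Real.log 2)) * Real.log w / Real.log Q
      = Real.exp (-(C / Real.log 2) + Real.log (Real.log w / Real.log Q)) := by
        rw [Real.exp_add, Real.exp_log (div_pos hlw hlQ), mul_div_assoc]
    _ ≤ _ := by
        apply Real.exp_le_exp.mpr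
        linarith

/-- many primes in `(8^e, 8^(e+1)]` (use `Chebyshev.theta_ge`, `Chebyshev.theta_le_log4_mul_x`) -/
theorem base_count : ∃ c : ℝ, 0 < c ∧ ∃ e₀ : ℕ, ∀ e : ℕ, e₀ ≤ e →
    c * 8 ^ (e + 1) / (e + 1) ≤ (#(pr (8 ^ e) (8 ^ (e + 1))) : ℝ) := by
  have hl2 : 0 < Real.log 2 := Real.log_pos (by norm_num)
  have hlo := (isLittleO_log_rpow_atTop (show (0:ℝ) < 1/2 by norm_num)).bound
    (show (0:ℝ) < Real.log 2 / 16 by positivity)
  have htend : Filter.Tendsto (fun e : ℕ => (8:ℝ) ^ (e + 1)) Filter.atTop Filter.atTop :=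
    (tendsto_pow_atTop_atTop_of_one_lt (by norm_num)).comp (Filter.tendsto_add_atTop_nat 1)
  have hev := htend.eventually hlo
  obtain ⟨e₀, he₀⟩ := Filter.eventually_atTop.mp hev
  refine ⟨1/6, by norm_num, e₀, fun e he => ?_⟩
  have hb := he₀ e he
  set N : ℕ := 8 ^ (e + 1) with hN
  have hNr : (N : ℝ) = (8:ℝ) ^ (e + 1) := by rw [hN]; push_cast; rfl
  rw [← hNr] at hb
  have hN8 : 8 ≤ N := by
    rw [hN, pow_succ]
    have : 1 ≤ 8 ^ e := Nat.one_le_pow _ _ (by norm_num)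
    omega
  have hN8r : (8:ℝ) ≤ N := by exact_mod_cast hN8
  have hlN : 0 < Real.log N := Real.log_pos (by linarith)
  rw [Real.norm_of_nonneg hlN.le, Real.norm_of_nonneg (by positivity), ← Real.sqrt_eq_rpow] at hb
  have h1 := Chebyshev.theta_ge N
  have h2 := Chebyshev.theta_le_log4_mul_x (x := ((8 ^ e : ℕ) : ℝ)) (by positivity)
  have hl4 : Real.log 4 = 2 * Real.log 2 := by
    rw [show (4:ℝ) = 2 ^ 2 by norm_num, Real.log_pow]; norm_num
  have hl8 : Real.log 8 = 3 * Real.log 2 := by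
    rw [show (8:ℝ) = 2 ^ 3 by norm_num, Real.log_pow]; norm_num
  have hNN : (N : ℝ) = 8 * ((8 ^ e : ℕ) : ℝ) := by rw [hNr, pow_succ]; push_cast; ring
  -- the sum over the range
  have h3 : Chebyshev.theta N - Chebyshev.theta ((8 ^ e : ℕ) : ℝ) = ∑ p ∈ pr (8 ^ e) N, Real.log p := by
    unfold Chebyshev.theta
    rw [Nat.floor_natCast, Nat.floor_natCast]
    have hsub : (Finset.Ioc 0 (8 ^ e)).filter Nat.Prime ⊆ (Finset.Ioc 0 N).filter Nat.Prime := by
      intro p hp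
      simp only [mem_filter, mem_Ioc] at hp ⊢
      refine ⟨⟨hp.1.1, hp.1.2.trans ?_⟩, hp.2⟩
      rw [hN]; exact Nat.pow_le_pow_right (by norm_num) (by omega)
    rw [← Finset.sum_sdiff hsub, add_sub_cancel_right]
    apply Finset.sum_congr _ (fun _ _ => rfl)
    ext p
    simp only [pr, mem_sdiff, mem_filter, mem_Ioc, not_and]
    constructor
    · rintro ⟨⟨⟨ha, hb⟩, hc⟩, hd⟩
      refine ⟨⟨?_, hb⟩, hc⟩
      by_contra hlt
      push Not at hlt
      exact hd ⟨ha, hlt⟩ hc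
    · rintro ⟨⟨ha, hb⟩, hc⟩
      refine ⟨⟨⟨hc.pos, hb⟩, hc⟩, ?_⟩
      intro hx _
      omega
  have h4 : ∑ p ∈ pr (8 ^ e) N, Real.log p ≤ (#(pr (8 ^ e) N) : ℝ) * Real.log N := by
    rw [← nsmul_eq_mul]
    apply Finset.sum_le_card_nsmul
    intro p hp
    have hp' := mem_filter.mp hp
    apply Real.log_le_log
    · exact_mod_cast hp'.2.pos
    · exact_mod_cast (mem_Ioc.mp hp'.1).2
  have h5 : Real.log N = (e + 1) * (3 * Real.log 2) := by
    rw [hNr, Real.log_pow, hl8]; push_cast; ring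
  have hsq : Real.sqrt N * Real.sqrt N = N := Real.mul_self_sqrt (by linarith)
  have hs1 : 1 ≤ Real.sqrt N := by
    rw [Real.one_le_sqrt]; linarith
  have h6 : Real.log (N + 1) ≤ 2 * Real.log N := by
    have : Real.log (N + 1) ≤ Real.log ((N:ℝ) ^ 2) := by
      apply Real.log_le_log (by linarith); nlinarith
    rwa [Real.log_pow] at this
  have h7 : 2 * Real.sqrt N * Real.log N ≤ Real.log 2 / 8 * N := by
    have : 2 * Real.sqrt N * Real.log N ≤ 2 * Real.sqrt N * (Real.log 2 / 16 * Real.sqrt N) := by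
      apply mul_le_mul_of_nonneg_left hb; positivity
    nlinarith
  have h8 : 2 * Real.log N ≤ 2 * Real.sqrt N * Real.log N := by nlinarith
  have h9 : (N:ℝ) * Real.log 2 / 2 ≤ (#(pr (8 ^ e) N) : ℝ) * Real.log N := by
    rw [← h3] at h4
    rw [hl4] at h2
    have : 2 * Real.log 2 * ((8 ^ e : ℕ) : ℝ) = Real.log 2 / 4 * N := by rw [hNN]; ring
    nlinarith
  rw [h5] at h9
  rw [← hNr]
  have he1 : (0:ℝ) < (e:ℝ) + 1 := by positivity
  rw [div_le_iff₀ he1]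
  have h10 : Real.log 2 * (N / 2) ≤ Real.log 2 * (3 * ((#(pr (8 ^ e) N) : ℝ) * ((e:ℝ) + 1))) := by
    nlinarith
  have h11 := le_of_mul_le_mul_left h10 hl2
  linarith

/-- `π(y) ≤ C y / log y` -/
theorem base_pi : ∃ C₅ : ℝ, 0 < C₅ ∧ ∀ y : ℕ, 2 ≤ y →
    (#(pr 0 y) : ℝ) ≤ C₅ * y / Real.log y := by
  refine ⟨2 * Real.log 4 + 2, by positivity, fun y hy => ?_⟩
  have hy1 : (1:ℝ) < y := by exact_mod_cast (by omega : 1 < y)
  have hly : 0 < Real.log y := Real.log_pos hy1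
  have h := Chebyshev.pi_le_log4_mul_div hy1
  rw [Nat.floor_natCast] at h
  have he : #(pr 0 y) = Nat.primeCounting y := by
    rw [Nat.primeCounting, Nat.primeCounting', Nat.count_eq_card_filter_range]
    congr 1
    ext p
    simp only [pr, mem_filter, mem_Ioc, mem_range]
    constructor
    · rintro ⟨⟨h1, h2⟩, h3⟩; exact ⟨by omega, h3⟩
    · rintro ⟨h1, h3⟩; exact ⟨⟨h3.pos, by omega⟩, h3⟩
  rw [he]
  refine h.trans ?_
  rw [Real.log_sqrt (by linarith)]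
  have hs : Real.sqrt y * Real.log y ≤ 2 * y := by
    have h1 : Real.log y = 2 * Real.log (Real.sqrt y) := by
      rw [Real.log_sqrt (by linarith)]; ring
    have h2 : Real.log (Real.sqrt y) ≤ Real.sqrt y := by
      have := Real.log_le_sub_one_of_pos (Real.sqrt_pos.mpr (by linarith : (0:ℝ) < y))
      linarith
    have h3 : Real.sqrt y * Real.sqrt y = y := Real.mul_self_sqrt (by linarith)
    have h0 := Real.sqrt_nonneg (y:ℝ)
    nlinarith
  rw [le_div_iff₀ hly, add_mul]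
  have e1 : Real.log 4 * y / (Real.log y / 2) * Real.log y = 2 * Real.log 4 * y := by
    field_simp
  rw [e1]
  nlinarith

end Pool.Agent.P2Gap.Base
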