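import Pool.Agent.P2Gap.Defs

set_option autoImplicit false

namespace Pool.Agent.P2Gap

open Finset

theorem rounding_aux (P : Finset ℕ) (x : ℕ → ℕ → ℝ) (R : Finset ℕ)
    (hP : ∀ p ∈ P, 0 < p)
    (hx0 : ∀ p ∈ P, ∀ a, 0 ≤ x p a) (hx1 : ∀ p ∈ P, ∑ a ∈ range p, x p a ≤ 1) :
    ∀ g : ℕ → ℝ, (∀ n ∈ R, 0 ≤ g n) →
    ∃ a : ℕ → ℕ, ∑ n ∈ R, g n * ∏ p ∈ P, (if n % p = a p then (0 : ℝ) else 1) ≤
      ∑ n ∈ R, g n * ∏ p ∈ P, (1 - x p (n % p)) := by
  classical
  induction P using Finset.induction_on with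
  | empty => intro g _; exact ⟨fun _ => 0, by simp⟩
  | insert p₀ P hp₀ ih =>
    intro g hg
    have hP' : ∀ p ∈ P, 0 < p := fun p hp => hP p (mem_insert_of_mem hp)
    have hx0' : ∀ p ∈ P, ∀ a, 0 ≤ x p a := fun p hp => hx0 p (mem_insert_of_mem hp)
    have hx1' : ∀ p ∈ P, ∑ a ∈ range p, x p a ≤ 1 := fun p hp => hx1 p (mem_insert_of_mem hp)
    have ih' := ih hP' hx0' hx1'
    have hp0 : 0 < p₀ := hP p₀ (mem_insert_self _ _)
    have hxle : ∀ p ∈ P, ∀ n, x p (n % p) ≤ 1 := by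
      intro p hp n
      exact (Finset.single_le_sum (f := fun a => x p a) (fun a _ => hx0' p hp a)
        (mem_range.2 (Nat.mod_lt n (hP' p hp)))).trans (hx1' p hp)
    set g' : ℕ → ℝ := fun n => g n * ∏ p ∈ P, (1 - x p (n % p)) with hg'
    have hg'0 : ∀ n ∈ R, 0 ≤ g' n := fun n hn =>
      mul_nonneg (hg n hn) (prod_nonneg fun p hp => by linarith [hxle p hp n])
    -- choose the class
    obtain ⟨b, hb, hbmax⟩ := Finset.exists_max_image (range p₀)
      (fun b => ∑ n ∈ R, g' n * (if n % p₀ = b then (1 : ℝ) else 0)) ⟨0, mem_range.2 hp0⟩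
    have hH0 : ∀ b, 0 ≤ ∑ n ∈ R, g' n * (if n % p₀ = b then (1 : ℝ) else 0) := fun b =>
      sum_nonneg fun n hn => mul_nonneg (hg'0 n hn) (by split_ifs <;> norm_num)
    have hsum : ∑ b ∈ range p₀, x p₀ b * (∑ n ∈ R, g' n * (if n % p₀ = b then (1 : ℝ) else 0)) =
        ∑ n ∈ R, g' n * x p₀ (n % p₀) := by
      simp_rw [mul_sum]
      rw [sum_comm]
      refine sum_congr rfl fun n _ => ?_
      rw [Finset.sum_eq_single_of_mem (n % p₀) (mem_range.2 (Nat.mod_lt n hp0))]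
      · simp; ring
      · intro c _ hc
        rw [if_neg (fun h => hc h.symm)]; ring
    have hkey : ∑ n ∈ R, g' n * x p₀ (n % p₀) ≤
        ∑ n ∈ R, g' n * (if n % p₀ = b then (1 : ℝ) else 0) := by
      rw [← hsum]
      calc _ ≤ ∑ c ∈ range p₀, x p₀ c * (∑ n ∈ R, g' n * (if n % p₀ = b then (1 : ℝ) else 0)) :=
            sum_le_sum fun c hc => mul_le_mul_of_nonneg_left (hbmax c hc)
              (hx0 p₀ (mem_insert_self _ _) c)
        _ = (∑ c ∈ range p₀, x p₀ c) * (∑ n ∈ R, g' n * (if n % p₀ = b then (1 : ℝ) else 0)) := by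
            rw [sum_mul]
        _ ≤ 1 * _ := mul_le_mul_of_nonneg_right (hx1 p₀ (mem_insert_self _ _)) (hH0 b)
        _ = _ := one_mul _
    obtain ⟨a, ha⟩ := ih' (fun n => g n * (if n % p₀ = b then (0 : ℝ) else 1))
      (fun n hn => mul_nonneg (hg n hn) (by split_ifs <;> norm_num))
    refine ⟨Function.update a p₀ b, ?_⟩
    have hL : ∀ n, g n * ∏ p ∈ insert p₀ P, (if n % p = Function.update a p₀ b p then (0 : ℝ) else 1)
        = (g n * (if n % p₀ = b then (0 : ℝ) else 1)) *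
          ∏ p ∈ P, (if n % p = a p then (0 : ℝ) else 1) := by
      intro n
      rw [prod_insert hp₀, Function.update_self, mul_assoc]
      congr 2
      refine prod_congr rfl fun p hp => ?_
      have hne : p ≠ p₀ := fun h => hp₀ (h ▸ hp)
      rw [Function.update_of_ne hne]
    simp_rw [hL]
    refine ha.trans ?_
    have hR : ∀ n, (g n * (if n % p₀ = b then (0 : ℝ) else 1)) * ∏ p ∈ P, (1 - x p (n % p))
        = g' n - g' n * (if n % p₀ = b then (1 : ℝ) else 0) := by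
      intro n
      simp only [hg']
      split_ifs <;> ring
    have hR2 : ∀ n, g n * ∏ p ∈ insert p₀ P, (1 - x p (n % p)) = g' n - g' n * x p₀ (n % p₀) := by
      intro n
      rw [prod_insert hp₀]
      simp only [hg']
      ring
    simp_rw [hR, hR2, sum_sub_distrib]
    linarith

/-- choose residue classes modulo `p ∈ P` so that the number of uncovered `n ∈ R` is at most its
expectation -/
theorem rounding (P : Finset ℕ) (x : ℕ → ℕ → ℝ) (R : Finset ℕ)
    (hP : ∀ p ∈ P, 0 < p)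
    (hx0 : ∀ p ∈ P, ∀ a, 0 ≤ x p a) (hx1 : ∀ p ∈ P, ∑ a ∈ range p, x p a ≤ 1) :
    ∃ a : ℕ → ℕ, ((#{n ∈ R | ∀ p ∈ P, n % p ≠ a p} : ℕ) : ℝ) ≤
      ∑ n ∈ R, Real.exp (- ∑ p ∈ P, x p (n % p)) := by
  classical
  obtain ⟨a, ha⟩ := rounding_aux P x R hP hx0 hx1 (fun _ => 1) (fun _ _ => zero_le_one)
  refine ⟨a, ?_⟩
  have h1 : ((#{n ∈ R | ∀ p ∈ P, n % p ≠ a p} : ℕ) : ℝ) =
      ∑ n ∈ R, 1 * ∏ p ∈ P, (if n % p = a p then (0 : ℝ) else 1) := by
    rw [Finset.card_filter]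
    push_cast
    refine sum_congr rfl fun n _ => ?_
    rw [one_mul]
    by_cases h : ∀ p ∈ P, n % p ≠ a p
    · rw [if_pos h, prod_eq_one]
      intro p hp
      rw [if_neg (h p hp)]
    · rw [if_neg h]
      push Not at h
      obtain ⟨p, hp, hpe⟩ := h
      rw [prod_eq_zero hp]
      rw [if_pos hpe]
  rw [h1]
  refine ha.trans (sum_le_sum fun n _ => ?_)
  rw [one_mul, ← sum_neg_distrib, Real.exp_sum]
  refine prod_le_prod (fun p hp => ?_) fun p _ => ?_
  · have := (Finset.single_le_sum (f := fun a => x p a) (fun a _ => hx0 p hp a)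
        (mem_range.2 (Nat.mod_lt n (hP p hp)))).trans (hx1 p hp)
    linarith
  · have := Real.add_one_le_exp (-(x p (n % p)))
    linarith

end Pool.Agent.P2Gap
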