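import Pool.Agent.P2Gap.Low
import Pool.Agent.P2Gap.Rounding
import Pool.Agent.P2Gap.Assemble

set_option autoImplicit false

namespace Pool.Agent.P2Gap

open Finset

/-- the probabilistic core: if the expected deficit is at most the number of primes kept for
single corrections, then `[1,y]` has a double cover -/
theorem core (w z₁ z₂ z y M : ℕ) (h1 : w ≤ z₁) (h2 : z₁ ≤ z₂) (h3 : z₂ ≤ z)
    (I : Finset ℕ) (Q K : ℕ → ℕ) (P : ℕ → Finset ℕ) (hM : 0 < M)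
    (hI : I.Nonempty) (hP0 : ∀ i ∈ I, (P i).Nonempty)
    (hPsub : ∀ i ∈ I, P i ⊆ pr z₁ z₂)
    (hPdisj : ∀ i ∈ I, ∀ j ∈ I, i ≠ j → Disjoint (P i) (P j))
    (hP : ∀ i ∈ I, ∀ p ∈ P i, Good (pr 0 w) (Q i) (K i) p ∧ y / p ≤ K i)
    (η : ℝ) (hη : 0 < η)
    (hsec : ∀ i ∈ I, ∀ p ∈ P i, ∑ p' ∈ P i, (1 / (p' : ℝ)) *
      ∏ q ∈ pr (Q i) w, (1 + 2 * (cc (K i) q p p' : ℝ) / q) ≤
      (1 + η ^ 2) * ∑ p' ∈ P i, 1 / (p' : ℝ))
    (hthree : ∀ i ∈ I, ∀ p ∈ P i, ∀ b₀ < p, ∑ b ∈ range p,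
      ∏ q ∈ pr (Q i) w, (1 + 2 * (dd (K i) q p b₀ b : ℝ) / q) ≤ 3 * (p : ℝ))
    (hfinal : (#{n ∈ Finset.Icc 1 y | #{p ∈ pr w z₁ | p ∣ n} = 1} : ℝ) *
        (PS w * (Real.exp (- (∑ i ∈ I, mu w (Q i) M (P i)) / 4) + 2 * η + 4 * (3 / (4 * M)))) +
      2 * ((#{n ∈ Finset.Icc 1 y | #{p ∈ pr w z₁ | p ∣ n} = 0} : ℝ) *
        (PS w * (1 + 2 * ∑ q ∈ pr 0 w, 1 / (q : ℝ)))) ≤ (#(pr z₂ z) : ℝ)) :
    DoubleCover z y := by
  classical
  have hprime : ∀ q ∈ pr 0 w, q.Prime := fun q hq => (mem_filter.1 hq).2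
  have hPpr : ∀ i ∈ I, ∀ p ∈ P i, p.Prime := fun i hi p hp => (mem_filter.1 (hPsub i hi hp)).2
  set G1 := {n ∈ Finset.Icc 1 y | #{p ∈ pr w z₁ | p ∣ n} = 1} with hG1
  set G0 := {n ∈ Finset.Icc 1 y | #{p ∈ pr w z₁ | p ∣ n} = 0} with hG0
  set lam : ℕ → (ℕ → ℕ) → ℝ := fun n a => ∑ i ∈ I, ∑ p ∈ P i, xw w (Q i) (K i) M p (n % p) a
    with hlam
  set F : (ℕ → ℕ) → ℝ := fun a => ∑ n ∈ G1, Rn (pr 0 w) n a * Real.exp (- lam n a) +
    2 * ∑ n ∈ G0, (if #{q ∈ pr 0 w | n % q = a q} ≤ 1 then (1 : ℝ) else 0) with hF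
  have hEx : Ex (pr 0 w) F ≤ (#(pr z₂ z) : ℝ) := by
    refine le_trans ?_ hfinal
    rw [hF, Ex_add, Ex_sum, Ex_mul_left, Ex_sum]
    refine add_le_add ?_ (mul_le_mul_of_nonneg_left ?_ (by norm_num))
    · rw [← nsmul_eq_mul]
      refine sum_le_card_nsmul _ _ _ fun n hn => ?_
      have hny : n ≤ y := (mem_Icc.1 (mem_filter.1 hn).1).2
      exact per_n w M n I Q K P hM hI hP0
        (fun i hi p hp => ⟨(hPpr i hi p hp).pos, (hP i hi p hp).1,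
          (Nat.div_le_div_right hny).trans (hP i hi p hp).2⟩) η hη hsec
        (fun i hi p hp => hthree i hi p hp _ (Nat.mod_lt _ (hPpr i hi p hp).pos))
    · rw [← nsmul_eq_mul]
      exact sum_le_card_nsmul _ _ _ fun n _ => Ex_low w n
  obtain ⟨a, ha⟩ := Ex_exists (pr 0 w) (fun q hq => (hprime q hq).pos) F
  have haF := ha.trans hEx
  -- rounding
  set x : ℕ → ℕ → ℝ := fun p b => ∑ i ∈ I, if p ∈ P i then xw w (Q i) (K i) M p b a else 0 with hx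
  set U := I.biUnion P with hU
  have hUsub : U ⊆ pr z₁ z₂ := by
    intro p hp
    rw [hU, mem_biUnion] at hp
    obtain ⟨i, hi, hp⟩ := hp
    exact hPsub i hi hp
  have hx0 : ∀ p ∈ U, ∀ b, 0 ≤ x p b := by
    intro p _ b
    refine sum_nonneg fun i hi => ?_
    split_ifs with hpi
    · exact xw_nonneg _ _ _ _ _ _ _ (hP i hi p hpi).1
    · exact le_rfl
  have hx1 : ∀ p ∈ U, ∑ b ∈ range p, x p b ≤ 1 := by
    intro p hp
    rw [hU, mem_biUnion] at hp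
    obtain ⟨i, hi, hpi⟩ := hp
    have h : ∀ b ∈ range p, x p b = xw w (Q i) (K i) M p b a := by
      intro b _
      simp only [hx]
      rw [Finset.sum_eq_single_of_mem i hi, if_pos hpi]
      intro j hj hji
      rw [if_neg]
      intro hpj
      exact (disjoint_left.1 (hPdisj j hj i hi hji) hpj) hpi
    rw [sum_congr rfl h]
    exact xw_sum w (Q i) (K i) M p a (hP i hi p hpi).1
  set R := G1.filter (fun n => ∀ q ∈ pr 0 w, n % q ≠ a q) with hR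
  obtain ⟨a', ha'⟩ := rounding U x R (fun p hp => ((mem_filter.1 (hUsub hp)).2).pos) hx0 hx1
  have hxlam : ∀ n, ∑ p ∈ U, x p (n % p) = lam n a := by
    intro n
    simp only [hx, hlam]
    rw [sum_comm]
    refine sum_congr rfl fun i hi => ?_
    rw [← sum_filter]
    refine sum_congr ?_ fun _ _ => rfl
    ext p
    rw [mem_filter, hU, mem_biUnion]
    exact ⟨fun h => h.2, fun h => ⟨⟨i, hi, h⟩, h⟩⟩
  have hRsum : ∑ n ∈ R, Real.exp (- ∑ p ∈ U, x p (n % p)) =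
      ∑ n ∈ G1, Rn (pr 0 w) n a * Real.exp (- lam n a) := by
    rw [hR, sum_filter]
    refine sum_congr rfl fun n _ => ?_
    rw [hxlam]
    by_cases hn : ∀ q ∈ pr 0 w, n % q ≠ a q
    · rw [if_pos hn]
      have : Rn (pr 0 w) n a = 1 := prod_eq_one fun q hq => if_neg (hn q hq)
      rw [this, one_mul]
    · rw [if_neg hn]
      push Not at hn
      obtain ⟨q, hq, he⟩ := hn
      have : Rn (pr 0 w) n a = 0 := prod_eq_zero hq (if_pos he)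
      rw [this, zero_mul]
  rw [hRsum] at ha'
  refine assemble w z₁ z₂ z y h1 h2 h3 a a' U hUsub ?_
  have e1 : #{n ∈ Finset.Icc 1 y | #{p ∈ pr w z₁ | p ∣ n} = 1 ∧ (∀ q ∈ pr 0 w, n % q ≠ a q) ∧
        ∀ p ∈ U, n % p ≠ a' p} = #{n ∈ R | ∀ p ∈ U, n % p ≠ a' p} := by
    congr 1
    ext n
    simp only [hR, hG1, mem_filter]
    tauto
  have e2 : #{n ∈ Finset.Icc 1 y | #{p ∈ pr w z₁ | p ∣ n} = 0 ∧ #{q ∈ pr 0 w | n % q = a q} ≤ 1} =
      #{n ∈ G0 | #{q ∈ pr 0 w | n % q = a q} ≤ 1} := by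
    congr 1
    ext n
    simp only [hG0, mem_filter]
    tauto
  rw [e1, e2]
  have e3 : ∑ n ∈ G0, (if #{q ∈ pr 0 w | n % q = a q} ≤ 1 then (1 : ℝ) else 0) =
      (#{n ∈ G0 | #{q ∈ pr 0 w | n % q = a q} ≤ 1} : ℝ) := by
    rw [card_filter]; push_cast; rfl
  have hfin : F a = ∑ n ∈ G1, Rn (pr 0 w) n a * Real.exp (- lam n a) +
    2 * (#{n ∈ G0 | #{q ∈ pr 0 w | n % q = a q} ≤ 1} : ℝ) := by
    simp only [hF]; rw [e3]
  rw [hfin] at haF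
  have : ((#{n ∈ R | ∀ p ∈ U, n % p ≠ a' p} + 2 * #{n ∈ G0 | #{q ∈ pr 0 w | n % q = a q} ≤ 1} : ℕ) : ℝ)
      ≤ (#(pr z₂ z) : ℝ) := by
    push_cast
    linarith
  exact_mod_cast this

end Pool.Agent.P2Gap
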