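import Mathlib

set_option autoImplicit false

namespace Pool.Agent.P2Gap

open Finset

/-- primes in `(a,b]` -/
abbrev pr (a b : ℕ) : Finset ℕ := (Finset.Ioc a b).filter Nat.Prime

/-- `[1,y]` is covered (at least) twice by residue classes modulo the primes `≤ z` -/
def DoubleCover (z y : ℕ) : Prop :=
  ∃ a : ℕ → ℕ, ∀ n ∈ Finset.Icc 1 y, 2 ≤ #{p ∈ pr 0 z | n ≡ a p [MOD p]}

/-- `w`-smooth integers in `[1,x]` -/
abbrev sm (w x : ℕ) : Finset ℕ :=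
  (Finset.Icc 1 x).filter (fun n => ∀ p ∈ n.primeFactors, p ≤ w)

/-- number of pairs `(j,j')` of nonzero integers of size `≤ K` with `q ∣ j p - j' p'` -/
noncomputable abbrev cc (K q p p' : ℕ) : ℕ :=
  #{x ∈ (Finset.Icc (-(K : ℤ)) K) ×ˢ (Finset.Icc (-(K : ℤ)) K) |
    x.1 ≠ 0 ∧ x.2 ≠ 0 ∧ (q : ℤ) ∣ x.1 * p - x.2 * p'}

/-- number of pairs `(j,j')` with `0 ≤ j,j' ≤ K` and `q ∣ (a + j p) - (a' + j' p)` -/
abbrev dd (K q p a a' : ℕ) : ℕ :=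
  #{x ∈ Finset.range (K + 1) ×ˢ Finset.range (K + 1) |
    (q : ℤ) ∣ ((a : ℤ) + x.1 * p) - (a' + x.2 * p)}

end Pool.Agent.P2Gap
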