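import Pool.Agent.P2Gap.Defs

set_option autoImplicit false

namespace Pool.Agent.P2Gap

open Finset

/-- extend a choice of residues on `S` by zero -/
noncomputable def ext (S : Finset ℕ) (ω : S → ℕ) : ℕ → ℕ :=
  open Classical in fun q => if h : q ∈ S then ω ⟨q, h⟩ else 0

/-- the (finite) set of residue choices -/
noncomputable def Om (S : Finset ℕ) : Finset (S → ℕ) :=
  open Classical in Fintype.piFinset (fun q : S => range (q : ℕ))

/-- average over all choices of residues `a q ∈ [0,q)`, `q ∈ S` -/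
noncomputable def Ex (S : Finset ℕ) (F : (ℕ → ℕ) → ℝ) : ℝ :=
  (∑ ω ∈ Om S, F (ext S ω)) / ∏ q ∈ S, (q : ℝ)

lemma Ex_add (S : Finset ℕ) (F G : (ℕ → ℕ) → ℝ) :
    Ex S (fun a => F a + G a) = Ex S F + Ex S G := by
  unfold Ex; rw [sum_add_distrib, add_div]

lemma Ex_sub (S : Finset ℕ) (F G : (ℕ → ℕ) → ℝ) :
    Ex S (fun a => F a - G a) = Ex S F - Ex S G := by
  unfold Ex; rw [sum_sub_distrib, sub_div]

lemma Ex_mul_left (S : Finset ℕ) (c : ℝ) (F : (ℕ → ℕ) → ℝ) :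
    Ex S (fun a => c * F a) = c * Ex S F := by
  unfold Ex; rw [← mul_sum, mul_div_assoc]

lemma Ex_sum {ι : Type*} (S : Finset ℕ) (s : Finset ι) (F : ι → (ℕ → ℕ) → ℝ) :
    Ex S (fun a => ∑ i ∈ s, F i a) = ∑ i ∈ s, Ex S (F i) := by
  unfold Ex; rw [sum_comm, sum_div]

lemma Ex_mono (S : Finset ℕ) (F G : (ℕ → ℕ) → ℝ) (h : ∀ a, F a ≤ G a) : Ex S F ≤ Ex S G := by
  unfold Ex
  exact div_le_div_of_nonneg_right (sum_le_sum fun ω _ => h _) (prod_nonneg fun q _ => by positivity)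

lemma Ex_nonneg (S : Finset ℕ) (F : (ℕ → ℕ) → ℝ) (h : ∀ a, 0 ≤ F a) : 0 ≤ Ex S F := by
  unfold Ex
  exact div_nonneg (sum_nonneg fun ω _ => h _) (prod_nonneg fun q _ => by positivity)

lemma Ex_congr (S : Finset ℕ) (F G : (ℕ → ℕ) → ℝ) (h : ∀ a, F a = G a) : Ex S F = Ex S G := by
  rw [funext h]

lemma Ex_prod (S : Finset ℕ) (f : ℕ → ℕ → ℝ) :
    Ex S (fun a => ∏ q ∈ S, f q (a q)) = ∏ q ∈ S, ((∑ b ∈ range q, f q b) / q) := by
  classical
  unfold Ex
  rw [prod_div_distrib]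
  congr 1
  have h1 : ∀ ω : S → ℕ, ∏ q ∈ S, f q (ext S ω q) = ∏ q : S, f q (ω q) := by
    intro ω
    rw [← Finset.prod_coe_sort S (fun q => f q (ext S ω q))]
    refine prod_congr rfl fun q _ => ?_
    simp [ext]
  simp_rw [h1]
  rw [← Finset.prod_coe_sort S (fun q => ∑ b ∈ range q, f q b)]
  rw [Finset.prod_univ_sum]
  unfold Om
  congr! 1

lemma Ex_exists (S : Finset ℕ) (hS : ∀ q ∈ S, 0 < q) (F : (ℕ → ℕ) → ℝ) : ∃ a, F a ≤ Ex S F := by
  classical
  have hcard : ((Om S).card : ℝ) = ∏ q ∈ S, (q : ℝ) := by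
    unfold Om
    rw [Fintype.card_piFinset]
    push_cast
    rw [← Finset.prod_coe_sort S (fun q => (q : ℝ))]
    refine prod_congr rfl fun q _ => by simp
  have hpos : (0 : ℝ) < ∏ q ∈ S, (q : ℝ) := prod_pos fun q hq => by exact_mod_cast hS q hq
  have hne : (Om S).Nonempty := by
    rw [← Finset.card_pos]
    have : (0 : ℝ) < ((Om S).card : ℝ) := by rw [hcard]; exact hpos
    exact_mod_cast this
  have : ∃ ω ∈ Om S, F (ext S ω) ≤ Ex S F := by
    apply Finset.exists_le_of_sum_le hne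
    rw [sum_const, nsmul_eq_mul, hcard]
    unfold Ex
    rw [mul_div_cancel₀ _ hpos.ne']
  obtain ⟨ω, _, h⟩ := this
  exact ⟨_, h⟩

lemma Ex_one (S : Finset ℕ) (hS : ∀ q ∈ S, 0 < q) : Ex S (fun _ => 1) = 1 := by
  have h := Ex_prod S (fun _ _ => 1)
  simp only [prod_const_one] at h
  rw [h]
  refine prod_eq_one fun q hq => ?_
  have : (0 : ℝ) < q := by exact_mod_cast hS q hq
  simp [this.ne']

end Pool.Agent.P2Gap
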