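import Pool.Agent.P2Gap.Main

set_option autoImplicit false

namespace Pool.Agent.P2Gap

open Finset

lemma aux_g4 (C I F : ℕ) (h : (3 * C + 3) * (I + 1) ≤ F) : C + I + 2 ≤ F ∧ C + 3 * I ≤ F := by
  have h1 : (3 * C + 3) * (I + 1) = 3 * (C * I) + 3 * C + 3 * I + 3 := by ring
  constructor <;> omega

lemma aux_g2 (D C I i F : ℕ) (hi : i ≤ I) (h : (D * C ^ 4 + 4) * (I + 1) ≤ F) :
    D * C ^ 4 + 4 * (i + 1) ≤ F := by
  refine le_trans ?_ h
  have h1 : (D * C ^ 4 + 4) * (I + 1) = D * C ^ 4 * I + D * C ^ 4 + 4 * (I + 1) := by ring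
  have h2 : 0 ≤ D * C ^ 4 * I := Nat.zero_le _
  rw [h1]; omega

lemma aux_sq (C I E F : ℕ) (h : C + 3 * I ≤ F) (hE : E ≤ I * F) : C + 3 * E ≤ 8 ^ F := by
  have h6 : C + 3 * E ≤ F * F := by
    rcases Nat.eq_zero_or_pos F with h0 | h0
    · subst h0; omega
    · calc C + 3 * E ≤ C * F + 3 * (I * F) := by
            have : C * 1 ≤ C * F := Nat.mul_le_mul_left C h0
            omega
        _ = (C + 3 * I) * F := by ring
        _ ≤ F * F := Nat.mul_le_mul_right F h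
  have h7 : F * F ≤ 8 ^ F := by
    have h8' : F ≤ 2 ^ F := (Nat.lt_two_pow_self).le
    calc F * F ≤ 2 ^ F * 2 ^ F := Nat.mul_le_mul h8' h8'
      _ = (2 * 2) ^ F := by rw [← mul_pow]
      _ ≤ 8 ^ F := Nat.pow_le_pow_left (by norm_num) F
  exact h6.trans h7

lemma aux_exp (κ Λ' Λ δ : ℝ) (hκ : 0 < κ) (hδ : 0 < δ) (h : -4 * Real.log (δ / 3) / κ < Λ')
    (hΛ : Λ' ≤ Λ) : Real.exp (-(κ * Λ) / 4) ≤ δ / 3 := by
  rw [← Real.le_log_iff_exp_le (by positivity)]
  rw [div_lt_iff₀ hκ] at h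
  nlinarith

lemma aux_logQ (a l i : ℝ) (ha : 0 ≤ a) (hl : 0 ≤ l) (hi : 1 ≤ i) :
    a + 4 * (i + 1) * l ≤ (a + 8 * l) * i := by nlinarith [mul_nonneg ha (by linarith : 0 ≤ i - 1), mul_nonneg hl (by linarith : 0 ≤ i - 1)]

lemma aux_loglog (I l : ℝ) (hI : 1 ≤ I) (hl : l ≤ 3) (hl0 : 0 ≤ l) : (6 * I + 1) * l ≤ 21 * I := by
  nlinarith

lemma aux_S (Ci I s L : ℝ) (hI : 1 ≤ I) (h1 : s ≤ L + Ci) (h2 : L ≤ 21 * I) :
    1 + 2 * s ≤ (43 + 2 * |Ci|) * I := by
  have h5 : Ci ≤ |Ci| := le_abs_self _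
  have h6 : |Ci| ≤ |Ci| * I := by nlinarith [abs_nonneg Ci]
  nlinarith

lemma aux_k1 (v : ℕ) (C₈ c : ℝ) (hv : 0 < v) (hc : 0 < c) (hC₈ : 0 < C₈) (h : 12 * C₈ / c ≤ v)
    (x : ℝ) (hx : x ≤ (1 / 4) ^ v) : C₈ * (2 * v * x) ≤ c / 6 := by
  have hvr : (0 : ℝ) < v := by exact_mod_cast hv
  have h2 : (v : ℝ) ≤ 2 ^ v := by exact_mod_cast (Nat.lt_two_pow_self (n := v)).le
  have h3 : (v : ℝ) * (v * (1 / 4) ^ v) ≤ 1 := by
    have e4 : ((1 : ℝ) / 4) ^ v = 1 / (2 ^ v * 2 ^ v) := by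
      rw [← mul_pow, one_div_pow]; norm_num
    rw [e4, ← mul_assoc, mul_one_div, div_le_one (by positivity)]
    exact mul_le_mul h2 h2 hvr.le (by positivity)
  have h4 : (v : ℝ) * (1 / 4) ^ v ≤ 1 / v := by
    rw [le_div_iff₀ hvr]; linarith
  calc C₈ * (2 * v * x) ≤ C₈ * (2 * v * (1 / 4) ^ v) := by gcongr
    _ = 2 * C₈ * (v * (1 / 4) ^ v) := by ring
    _ ≤ 2 * C₈ * (1 / v) := mul_le_mul_of_nonneg_left h4 (by positivity)
    _ ≤ c / 6 := by
        rw [mul_one_div, div_le_div_iff₀ hvr (by norm_num)]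
        rw [div_le_iff₀ hc] at h
        linarith

lemma aux_k2 (c F A G B : ℝ) (hc : 0 < c) (hF : 0 < F) (hG : 0 ≤ G)
    (h3 : 6 * B ≤ c * A) (h2 : A * G ≤ F) : B * G / F ≤ c / 6 := by
  rw [div_le_div_iff₀ hF (by norm_num)]
  nlinarith [mul_le_mul_of_nonneg_right h3 hG, mul_le_mul_of_nonneg_left h2 hc.le]

theorem main_cover (C : ℕ) (hC : 1 ≤ C) :
    ∃ z y : ℕ, 1 ≤ z ∧ C * z ≤ y ∧ DoubleCover z y := by
  classical
  obtain ⟨C₁, hC₁⟩ := Base.base_log Helper923.HMertens.mertens_log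
  obtain ⟨Ci, hCi⟩ := Base.base_inv Helper923.HMertens.mertens_ratio
  obtain ⟨C₂, hC₂pos, hC₂⟩ := Base.base_prod_upper Helper923.HMertens.mertens_ratio
  obtain ⟨C₃, hC₃pos, hC₃⟩ := Base.base_prod_lower Helper923.HMertens.mertens_ratio
  obtain ⟨c₄, hc₄pos, hc₄⟩ := Base.base_prod_range Helper923.HMertens.mertens_ratio
  obtain ⟨c, hcpos, e₀, hc⟩ := Base.base_count
  obtain ⟨C₅, hC₅pos, hC₅⟩ := Base.base_pi
  obtain ⟨Cs, hCspos, hCs⟩ := Smooth.smooth_bound C₁ hC₁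
  obtain ⟨Cg, hCgpos, hCg⟩ := G1.g1_bound C₁ C₂ hC₁ hC₂
  have hCr : (1 : ℝ) ≤ C := by exact_mod_cast hC
  have hCr0 : (0 : ℝ) < C := by linarith
  have h8 := log8_bounds
  have h80 : 0 < Real.log 8 := by linarith [h8.1]
  set δ₀ : ℝ := c * Real.log 8 / (2 * Cg * C₃ * C) with hδ₀
  have hδ₀pos : 0 < δ₀ := by positivity
  set η : ℝ := δ₀ / 6 with hη
  have hηpos : 0 < η := by positivity
  obtain ⟨M, hM⟩ := exists_nat_gt (9 / δ₀)
  have hM0r : (0 : ℝ) < M := lt_trans (by positivity) hM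
  have hM0 : 0 < M := by exact_mod_cast hM0r
  have hM3 : 4 * (3 / (4 * (M : ℝ))) ≤ δ₀ / 3 := by
    rw [div_lt_iff₀ hδ₀pos] at hM
    rw [show 4 * (3 / (4 * (M : ℝ))) = 3 / M by field_simp, div_le_div_iff₀ hM0r (by norm_num)]
    linarith
  obtain ⟨D₁, hD₁⟩ := Nt1.nt1 Ap.ap_bound ⟨c, hcpos, e₀, hc⟩ ⟨Ci, hCi⟩ (η ^ 2 / 8) (by positivity)
  obtain ⟨D₂, hD₂⟩ := Nt2.nt2 ⟨Ci, hCi⟩
  set D : ℕ := D₁ + D₂ + 8 with hD
  have hDr : (1 : ℝ) ≤ D := by exact_mod_cast (by omega : 1 ≤ D)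
  set C₉ : ℝ := Real.log (D * C ^ 4) + 8 * Real.log 8 with hC₉
  have hlogDC : 0 ≤ Real.log (D * C ^ 4) := by
    apply Real.log_nonneg
    have : (1 : ℝ) ≤ C ^ 4 := one_le_pow₀ hCr
    nlinarith
  have hC₉pos : 0 < C₉ := by positivity
  have hlog4 : 0 < Real.log 4 := Real.log_pos (by norm_num)
  set κ : ℝ := (c * c₄ / M) * (Real.log 8 / C₉) * Real.log 4 with hκ
  have hκpos : 0 < κ := by positivity
  obtain ⟨Λ', hΛ'⟩ := exists_nat_gt (-4 * Real.log (δ₀ / 3) / κ)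
  set Λ : ℕ := Λ' + 1 with hΛ
  have hΛexp : Real.exp (-(κ * Λ) / 4) ≤ δ₀ / 3 := by
    refine aux_exp κ Λ' Λ δ₀ hκpos hδ₀pos hΛ' ?_
    rw [hΛ]; push_cast; linarith
  set C₆ : ℝ := 43 + 2 * |Ci| with hC₆
  have hC₆pos : 0 < C₆ := by positivity
  set C₈ : ℝ := 2 * C * C₃ * C₆ with hC₈
  have hC₈pos : 0 < C₈ := by positivity
  -- the growth constant
  obtain ⟨A5, hA5⟩ := exists_nat_gt (6 * C₈ * Cs / c)
  obtain ⟨A6, hA6⟩ := exists_nat_gt (6 * C₈ * C₅ * C / c)
  set A : ℕ := (6 + 3 * D) * (D * C ^ 2) + (D * C ^ 4 + 4) + (e₀ + 1) + (3 * C + 3) + A5 + A6 with hA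
  -- choice of v
  obtain ⟨v₁, hv₁⟩ := exists_nat_gt Cs
  obtain ⟨v₂, hv₂⟩ := exists_nat_gt (4 * 16 ^ Λ * Cs)
  obtain ⟨v₃, hv₃⟩ := exists_nat_gt (12 * C₈ / c)
  set v : ℕ := v₁ + v₂ + v₃ + 64 * A + 1 with hv
  have hv0 : 0 < v := by omega
  have hvr : (0 : ℝ) < v := by exact_mod_cast hv0
  have hvCs : Cs ≤ v := by
    have : (v₁ : ℝ) ≤ v := by exact_mod_cast (by omega : v₁ ≤ v)
    linarith
  have hv16 : 4 * 16 ^ Λ * Cs ≤ v := by
    have : (v₂ : ℝ) ≤ v := by exact_mod_cast (by omega : v₂ ≤ v)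
    linarith
  have hv12 : 12 * C₈ / c ≤ v := by
    have : (v₃ : ℝ) ≤ v := by exact_mod_cast (by omega : v₃ ≤ v)
    linarith
  set u : ℕ := 2 * v with hu
  set I : ℕ := 16 ^ (Λ * v) with hI
  have hvI : 2 * v ≤ I := by
    have h1 : v < 2 ^ v := Nat.lt_two_pow_self
    calc 2 * v ≤ 2 * 2 ^ v := by omega
      _ = 2 ^ (v + 1) := (pow_succ' 2 v).symm
      _ ≤ 2 ^ (4 * (Λ * v)) := by
          apply Nat.pow_le_pow_right (by norm_num)
          have : v ≤ Λ * v := Nat.le_mul_of_pos_left v (by omega)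
          omega
      _ = 16 ^ (Λ * v) := by rw [pow_mul]; norm_num
  have hI0 : 0 < I := by omega
  have hI64 : 64 * A ≤ I := by omega
  have hgrow := growth A I hI64
  set F : ℕ := 8 ^ (6 * I) with hF
  set E : ℕ := u * F with hE
  have hF0 : 0 < F := by positivity
  have hu2 : 2 ≤ u := by omega
  have hu0 : 0 < u := by omega
  have hE2F : 2 * F ≤ E := Nat.mul_le_mul_right F hu2
  have hE0 : 0 < E := by omega
  -- consequences of the growth bound
  have hI1 : 1 ≤ (I + 1) ^ 3 := Nat.one_le_pow _ _ (by omega)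
  have h64 : 1 ≤ 64 ^ (I + 1) := Nat.one_le_pow _ _ (by norm_num)
  have hI3 : I + 1 ≤ (I + 1) ^ 3 := Nat.le_self_pow (by norm_num) _
  have g1 : (6 + 3 * D) * (D * C ^ 2) * ((I + 1) * 64 ^ (I + 1)) ≤ F := by
    refine le_trans ?_ hgrow
    calc (6 + 3 * D) * (D * C ^ 2) * ((I + 1) * 64 ^ (I + 1))
        ≤ A * ((I + 1) ^ 3 * 64 ^ (I + 1)) := by
          apply Nat.mul_le_mul
          · omega
          · exact Nat.mul_le_mul_right _ hI3
      _ = A * (I + 1) ^ 3 * 64 ^ (I + 1) := by ring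
  have hAI : A * (I + 1) ≤ F := by
    refine le_trans ?_ hgrow
    calc A * (I + 1) = A * (I + 1) * 1 := by ring
      _ ≤ A * (I + 1) ^ 3 * 64 ^ (I + 1) := by gcongr
  have g2 : (D * C ^ 4 + 4) * (I + 1) ≤ F := by
    refine le_trans ?_ hAI
    apply Nat.mul_le_mul_right
    omega
  have g3 : e₀ + 1 ≤ F := by
    refine le_trans ?_ hAI
    calc e₀ + 1 ≤ A := by omega
      _ ≤ A * (I + 1) := Nat.le_mul_of_pos_right _ (by omega)
  have g4 : (3 * C + 3) * (I + 1) ≤ F := by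
    refine le_trans ?_ hAI
    apply Nat.mul_le_mul_right
    omega
  have g4' : C + I + 2 ≤ F := (aux_g4 C I F g4).1
  -- scales
  set ee : ℕ → ℕ := fun i => E - i - 1 with hee
  set K : ℕ → ℕ := fun i => C * 8 ^ (i + 1) with hK
  set Q : ℕ → ℕ := fun i => D * (K i) ^ 4 with hQ
  set P : ℕ → Finset ℕ := fun i => pr (8 ^ (ee i)) (8 ^ (ee i + 1)) with hP
  have heeF : ∀ i ∈ Finset.Icc 1 I, F ≤ ee i := by
    intro i hi
    rw [mem_Icc] at hi
    simp only [hee]
    omega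
  have heeE : ∀ i ∈ Finset.Icc 1 I, ee i + (i + 1) = E := by
    intro i hi
    rw [mem_Icc] at hi
    simp only [hee]
    omega
  have hK1 : ∀ i, 1 ≤ K i := fun i => Nat.mul_pos hC (by positivity)
  have hw2 : 2 ≤ 8 ^ F := by
    calc 2 ≤ 8 ^ 1 := by norm_num
      _ ≤ 8 ^ F := Nat.pow_le_pow_right (by norm_num) hF0
  have hwlt : ∀ i ∈ Finset.Icc 1 I, 8 ^ F < 8 ^ (ee i) := by
    intro i hi
    apply Nat.pow_lt_pow_right (by norm_num)
    rw [mem_Icc] at hi
    simp only [hee]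
    omega
  have hcc : ∀ i ∈ Finset.Icc 1 I,
      ((D : ℝ) * Real.log ((8 ^ F : ℕ) : ℝ)) ^ (D * (K i) ^ 2) ≤ (8 : ℝ) ^ (ee i) := by
    intro i hi
    exact cond_c C D I F i (ee i) (mem_Icc.1 hi).2 rfl g1 (heeF i hi)
  have hcount : ∀ i ∈ Finset.Icc 1 I,
      c * 8 ^ (ee i + 1) / ((ee i : ℝ) + 1) ≤ (#(P i) : ℝ) := by
    intro i hi
    exact hc (ee i) (by have := heeF i hi; omega)
  have hlogw : (0 : ℝ) ≤ Real.log ((8 ^ F : ℕ) : ℝ) := by rw [log_w]; positivity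
  -- the core theorem
  refine ⟨8 ^ E, C * 8 ^ E, Nat.one_le_pow _ _ (by norm_num), le_rfl, ?_⟩
  have hz1 : 0 < 8 ^ (E - I - 1) := by positivity
  refine core (8 ^ F) (8 ^ (E - I - 1)) (8 ^ (E - 1)) (8 ^ E) (C * 8 ^ E) M
    (Nat.pow_le_pow_right (by norm_num) (by omega)) (Nat.pow_le_pow_right (by norm_num) (by omega))
    (Nat.pow_le_pow_right (by norm_num) (by omega)) (Finset.Icc 1 I) Q K P hM0
    ⟨1, mem_Icc.2 ⟨le_rfl, hI0⟩⟩ ?_ ?_ ?_ ?_ η hηpos ?_ ?_ ?_
  · -- nonempty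
    intro i hi
    rw [← card_pos]
    have h := hcount i hi
    have : (0 : ℝ) < (#(P i) : ℝ) := lt_of_lt_of_le (by positivity) h
    exact_mod_cast this
  · -- subset
    intro i hi p hp
    rw [mem_Icc] at hi
    simp only [hP, hee, mem_filter, mem_Ioc] at hp
    rw [mem_filter, mem_Ioc]
    refine ⟨⟨lt_of_le_of_lt (Nat.pow_le_pow_right (by norm_num) (by omega)) hp.1.1,
      hp.1.2.trans (Nat.pow_le_pow_right (by norm_num) (by omega))⟩, hp.2⟩
  · -- disjoint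
    intro i hi j hj hij
    rw [disjoint_left]
    intro p hpi hpj
    simp only [hP, mem_filter, mem_Ioc] at hpi hpj
    have h1 := heeE i hi
    have h2 := heeE j hj
    rcases lt_or_gt_of_ne (show ee i ≠ ee j by omega) with h | h
    · have : 8 ^ (ee i + 1) ≤ 8 ^ (ee j) := Nat.pow_le_pow_right (by norm_num) (by omega)
      omega
    · have : 8 ^ (ee j + 1) ≤ 8 ^ (ee i) := Nat.pow_le_pow_right (by norm_num) (by omega)
      omega
  · -- good
    intro i hi p hp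
    refine ⟨good_scale C D F (ee i) p (K i) (Q i) hC (by omega) i rfl rfl (heeF i hi) hp, ?_⟩
    rw [mem_filter, mem_Ioc] at hp
    exact y_div C E (ee i) i p (heeE i hi).symm hp.1.1
  · -- second moment
    intro i hi p hp
    have h := hD₁ D (by omega) (K i) (Q i) (8 ^ F) (ee i) (hK1 i) le_rfl hw2 (hwlt i hi) (hcc i hi) p hp
    have h2 := sec_weight (ee i) (η ^ 2 / 8) (by positivity) _
      (fun p' => cc_nonneg_prod (K i) (Q i) (8 ^ F) p p') h
    refine h2.trans_eq ?_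
    congr 1
    ring
  · -- third
    intro i hi p hp b₀ hb₀
    have hp' := hp
    rw [mem_filter, mem_Ioc] at hp'
    exact hD₂ D (by omega) (K i) (Q i) (8 ^ F) (ee i) p b₀ (hK1 i) le_rfl hw2 (hwlt i hi) (hcc i hi)
      hp'.2 hp'.1.1 hb₀
  · -- final inequality
    have hE1 : E - 1 + 1 = E := by omega
    have hcnt : c * (8 ^ E / E) ≤ (#(pr (8 ^ (E - 1)) (8 ^ E)) : ℝ) := by
      have h := hc (E - 1) (by omega)
      rw [hE1] at h
      have h2 : ((E - 1 : ℕ) : ℝ) + 1 = E := by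
        have : ((E - 1 + 1 : ℕ) : ℝ) = E := by rw [hE1]
        push_cast at this
        exact this
      rw [h2] at h
      calc c * (8 ^ E / E) = c * 8 ^ E / E := by ring
        _ ≤ _ := h
    have hPSle : PS (8 ^ F) ≤ C₃ / Real.log ((8 ^ F : ℕ) : ℝ) := hC₃ (8 ^ F) hw2
    have hPS0 := (PS_pos (8 ^ F)).le
    have hFr : (0 : ℝ) < F := by exact_mod_cast hF0
    have hEr : (0 : ℝ) < E := by exact_mod_cast hE0
    have hur : (0 : ℝ) < u := by exact_mod_cast hu0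
    have hIr : (1 : ℝ) ≤ I := by exact_mod_cast hI0
    have hEuF : (E : ℝ) = u * F := by rw [hE]; push_cast; ring
    -- coverage
    have hQ2 : ∀ i, 2 ≤ Q i := by
      intro i
      have h1 : 1 ≤ (K i) ^ 4 := Nat.one_le_pow _ _ (hK1 i)
      have h2 : 8 * 1 ≤ D * (K i) ^ 4 := Nat.mul_le_mul (by omega) h1
      simp only [hQ]
      omega
    have hQle : ∀ i ∈ Finset.Icc 1 I, Q i ≤ 8 ^ F := by
      intro i hi
      rw [mem_Icc] at hi
      have h1 : D * C ^ 4 ≤ 8 ^ (D * C ^ 4) := (Nat.lt_pow_self (by norm_num : 1 < 8)).le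
      calc Q i = (D * C ^ 4) * 8 ^ (4 * (i + 1)) := by
            simp only [hQ, hK]
            rw [mul_pow, ← pow_mul]; ring
        _ ≤ 8 ^ (D * C ^ 4) * 8 ^ (4 * (i + 1)) := Nat.mul_le_mul_right _ h1
        _ = 8 ^ (D * C ^ 4 + 4 * (i + 1)) := by rw [pow_add]
        _ ≤ 8 ^ F := by
            apply Nat.pow_le_pow_right (by norm_num)
            exact aux_g2 D C I i F hi.2 g2
    have hlogQ : ∀ i ∈ Finset.Icc 1 I, Real.log (Q i) ≤ C₉ * i := by
      intro i hi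
      rw [mem_Icc] at hi
      have hir : (1 : ℝ) ≤ i := by exact_mod_cast hi.1
      have h1 : ((Q i : ℕ) : ℝ) = (D * C ^ 4) * 8 ^ (4 * (i + 1)) := by
        simp only [hQ, hK]
        push_cast
        rw [mul_pow, ← pow_mul]; ring
      have h2 : (0 : ℝ) < (D : ℝ) * C ^ 4 := by positivity
      rw [h1, Real.log_mul h2.ne' (by positivity), Real.log_pow]
      push_cast
      rw [hC₉]
      exact aux_logQ _ _ _ hlogDC h80.le hir
    have hlogQ0 : ∀ i, 0 < Real.log (Q i) := fun i =>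
      Real.log_pos (by exact_mod_cast (by have := hQ2 i; omega : 1 < Q i))
    have hmu : κ * Λ ≤ ∑ i ∈ Finset.Icc 1 I, mu (8 ^ F) (Q i) M (P i) := by
      have h1 : ∀ i ∈ Finset.Icc 1 I, (c * c₄ / M) * (Real.log 8 / (u * C₉)) * (1 / (i : ℝ)) ≤
          mu (8 ^ F) (Q i) M (P i) := by
        intro i hi
        have hi' := mem_Icc.1 hi
        have hir : (1 : ℝ) ≤ i := by exact_mod_cast hi'.1
        refine le_trans ?_ (mu_lower (8 ^ F) (Q i) M (ee i) E c c₄ hcpos hc₄pos hM0 (hcount i hi)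
          (hc₄ (Q i) (8 ^ F) (hQ2 i) (hQle i hi)) (by have := heeE i hi; omega) hlogw (hlogQ0 i))
        rw [mul_assoc]
        apply mul_le_mul_of_nonneg_left _ (by positivity)
        rw [log_w, hEuF]
        calc Real.log 8 / (u * C₉) * (1 / (i : ℝ)) = F * Real.log 8 / (u * F * (C₉ * i)) := by
              field_simp
          _ ≤ F * Real.log 8 / (u * F * Real.log (Q i)) := by
              apply div_le_div_of_nonneg_left (by positivity) (by have := hlogQ0 i; positivity)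
              exact mul_le_mul_of_nonneg_left (hlogQ i hi) (by positivity)
      refine le_trans ?_ (sum_le_sum h1)
      rw [← mul_sum]
      have h2 := harm_lower I
      have h3 : Λ * (u * Real.log 4) ≤ Real.log (I + 1) := by
        have h4 : Real.log (I : ℝ) = Λ * (u * Real.log 4) := by
          have h16 : Real.log 16 = 2 * Real.log 4 := by
            rw [show (16 : ℝ) = 4 ^ 2 by norm_num, Real.log_pow]; norm_num
          rw [hI]
          push_cast
          rw [Real.log_pow, h16, hu]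
          push_cast
          ring
        rw [← h4]
        exact Real.log_le_log (by linarith) (by linarith)
      calc κ * Λ = (c * c₄ / M) * (Real.log 8 / (u * C₉)) * (Λ * (u * Real.log 4)) := by
            rw [hκ]; field_simp
        _ ≤ (c * c₄ / M) * (Real.log 8 / (u * C₉)) * ∑ i ∈ Finset.Icc 1 I, 1 / (i : ℝ) :=
            mul_le_mul_of_nonneg_left (h3.trans h2) (by positivity)
    have hexp : Real.exp (-(∑ i ∈ Finset.Icc 1 I, mu (8 ^ F) (Q i) M (P i)) / 4) ≤ δ₀ / 3 := by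
      refine le_trans ?_ hΛexp
      apply Real.exp_le_exp.2
      linarith
    -- first term
    have hT1 := T1_bound C E F c Cg C₃
      (Real.exp (-(∑ i ∈ Finset.Icc 1 I, mu (8 ^ F) (Q i) M (P i)) / 4) + 2 * η + 4 * (3 / (4 * M)))
      (#{n ∈ Finset.Icc 1 (C * 8 ^ E) | #{p ∈ pr (8 ^ F) (8 ^ (E - I - 1)) | p ∣ n} = 1} : ℝ)
      (PS (8 ^ F)) hC hE0 hF0 hCgpos hC₃pos (Nat.cast_nonneg _) hPS0
      (by
        refine hCg (8 ^ F) (8 ^ (E - I - 1)) (C * 8 ^ E) hw2 ?_ ?_ ?_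
        · calc 8 ^ F ≤ 8 ^ E := Nat.pow_le_pow_right (by norm_num) (by omega)
            _ ≤ C * 8 ^ E := Nat.le_mul_of_pos_left _ hC
        · calc C * 8 ^ E < 8 ^ C * 8 ^ E :=
                Nat.mul_lt_mul_of_pos_right (Nat.lt_pow_self (by norm_num : 1 < 8)) (by positivity)
            _ = 8 ^ (C + E) := by rw [pow_add]
            _ ≤ 8 ^ (F + (E - I - 1)) := Nat.pow_le_pow_right (by norm_num) (by omega)
            _ = 8 ^ F * 8 ^ (E - I - 1) := by rw [pow_add]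
        · have h1 : Real.log ((C * 8 ^ E : ℕ) : ℝ) ≤ ((C + 3 * E : ℕ) : ℝ) := by
            push_cast
            rw [Real.log_mul (by positivity) (by positivity), Real.log_pow]
            have h2 := Real.log_le_self hCr0.le
            have h3 := mul_le_mul_of_nonneg_left h8.2 hEr.le
            linarith
          have h2 : C + 3 * E ≤ 8 ^ F := by
            have h3 : u ≤ I := by omega
            have h4 : E ≤ I * F := Nat.mul_le_mul_right F h3
            exact aux_sq C I E F (aux_g4 C I F g4).2 h4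
          exact h1.trans (by exact_mod_cast h2))
      hPSle (by positivity) (by rw [hη] at *; linarith)
    -- second term
    have hT0 := T0_bound C E F u v I c Cs C₃ C₅ C₆
      (#{n ∈ Finset.Icc 1 (C * 8 ^ E) | #{p ∈ pr (8 ^ F) (8 ^ (E - I - 1)) | p ∣ n} = 0} : ℝ)
      (1 + 2 * ∑ q ∈ pr 0 (8 ^ F), 1 / (q : ℝ)) (PS (8 ^ F)) hC hE hu0 hF0 hI0 hC₃pos hC₆pos hCspos
      hC₅pos (Nat.cast_nonneg _) hPS0
      (by
        have h1 := G0_le (8 ^ F) (8 ^ (E - I - 1)) (C * 8 ^ E) hz1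
        have h2 : C * 8 ^ E / 8 ^ (E - I - 1) = C * 8 ^ (I + 1) := by
          have : E = (E - I - 1) + (I + 1) := by omega
          conv_lhs => rw [this, pow_add, mul_left_comm]
          rw [show E - I - 1 + (I + 1) - I - 1 = E - I - 1 by omega]
          exact Nat.mul_div_cancel_left _ (by positivity)
        rw [h2] at h1
        have h3 : (#{n ∈ Finset.Icc 1 (C * 8 ^ E) | #{p ∈ pr (8 ^ F) (8 ^ (E - I - 1)) | p ∣ n} = 0} : ℝ)
            ≤ (#(sm (8 ^ F) (C * 8 ^ E)) : ℝ) + (#(pr 0 (C * 8 ^ E)) : ℝ) * (C * 8 ^ (I + 1)) := by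
          exact_mod_cast h1
        refine h3.trans (add_le_add ?_ ?_)
        · refine hCs v v (8 ^ F) (C * 8 ^ E) hvCs hw2 ?_
          calc (8 ^ F) ^ (v + v) = 8 ^ E := by
                rw [← pow_mul, hE, hu]; congr 1; ring
            _ ≤ C * 8 ^ E := Nat.le_mul_of_pos_left _ hC
        · refine mul_le_mul_of_nonneg_right (hC₅ (C * 8 ^ E) ?_) (by positivity)
          calc 2 ≤ 8 ^ 1 := by norm_num
            _ ≤ 8 ^ E := Nat.pow_le_pow_right (by norm_num) hE0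
            _ ≤ C * 8 ^ E := Nat.le_mul_of_pos_left _ hC)
      hPSle
      (by
        have h1 := hCi (8 ^ F) hw2
        have h2 : Real.log (Real.log ((8 ^ F : ℕ) : ℝ)) ≤ 21 * I := by
          have h3 : Real.log ((8 ^ F : ℕ) : ℝ) ≤ 8 ^ (6 * I + 1) := by
            rw [log_w]
            have hF' : (F : ℝ) = 8 ^ (6 * I) := by rw [hF]; push_cast; rfl
            rw [hF', pow_succ]
            exact mul_le_mul_of_nonneg_left (by linarith [h8.2]) (by positivity)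
          have h4 : 0 < Real.log ((8 ^ F : ℕ) : ℝ) := by rw [log_w]; positivity
          refine (Real.log_le_log h4 h3).trans ?_
          rw [Real.log_pow]
          push_cast
          exact aux_loglog _ _ hIr h8.2 h80.le
        rw [hC₆]
        exact aux_S Ci I _ _ hIr h1 h2)
      (by
        have : (0 : ℝ) ≤ ∑ q ∈ pr 0 (8 ^ F), 1 / (q : ℝ) := sum_nonneg fun q _ => by positivity
        linarith)
      (by
        have h1 : (I : ℝ) * (Cs / v) ^ v ≤ (1 / 4) ^ v := by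
          have h2 : (I : ℝ) = (16 ^ Λ) ^ v := by
            rw [hI]; push_cast; rw [← pow_mul]
          rw [h2, ← mul_pow]
          apply pow_le_pow_left₀ (by positivity)
          rw [← mul_div_assoc, div_le_div_iff₀ hvr (by norm_num)]
          linarith
        have hu' : (u : ℝ) = 2 * v := by rw [hu]; push_cast; ring
        have e1 : 2 * C * C₃ * C₆ * (I * u * (Cs / v) ^ v) = C₈ * (2 * v * (I * (Cs / v) ^ v)) := by
          rw [hC₈, hu']; ring
        rw [e1]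
        exact aux_k1 v C₈ c hv0 hcpos hC₈pos hv12 _ h1)
      (by
        have h1 : A5 * I ^ 3 ≤ F := by
          refine le_trans ?_ hgrow
          calc A5 * I ^ 3 = A5 * I ^ 3 * 1 := by ring
            _ ≤ A * (I + 1) ^ 3 * 64 ^ (I + 1) := by
                apply Nat.mul_le_mul _ h64
                apply Nat.mul_le_mul (by omega)
                exact Nat.pow_le_pow_left (by omega) 3
        have h2 : (A5 : ℝ) * I ^ 3 ≤ F := by exact_mod_cast h1
        have hu' : (u : ℝ) ≤ I := by exact_mod_cast (by omega : u ≤ I)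
        have hv' : (v : ℝ) ≤ I := by exact_mod_cast (by omega : v ≤ I)
        have h3 : 6 * C₈ * Cs ≤ c * A5 := by
          rw [div_lt_iff₀ hcpos] at hA5; linarith
        calc 2 * C * C₃ * C₆ * (I * u * (Cs * v / F)) = C₈ * Cs * (I * u * v) / F := by
              rw [hC₈]; ring
          _ ≤ C₈ * Cs * (I * I * I) / F := by gcongr
          _ = C₈ * Cs * I ^ 3 / F := by ring
          _ ≤ c / 6 := aux_k2 c F A5 (I ^ 3) (C₈ * Cs) hcpos hFr (by positivity)
              (by linarith) h2)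
      (by
        have h1 : A6 * (I ^ 2 * 8 ^ (I + 1)) ≤ F := by
          refine le_trans ?_ hgrow
          rw [← mul_assoc]
          apply Nat.mul_le_mul
          · apply Nat.mul_le_mul (by omega)
            calc I ^ 2 ≤ (I + 1) ^ 2 := Nat.pow_le_pow_left (by omega) 2
              _ ≤ (I + 1) ^ 3 := Nat.pow_le_pow_right (by omega) (by norm_num)
          · exact Nat.pow_le_pow_left (by norm_num) _
        have h2 : (A6 : ℝ) * (I ^ 2 * 8 ^ (I + 1)) ≤ F := by exact_mod_cast h1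
        have hu' : (u : ℝ) ≤ I := by exact_mod_cast (by omega : u ≤ I)
        have h3 : 6 * C₈ * C₅ * C ≤ c * A6 := by
          rw [div_lt_iff₀ hcpos] at hA6; linarith
        calc 2 * C * C₃ * C₆ * (I * u * (C₅ * (C * 8 ^ (I + 1)) / F)) =
              C₈ * C₅ * C * (I * u * 8 ^ (I + 1)) / F := by
              rw [hC₈]; ring
          _ ≤ C₈ * C₅ * C * (I * I * 8 ^ (I + 1)) / F := by gcongr
          _ = C₈ * C₅ * C * (I ^ 2 * 8 ^ (I + 1)) / F := by ring
          _ ≤ c / 6 := aux_k2 c F A6 (I ^ 2 * 8 ^ (I + 1)) (C₈ * C₅ * C) hcpos hFr (by positivity)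
              (by linarith) h2)
    have : c * (8 ^ E / E) = c / 2 * (8 ^ E / E) + c / 2 * (8 ^ E / (E : ℝ)) := by ring
    linarith

end Pool.Agent.P2Gap
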