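import Pool.Agent.P2Gap.Final

set_option autoImplicit false

namespace Pool.Agent.P2Gap

open Finset

lemma cond_c' (C D I J F i e : ℕ) (hi : i ≤ I) (hIJ : I ≤ J) (hF : F ≤ 8 ^ (6 * J + 6))
    (hbig : (6 + 3 * D) * (D * C ^ 2) * ((J + 1) * 64 ^ (J + 1)) ≤ F) (he : F ≤ e) :
    ((D : ℝ) * Real.log ((8 ^ F : ℕ) : ℝ)) ^ (D * (C * 8 ^ (i + 1)) ^ 2) ≤ (8 : ℝ) ^ e := by
  have h0 : (0 : ℝ) ≤ (D : ℝ) * Real.log ((8 ^ F : ℕ) : ℝ) := by
    rw [log_w]
    have := log8_bounds.1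
    positivity
  have h1 : (D : ℝ) * Real.log ((8 ^ F : ℕ) : ℝ) ≤ (8 : ℝ) ^ (6 * J + 6 + 3 * D) := by
    rw [log_w]
    have hF' : (F : ℝ) ≤ 8 ^ (6 * J + 6) := by exact_mod_cast hF
    have h3D : ((3 * D : ℕ) : ℝ) ≤ (8 : ℝ) ^ (3 * D) := by
      exact_mod_cast (Nat.lt_pow_self (n := 3 * D) (by norm_num : 1 < 8)).le
    push_cast at h3D
    have hD0 : (0 : ℝ) ≤ D := by positivity
    calc (D : ℝ) * (F * Real.log 8) ≤ D * (8 ^ (6 * J + 6) * 3) := by
          have := log8_bounds.2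
          have := log8_bounds.1
          gcongr
      _ = (3 * D) * 8 ^ (6 * J + 6) := by ring
      _ ≤ 8 ^ (3 * D) * 8 ^ (6 * J + 6) := by gcongr
      _ = 8 ^ (6 * J + 6 + 3 * D) := by rw [← pow_add, add_comm]
  have h2 : (6 * J + 6 + 3 * D) * (D * (C * 8 ^ (i + 1)) ^ 2) ≤ e := by
    refine le_trans ?_ (hbig.trans he)
    have h3 : (8 ^ (i + 1)) ^ 2 ≤ 64 ^ (J + 1) := by
      rw [← pow_mul, mul_comm, pow_mul]
      exact Nat.pow_le_pow_right (by norm_num) (by omega)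
    have h4 : 6 * J + 6 + 3 * D ≤ (6 + 3 * D) * (J + 1) := by nlinarith
    calc (6 * J + 6 + 3 * D) * (D * (C * 8 ^ (i + 1)) ^ 2)
        = (6 * J + 6 + 3 * D) * (D * C ^ 2 * (8 ^ (i + 1)) ^ 2) := by ring
      _ ≤ ((6 + 3 * D) * (J + 1)) * (D * C ^ 2 * 64 ^ (J + 1)) := by gcongr
      _ = (6 + 3 * D) * (D * C ^ 2) * ((J + 1) * 64 ^ (J + 1)) := by ring
  calc ((D : ℝ) * Real.log ((8 ^ F : ℕ) : ℝ)) ^ (D * (C * 8 ^ (i + 1)) ^ 2)
      ≤ ((8 : ℝ) ^ (6 * J + 6 + 3 * D)) ^ (D * (C * 8 ^ (i + 1)) ^ 2) := pow_le_pow_left₀ h0 h1 _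
    _ = (8 : ℝ) ^ ((6 * J + 6 + 3 * D) * (D * (C * 8 ^ (i + 1)) ^ 2)) := by rw [← pow_mul]
    _ ≤ (8 : ℝ) ^ e := pow_le_pow_right₀ (by norm_num) h2

/-- second half of the final inequality -/
lemma T0_bound' (C E F u v I : ℕ) (c Cs C₃ C₅ C₆ X S P : ℝ) (hC : 1 ≤ C) (hE : E ≤ 2 * (u * F))
    (hFE : F ≤ E)
    (hu : 0 < u) (hF : 0 < F) (hI : 0 < I)
    (hC₃ : 0 < C₃) (hC₆ : 0 < C₆) (hCs : 0 < Cs) (hC₅ : 0 < C₅) (hX0 : 0 ≤ X) (hP0 : 0 ≤ P)
    (hX : X ≤ ((C * 8 ^ E : ℕ) : ℝ) * ((Cs / v) ^ v + Cs * v / Real.log ((8 ^ F : ℕ) : ℝ)) +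
      (C₅ * ((C * 8 ^ E : ℕ) : ℝ) / Real.log ((C * 8 ^ E : ℕ) : ℝ)) * (C * 8 ^ (I + 1)))
    (hP : P ≤ C₃ / Real.log ((8 ^ F : ℕ) : ℝ))
    (hS : S ≤ C₆ * I) (hS0 : 0 ≤ S)
    (k1 : (4 * C * C₃ * C₆) * (I * u * (Cs / v) ^ v) ≤ c / 6)
    (k2 : (4 * C * C₃ * C₆) * (I * u * (Cs * v / F)) ≤ c / 6)
    (k3 : (4 * C * C₃ * C₆) * (I * u * (C₅ * (C * 8 ^ (I + 1)) / F)) ≤ c / 6) :
    2 * (X * (P * S)) ≤ c / 2 * (8 ^ E / E) := by
  have hCr : (0 : ℝ) < C := by exact_mod_cast hC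
  have hFr : (0 : ℝ) < F := by exact_mod_cast hF
  have hur : (0 : ℝ) < u := by exact_mod_cast hu
  have hIr : (0 : ℝ) < I := by exact_mod_cast hI
  have hE0 : 0 < E := by omega
  have hEr : (0 : ℝ) < E := by exact_mod_cast hE0
  have h8 : 1 ≤ Real.log 8 := log8_bounds.1
  have hlwF : (F : ℝ) ≤ Real.log ((8 ^ F : ℕ) : ℝ) := by rw [log_w]; nlinarith
  have hlw : 0 < Real.log ((8 ^ F : ℕ) : ℝ) := by linarith
  have hly := (log_y C E hC).1
  have hEF : (F : ℝ) ≤ E := by exact_mod_cast hFE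
  have hly0 : 0 < Real.log ((C * 8 ^ E : ℕ) : ℝ) := by linarith
  have hy0 : (0 : ℝ) < ((C * 8 ^ E : ℕ) : ℝ) := by push_cast; positivity
  set B : ℝ := (Cs / v) ^ v + Cs * v / F + C₅ * (C * 8 ^ (I + 1)) / F with hB
  have hB0 : 0 ≤ B := by positivity
  have h1 : X ≤ ((C * 8 ^ E : ℕ) : ℝ) * B := by
    refine hX.trans ?_
    have a1 : Cs * v / Real.log ((8 ^ F : ℕ) : ℝ) ≤ Cs * v / F :=
      div_le_div_of_nonneg_left (by positivity) hFr hlwF
    have a2 : (C₅ * ((C * 8 ^ E : ℕ) : ℝ) / Real.log ((C * 8 ^ E : ℕ) : ℝ)) * (C * 8 ^ (I + 1)) ≤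
        ((C * 8 ^ E : ℕ) : ℝ) * (C₅ * (C * 8 ^ (I + 1)) / F) := by
      have : 1 / Real.log ((C * 8 ^ E : ℕ) : ℝ) ≤ 1 / F :=
        one_div_le_one_div_of_le hFr (hEF.trans hly)
      calc (C₅ * ((C * 8 ^ E : ℕ) : ℝ) / Real.log ((C * 8 ^ E : ℕ) : ℝ)) * (C * 8 ^ (I + 1))
          = (((C * 8 ^ E : ℕ) : ℝ) * (C₅ * (C * 8 ^ (I + 1)))) *
              (1 / Real.log ((C * 8 ^ E : ℕ) : ℝ)) := by ring
        _ ≤ (((C * 8 ^ E : ℕ) : ℝ) * (C₅ * (C * 8 ^ (I + 1)))) * (1 / F) :=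
            mul_le_mul_of_nonneg_left this (by positivity)
        _ = _ := by ring
    have a3 := mul_le_mul_of_nonneg_left a1 hy0.le
    rw [hB]
    nlinarith
  have h2 : P ≤ C₃ / F := hP.trans (div_le_div_of_nonneg_left hC₃.le hFr hlwF)
  have h3 : P * S ≤ (C₃ / F) * (C₆ * I) := mul_le_mul h2 hS hS0 (by positivity)
  have h4 : X * (P * S) ≤ (((C * 8 ^ E : ℕ) : ℝ) * B) * ((C₃ / F) * (C₆ * I)) :=
    mul_le_mul h1 h3 (mul_nonneg hP0 hS0) (by positivity)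
  have h5 : 2 * ((((C * 8 ^ E : ℕ) : ℝ) * B) * ((C₃ / F) * (C₆ * I))) ≤
      ((4 * C * C₃ * C₆) * (I * u * B)) * (8 ^ E / E) := by
    have hE2 : (E : ℝ) ≤ 2 * (u * F) := by exact_mod_cast hE
    have h51 : 1 / (F : ℝ) ≤ 2 * u / E := by
      rw [div_le_div_iff₀ hFr hEr]; linarith
    have h52 : 2 * ((((C * 8 ^ E : ℕ) : ℝ) * B) * ((C₃ / F) * (C₆ * I))) =
        (2 * C * C₃ * C₆ * I * B * 8 ^ E) * (1 / F) := by push_cast; ring
    have h53 : ((4 * C * C₃ * C₆) * (I * u * B)) * (8 ^ E / E) =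
        (2 * C * C₃ * C₆ * I * B * 8 ^ E) * (2 * u / E) := by ring
    rw [h52, h53]
    exact mul_le_mul_of_nonneg_left h51 (by positivity)
  have h6 : (4 * C * C₃ * C₆) * (I * u * B) ≤ c / 2 := by
    rw [hB]
    nlinarith
  calc 2 * (X * (P * S)) ≤ 2 * ((((C * 8 ^ E : ℕ) : ℝ) * B) * ((C₃ / F) * (C₆ * I))) := by linarith
    _ ≤ ((4 * C * C₃ * C₆) * (I * u * B)) * (8 ^ E / E) := h5
    _ ≤ c / 2 * (8 ^ E / E) := mul_le_mul_of_nonneg_right h6 (by positivity)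


lemma aux_S' (Ci I s L : ℝ) (hI : 1 ≤ I) (h1 : s ≤ L + Ci) (h2 : L ≤ 39 * I) :
    1 + 2 * s ≤ (79 + 2 * |Ci|) * I := by
  have h5 : Ci ≤ |Ci| := le_abs_self _
  have h6 : |Ci| ≤ |Ci| * I := by nlinarith [abs_nonneg Ci]
  nlinarith

lemma choose_v (Λ v₀ E : ℕ) (hv₀ : 1 ≤ v₀) (hE : 2 * v₀ * 8 ^ (6 * 16 ^ (Λ * v₀)) ≤ E) :
    ∃ v : ℕ, v₀ ≤ v ∧ 2 * v * 8 ^ (6 * 16 ^ (Λ * v)) ≤ E ∧
      E < 2 * (v + 1) * 8 ^ (6 * 16 ^ (Λ * (v + 1))) := by
  classical
  set P : ℕ → Prop := fun v => 2 * v * 8 ^ (6 * 16 ^ (Λ * v)) ≤ E with hP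
  have hself : ∀ v : ℕ, 2 * v ≤ 2 * v * 8 ^ (6 * 16 ^ (Λ * v)) := fun v =>
    Nat.le_mul_of_pos_right _ (by positivity)
  have h0 : v₀ ≤ E := by have := hself v₀; omega
  have hspec : P (Nat.findGreatest P E) := Nat.findGreatest_spec (P := P) h0 hE
  have hge : v₀ ≤ Nat.findGreatest P E := Nat.le_findGreatest h0 hE
  refine ⟨Nat.findGreatest P E, hge, hspec, ?_⟩
  by_contra hcon
  push Not at hcon
  have h1 : Nat.findGreatest P E + 1 ≤ E := by
    have := hself (Nat.findGreatest P E)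
    have h2 : 2 * Nat.findGreatest P E ≤ E := this.trans hspec
    omega
  exact Nat.findGreatest_is_greatest (P := P) (Nat.lt_succ_self _) h1 hcon

theorem main_cover_all (C : ℕ) (hC : 1 ≤ C) :
    ∃ E₀ : ℕ, ∀ E : ℕ, E₀ ≤ E → DoubleCover (8 ^ E) (C * 8 ^ E) := by
  classical
  obtain ⟨C₁, hC₁⟩ := Base.base_log Helper923.HMertens.mertens_log
  obtain ⟨Ci, hCi⟩ := Base.base_inv Helper923.HMertens.mertens_ratio
  obtain ⟨C₂, hC₂pos, hC₂⟩ := Base.base_prod_upper Helper923.HMertens.mertens_ratio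
  obtain ⟨C₃, hC₃pos, hC₃⟩ := Base.base_prod_lower Helper923.HMertens.mertens_ratio
  obtain ⟨c₄, hc₄pos, hc₄⟩ := Base.base_prod_range Helper923.HMertens.mertens_ratio
  obtain ⟨c, hcpos, e₀, hc⟩ := Base.base_count
  obtain ⟨C₅, hC₅pos, hC₅⟩ := Base.base_pi
  obtain ⟨Cs, hCspos, hCs⟩ := Smooth.smooth_bound C₁ hC₁
  obtain ⟨Cg, hCgpos, hCg⟩ := G1.g1_bound C₁ C₂ hC₁ hC₂
  have hCr : (1 : ℝ) ≤ C := by exact_mod_cast hC
  have hCr0 : (0 : ℝ) < C := by linarith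
  have h8 := log8_bounds
  have h80 : 0 < Real.log 8 := by linarith [h8.1]
  set δ₀ : ℝ := c * Real.log 8 / (2 * Cg * C₃ * C) with hδ₀
  have hδ₀pos : 0 < δ₀ := by positivity
  set η : ℝ := δ₀ / 6 with hη
  have hηpos : 0 < η := by positivity
  obtain ⟨M, hM⟩ := exists_nat_gt (9 / δ₀)
  have hM0r : (0 : ℝ) < M := lt_trans (by positivity) hM
  have hM0 : 0 < M := by exact_mod_cast hM0r
  have hM3 : 4 * (3 / (4 * (M : ℝ))) ≤ δ₀ / 3 := by
    rw [div_lt_iff₀ hδ₀pos] at hM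
    rw [show 4 * (3 / (4 * (M : ℝ))) = 3 / M by field_simp, div_le_div_iff₀ hM0r (by norm_num)]
    linarith
  obtain ⟨D₁, hD₁⟩ := Nt1.nt1 Ap.ap_bound ⟨c, hcpos, e₀, hc⟩ ⟨Ci, hCi⟩ (η ^ 2 / 8) (by positivity)
  obtain ⟨D₂, hD₂⟩ := Nt2.nt2 ⟨Ci, hCi⟩
  set D : ℕ := D₁ + D₂ + 8 with hD
  have hDr : (1 : ℝ) ≤ D := by exact_mod_cast (by omega : 1 ≤ D)
  set C₉ : ℝ := Real.log (D * C ^ 4) + 8 * Real.log 8 with hC₉
  have hlogDC : 0 ≤ Real.log (D * C ^ 4) := by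
    apply Real.log_nonneg
    have : (1 : ℝ) ≤ C ^ 4 := one_le_pow₀ hCr
    nlinarith
  have hC₉pos : 0 < C₉ := by positivity
  have hlog4 : 0 < Real.log 4 := Real.log_pos (by norm_num)
  set κ : ℝ := (c * c₄ / M) * (Real.log 8 / (2 * C₉)) * Real.log 4 with hκ
  have hκpos : 0 < κ := by positivity
  obtain ⟨Λ', hΛ'⟩ := exists_nat_gt (-4 * Real.log (δ₀ / 3) / κ)
  set Λ : ℕ := Λ' + 1 with hΛ
  have hΛexp : Real.exp (-(κ * Λ) / 4) ≤ δ₀ / 3 := by
    refine aux_exp κ Λ' Λ δ₀ hκpos hδ₀pos hΛ' ?_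
    rw [hΛ]; push_cast; linarith
  set C₆ : ℝ := (79 + 2 * |Ci|) * 16 ^ Λ with hC₆
  have hC₆pos : 0 < C₆ := by positivity
  set C₈ : ℝ := 4 * C * C₃ * C₆ with hC₈
  have hC₈pos : 0 < C₈ := by positivity
  -- the growth constant
  obtain ⟨A5, hA5⟩ := exists_nat_gt (6 * C₈ * Cs / c)
  obtain ⟨A6, hA6⟩ := exists_nat_gt (6 * C₈ * C₅ * C / c)
  set A : ℕ := (6 + 3 * D) * (D * C ^ 2) + (D * C ^ 4 + 4) + (e₀ + 1) + (3 * C + 3) + A5 + A6 with hA
  -- choice of v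
  obtain ⟨v₁, hv₁⟩ := exists_nat_gt Cs
  obtain ⟨v₂, hv₂⟩ := exists_nat_gt (4 * 16 ^ Λ * Cs)
  obtain ⟨v₃, hv₃⟩ := exists_nat_gt (12 * C₈ / c)
  set v₀ : ℕ := v₁ + v₂ + v₃ + 64 * A + 1 with hv₀
  refine ⟨2 * v₀ * 8 ^ (6 * 16 ^ (Λ * v₀)), fun E hEE => ?_⟩
  obtain ⟨v, hv, hvE, hvE'⟩ := choose_v Λ v₀ E (by omega) hEE
  have hv0 : 0 < v := by omega
  have hvr : (0 : ℝ) < v := by exact_mod_cast hv0
  have hvCs : Cs ≤ v := by
    have : (v₁ : ℝ) ≤ v := by exact_mod_cast (by omega : v₁ ≤ v)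
    linarith
  have hv16 : 4 * 16 ^ Λ * Cs ≤ v := by
    have : (v₂ : ℝ) ≤ v := by exact_mod_cast (by omega : v₂ ≤ v)
    linarith
  have hv12 : 12 * C₈ / c ≤ v := by
    have : (v₃ : ℝ) ≤ v := by exact_mod_cast (by omega : v₃ ≤ v)
    linarith
  set u : ℕ := 2 * v with hu
  set I : ℕ := 16 ^ (Λ * v) with hI
  have hvI : 4 * v ≤ I := by
    have h1 : 4 * v < 2 ^ (4 * v) := Nat.lt_two_pow_self
    calc 4 * v ≤ 2 ^ (4 * v) := h1.le
      _ ≤ 2 ^ (4 * (Λ * v)) := by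
          apply Nat.pow_le_pow_right (by norm_num)
          have : v ≤ Λ * v := Nat.le_mul_of_pos_left v (by omega)
          omega
      _ = 16 ^ (Λ * v) := by rw [pow_mul]; norm_num
  have hI0 : 0 < I := by omega
  have hI64 : 64 * A ≤ I := by omega
  have hu2 : 2 ≤ u := by omega
  have hu0 : 0 < u := by omega
  set F : ℕ := E / u with hF
  have hFlow : 8 ^ (6 * I) ≤ F := by
    rw [hF, Nat.le_div_iff_mul_le hu0, mul_comm]
    exact hvE
  have hF0 : 0 < F := lt_of_lt_of_le (by positivity) hFlow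
  set J : ℕ := Nat.log 8 F / 6 with hJ
  have hlogF1 : 8 ^ Nat.log 8 F ≤ F := Nat.pow_log_le_self 8 (by omega)
  have hlogF2 : F < 8 ^ (Nat.log 8 F + 1) := Nat.lt_pow_succ_log_self (by norm_num) F
  have hIJ : I ≤ J := by
    have h1 : 6 * I ≤ Nat.log 8 F := Nat.le_log_of_pow_le (by norm_num) hFlow
    omega
  have hJF : 8 ^ (6 * J) ≤ F := le_trans (Nat.pow_le_pow_right (by norm_num) (by omega)) hlogF1
  have hFJ : F ≤ 8 ^ (6 * J + 6) :=
    le_trans hlogF2.le (Nat.pow_le_pow_right (by norm_num) (by omega))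
  have hJI : J ≤ 16 ^ Λ * I := by
    have h1 : 16 ^ Λ * I = 16 ^ (Λ * (v + 1)) := by
      rw [hI, ← pow_add]; congr 1; ring
    rw [h1]
    have h2 : F < 8 ^ (6 * 16 ^ (Λ * (v + 1)) + 1) := by
      rw [hF]
      apply Nat.div_lt_of_lt_mul
      refine lt_of_lt_of_le hvE' ?_
      rw [pow_succ, hu]
      have : 2 * (v + 1) ≤ 2 * v * 8 := by omega
      calc 2 * (v + 1) * 8 ^ (6 * 16 ^ (Λ * (v + 1))) ≤ (2 * v * 8) * 8 ^ (6 * 16 ^ (Λ * (v + 1))) :=
            Nat.mul_le_mul_right _ this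
        _ = _ := by ring
    have h3 : Nat.log 8 F < 6 * 16 ^ (Λ * (v + 1)) + 1 := Nat.log_lt_of_lt_pow (by omega) h2
    omega
  have hgrow : A * (J + 1) ^ 3 * 64 ^ (J + 1) ≤ F := (growth A J (hI64.trans hIJ)).trans hJF
  have huFE : u * F ≤ E := Nat.mul_div_le E u
  have hE2u : E ≤ 2 * (u * F) := by
    have h1 : u * F + E % u = E := Nat.div_add_mod E u
    have h2 : E % u < u := Nat.mod_lt _ hu0
    have h3 : u * 1 ≤ u * F := Nat.mul_le_mul_left u hF0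
    omega
  have hE2F : 2 * F ≤ E := (Nat.mul_le_mul_right F hu2).trans huFE
  have hE0 : 0 < E := by omega
  -- consequences of the growth bound
  have hI1 : 1 ≤ (J + 1) ^ 3 := Nat.one_le_pow _ _ (by omega)
  have h64 : 1 ≤ 64 ^ (J + 1) := Nat.one_le_pow _ _ (by norm_num)
  have hI3 : J + 1 ≤ (J + 1) ^ 3 := Nat.le_self_pow (by norm_num) _
  have g1 : (6 + 3 * D) * (D * C ^ 2) * ((J + 1) * 64 ^ (J + 1)) ≤ F := by
    refine le_trans ?_ hgrow
    calc (6 + 3 * D) * (D * C ^ 2) * ((J + 1) * 64 ^ (J + 1))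
        ≤ A * ((J + 1) ^ 3 * 64 ^ (J + 1)) := by
          apply Nat.mul_le_mul
          · omega
          · exact Nat.mul_le_mul_right _ hI3
      _ = A * (J + 1) ^ 3 * 64 ^ (J + 1) := by ring
  have hAI : A * (I + 1) ≤ F := by
    refine le_trans ?_ hgrow
    calc A * (I + 1) ≤ A * (J + 1) := Nat.mul_le_mul_left _ (by omega)
      _ = A * (J + 1) * 1 := by ring
      _ ≤ A * (J + 1) ^ 3 * 64 ^ (J + 1) := by gcongr
  have g2 : (D * C ^ 4 + 4) * (I + 1) ≤ F := by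
    refine le_trans ?_ hAI
    apply Nat.mul_le_mul_right
    omega
  have g3 : e₀ + 1 ≤ F := by
    refine le_trans ?_ hAI
    calc e₀ + 1 ≤ A := by omega
      _ ≤ A * (I + 1) := Nat.le_mul_of_pos_right _ (by omega)
  have g4 : (3 * C + 3) * (I + 1) ≤ F := by
    refine le_trans ?_ hAI
    apply Nat.mul_le_mul_right
    omega
  have g4' : C + I + 2 ≤ F := (aux_g4 C I F g4).1
  -- scales
  set ee : ℕ → ℕ := fun i => E - i - 1 with hee
  set K : ℕ → ℕ := fun i => C * 8 ^ (i + 1) with hK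
  set Q : ℕ → ℕ := fun i => D * (K i) ^ 4 with hQ
  set P : ℕ → Finset ℕ := fun i => pr (8 ^ (ee i)) (8 ^ (ee i + 1)) with hP
  have heeF : ∀ i ∈ Finset.Icc 1 I, F ≤ ee i := by
    intro i hi
    rw [mem_Icc] at hi
    simp only [hee]
    omega
  have heeE : ∀ i ∈ Finset.Icc 1 I, ee i + (i + 1) = E := by
    intro i hi
    rw [mem_Icc] at hi
    simp only [hee]
    omega
  have hK1 : ∀ i, 1 ≤ K i := fun i => Nat.mul_pos hC (by positivity)
  have hw2 : 2 ≤ 8 ^ F := by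
    calc 2 ≤ 8 ^ 1 := by norm_num
      _ ≤ 8 ^ F := Nat.pow_le_pow_right (by norm_num) hF0
  have hwlt : ∀ i ∈ Finset.Icc 1 I, 8 ^ F < 8 ^ (ee i) := by
    intro i hi
    apply Nat.pow_lt_pow_right (by norm_num)
    rw [mem_Icc] at hi
    simp only [hee]
    omega
  have hcc : ∀ i ∈ Finset.Icc 1 I,
      ((D : ℝ) * Real.log ((8 ^ F : ℕ) : ℝ)) ^ (D * (K i) ^ 2) ≤ (8 : ℝ) ^ (ee i) := by
    intro i hi
    exact cond_c' C D I J F i (ee i) (mem_Icc.1 hi).2 hIJ hFJ g1 (heeF i hi)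
  have hcount : ∀ i ∈ Finset.Icc 1 I,
      c * 8 ^ (ee i + 1) / ((ee i : ℝ) + 1) ≤ (#(P i) : ℝ) := by
    intro i hi
    exact hc (ee i) (by have := heeF i hi; omega)
  have hlogw : (0 : ℝ) ≤ Real.log ((8 ^ F : ℕ) : ℝ) := by rw [log_w]; positivity
  -- the core theorem
  have hz1 : 0 < 8 ^ (E - I - 1) := by positivity
  refine core (8 ^ F) (8 ^ (E - I - 1)) (8 ^ (E - 1)) (8 ^ E) (C * 8 ^ E) M
    (Nat.pow_le_pow_right (by norm_num) (by omega)) (Nat.pow_le_pow_right (by norm_num) (by omega))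
    (Nat.pow_le_pow_right (by norm_num) (by omega)) (Finset.Icc 1 I) Q K P hM0
    ⟨1, mem_Icc.2 ⟨le_rfl, hI0⟩⟩ ?_ ?_ ?_ ?_ η hηpos ?_ ?_ ?_
  · -- nonempty
    intro i hi
    rw [← card_pos]
    have h := hcount i hi
    have : (0 : ℝ) < (#(P i) : ℝ) := lt_of_lt_of_le (by positivity) h
    exact_mod_cast this
  · -- subset
    intro i hi p hp
    rw [mem_Icc] at hi
    simp only [hP, hee, mem_filter, mem_Ioc] at hp
    rw [mem_filter, mem_Ioc]
    refine ⟨⟨lt_of_le_of_lt (Nat.pow_le_pow_right (by norm_num) (by omega)) hp.1.1,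
      hp.1.2.trans (Nat.pow_le_pow_right (by norm_num) (by omega))⟩, hp.2⟩
  · -- disjoint
    intro i hi j hj hij
    rw [disjoint_left]
    intro p hpi hpj
    simp only [hP, mem_filter, mem_Ioc] at hpi hpj
    have h1 := heeE i hi
    have h2 := heeE j hj
    rcases lt_or_gt_of_ne (show ee i ≠ ee j by omega) with h | h
    · have : 8 ^ (ee i + 1) ≤ 8 ^ (ee j) := Nat.pow_le_pow_right (by norm_num) (by omega)
      omega
    · have : 8 ^ (ee j + 1) ≤ 8 ^ (ee i) := Nat.pow_le_pow_right (by norm_num) (by omega)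
      omega
  · -- good
    intro i hi p hp
    refine ⟨good_scale C D F (ee i) p (K i) (Q i) hC (by omega) i rfl rfl (heeF i hi) hp, ?_⟩
    rw [mem_filter, mem_Ioc] at hp
    exact y_div C E (ee i) i p (heeE i hi).symm hp.1.1
  · -- second moment
    intro i hi p hp
    have h := hD₁ D (by omega) (K i) (Q i) (8 ^ F) (ee i) (hK1 i) le_rfl hw2 (hwlt i hi) (hcc i hi) p hp
    have h2 := sec_weight (ee i) (η ^ 2 / 8) (by positivity) _
      (fun p' => cc_nonneg_prod (K i) (Q i) (8 ^ F) p p') h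
    refine h2.trans_eq ?_
    congr 1
    ring
  · -- third
    intro i hi p hp b₀ hb₀
    have hp' := hp
    rw [mem_filter, mem_Ioc] at hp'
    exact hD₂ D (by omega) (K i) (Q i) (8 ^ F) (ee i) p b₀ (hK1 i) le_rfl hw2 (hwlt i hi) (hcc i hi)
      hp'.2 hp'.1.1 hb₀
  · -- final inequality
    have hE1 : E - 1 + 1 = E := by omega
    have hcnt : c * (8 ^ E / E) ≤ (#(pr (8 ^ (E - 1)) (8 ^ E)) : ℝ) := by
      have h := hc (E - 1) (by omega)
      rw [hE1] at h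
      have h2 : ((E - 1 : ℕ) : ℝ) + 1 = E := by
        have : ((E - 1 + 1 : ℕ) : ℝ) = E := by rw [hE1]
        push_cast at this
        exact this
      rw [h2] at h
      calc c * (8 ^ E / E) = c * 8 ^ E / E := by ring
        _ ≤ _ := h
    have hPSle : PS (8 ^ F) ≤ C₃ / Real.log ((8 ^ F : ℕ) : ℝ) := hC₃ (8 ^ F) hw2
    have hPS0 := (PS_pos (8 ^ F)).le
    have hFr : (0 : ℝ) < F := by exact_mod_cast hF0
    have hEr : (0 : ℝ) < E := by exact_mod_cast hE0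
    have hur : (0 : ℝ) < u := by exact_mod_cast hu0
    have hIr : (1 : ℝ) ≤ I := by exact_mod_cast hI0
    have hEuF : (E : ℝ) ≤ 2 * (u * F) := by exact_mod_cast hE2u
    -- coverage
    have hQ2 : ∀ i, 2 ≤ Q i := by
      intro i
      have h1 : 1 ≤ (K i) ^ 4 := Nat.one_le_pow _ _ (hK1 i)
      have h2 : 8 * 1 ≤ D * (K i) ^ 4 := Nat.mul_le_mul (by omega) h1
      simp only [hQ]
      omega
    have hQle : ∀ i ∈ Finset.Icc 1 I, Q i ≤ 8 ^ F := by
      intro i hi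
      rw [mem_Icc] at hi
      have h1 : D * C ^ 4 ≤ 8 ^ (D * C ^ 4) := (Nat.lt_pow_self (by norm_num : 1 < 8)).le
      calc Q i = (D * C ^ 4) * 8 ^ (4 * (i + 1)) := by
            simp only [hQ, hK]
            rw [mul_pow, ← pow_mul]; ring
        _ ≤ 8 ^ (D * C ^ 4) * 8 ^ (4 * (i + 1)) := Nat.mul_le_mul_right _ h1
        _ = 8 ^ (D * C ^ 4 + 4 * (i + 1)) := by rw [pow_add]
        _ ≤ 8 ^ F := by
            apply Nat.pow_le_pow_right (by norm_num)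
            exact aux_g2 D C I i F hi.2 g2
    have hlogQ : ∀ i ∈ Finset.Icc 1 I, Real.log (Q i) ≤ C₉ * i := by
      intro i hi
      rw [mem_Icc] at hi
      have hir : (1 : ℝ) ≤ i := by exact_mod_cast hi.1
      have h1 : ((Q i : ℕ) : ℝ) = (D * C ^ 4) * 8 ^ (4 * (i + 1)) := by
        simp only [hQ, hK]
        push_cast
        rw [mul_pow, ← pow_mul]; ring
      have h2 : (0 : ℝ) < (D : ℝ) * C ^ 4 := by positivity
      rw [h1, Real.log_mul h2.ne' (by positivity), Real.log_pow]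
      push_cast
      rw [hC₉]
      exact aux_logQ _ _ _ hlogDC h80.le hir
    have hlogQ0 : ∀ i, 0 < Real.log (Q i) := fun i =>
      Real.log_pos (by exact_mod_cast (by have := hQ2 i; omega : 1 < Q i))
    have hmu : κ * Λ ≤ ∑ i ∈ Finset.Icc 1 I, mu (8 ^ F) (Q i) M (P i) := by
      have h1 : ∀ i ∈ Finset.Icc 1 I, (c * c₄ / M) * (Real.log 8 / (2 * (u * C₉))) * (1 / (i : ℝ)) ≤
          mu (8 ^ F) (Q i) M (P i) := by
        intro i hi
        have hi' := mem_Icc.1 hi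
        have hir : (1 : ℝ) ≤ i := by exact_mod_cast hi'.1
        refine le_trans ?_ (mu_lower (8 ^ F) (Q i) M (ee i) E c c₄ hcpos hc₄pos hM0 (hcount i hi)
          (hc₄ (Q i) (8 ^ F) (hQ2 i) (hQle i hi)) (by have := heeE i hi; omega) hlogw (hlogQ0 i))
        rw [mul_assoc]
        apply mul_le_mul_of_nonneg_left _ (by positivity)
        rw [log_w]
        calc Real.log 8 / (2 * (u * C₉)) * (1 / (i : ℝ)) = F * Real.log 8 / (2 * (u * F) * (C₉ * i)) := by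
              field_simp
          _ ≤ F * Real.log 8 / (E * Real.log (Q i)) := by
              apply div_le_div_of_nonneg_left (by positivity) (by have := hlogQ0 i; positivity)
              exact mul_le_mul hEuF (hlogQ i hi) (hlogQ0 i).le (by positivity)
      refine le_trans ?_ (sum_le_sum h1)
      rw [← mul_sum]
      have h2 := harm_lower I
      have h3 : Λ * (u * Real.log 4) ≤ Real.log (I + 1) := by
        have h4 : Real.log (I : ℝ) = Λ * (u * Real.log 4) := by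
          have h16 : Real.log 16 = 2 * Real.log 4 := by
            rw [show (16 : ℝ) = 4 ^ 2 by norm_num, Real.log_pow]; norm_num
          rw [hI]
          push_cast
          rw [Real.log_pow, h16, hu]
          push_cast
          ring
        rw [← h4]
        exact Real.log_le_log (by linarith) (by linarith)
      calc κ * Λ = (c * c₄ / M) * (Real.log 8 / (2 * (u * C₉))) * (Λ * (u * Real.log 4)) := by
            rw [hκ]; field_simp
        _ ≤ (c * c₄ / M) * (Real.log 8 / (2 * (u * C₉))) * ∑ i ∈ Finset.Icc 1 I, 1 / (i : ℝ) :=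
            mul_le_mul_of_nonneg_left (h3.trans h2) (by positivity)
    have hexp : Real.exp (-(∑ i ∈ Finset.Icc 1 I, mu (8 ^ F) (Q i) M (P i)) / 4) ≤ δ₀ / 3 := by
      refine le_trans ?_ hΛexp
      apply Real.exp_le_exp.2
      linarith
    -- first term
    have hT1 := T1_bound C E F c Cg C₃
      (Real.exp (-(∑ i ∈ Finset.Icc 1 I, mu (8 ^ F) (Q i) M (P i)) / 4) + 2 * η + 4 * (3 / (4 * M)))
      (#{n ∈ Finset.Icc 1 (C * 8 ^ E) | #{p ∈ pr (8 ^ F) (8 ^ (E - I - 1)) | p ∣ n} = 1} : ℝ)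
      (PS (8 ^ F)) hC hE0 hF0 hCgpos hC₃pos (Nat.cast_nonneg _) hPS0
      (by
        refine hCg (8 ^ F) (8 ^ (E - I - 1)) (C * 8 ^ E) hw2 ?_ ?_ ?_
        · calc 8 ^ F ≤ 8 ^ E := Nat.pow_le_pow_right (by norm_num) (by omega)
            _ ≤ C * 8 ^ E := Nat.le_mul_of_pos_left _ hC
        · calc C * 8 ^ E < 8 ^ C * 8 ^ E :=
                Nat.mul_lt_mul_of_pos_right (Nat.lt_pow_self (by norm_num : 1 < 8)) (by positivity)
            _ = 8 ^ (C + E) := by rw [pow_add]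
            _ ≤ 8 ^ (F + (E - I - 1)) := Nat.pow_le_pow_right (by norm_num) (by omega)
            _ = 8 ^ F * 8 ^ (E - I - 1) := by rw [pow_add]
        · have h1 : Real.log ((C * 8 ^ E : ℕ) : ℝ) ≤ ((C + 3 * E : ℕ) : ℝ) := by
            push_cast
            rw [Real.log_mul (by positivity) (by positivity), Real.log_pow]
            have h2 := Real.log_le_self hCr0.le
            have h3 := mul_le_mul_of_nonneg_left h8.2 hEr.le
            linarith
          have h2 : C + 3 * E ≤ 8 ^ F := by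
            have h3 : 2 * u ≤ I := by omega
            have h4 : E ≤ I * F := by
              calc E ≤ 2 * (u * F) := hE2u
                _ = (2 * u) * F := by ring
                _ ≤ I * F := Nat.mul_le_mul_right F h3
            exact aux_sq C I E F (aux_g4 C I F g4).2 h4
          exact h1.trans (by exact_mod_cast h2))
      hPSle (by positivity) (by rw [hη] at *; linarith)
    -- second term
    have hT0 := T0_bound' C E F u v I c Cs C₃ C₅ C₆
      (#{n ∈ Finset.Icc 1 (C * 8 ^ E) | #{p ∈ pr (8 ^ F) (8 ^ (E - I - 1)) | p ∣ n} = 0} : ℝ)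
      (1 + 2 * ∑ q ∈ pr 0 (8 ^ F), 1 / (q : ℝ)) (PS (8 ^ F)) hC hE2u (by omega) hu0 hF0 hI0 hC₃pos hC₆pos hCspos
      hC₅pos (Nat.cast_nonneg _) hPS0
      (by
        have h1 := G0_le (8 ^ F) (8 ^ (E - I - 1)) (C * 8 ^ E) hz1
        have h2 : C * 8 ^ E / 8 ^ (E - I - 1) = C * 8 ^ (I + 1) := by
          have : E = (E - I - 1) + (I + 1) := by omega
          conv_lhs => rw [this, pow_add, mul_left_comm]
          rw [show E - I - 1 + (I + 1) - I - 1 = E - I - 1 by omega]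
          exact Nat.mul_div_cancel_left _ (by positivity)
        rw [h2] at h1
        have h3 : (#{n ∈ Finset.Icc 1 (C * 8 ^ E) | #{p ∈ pr (8 ^ F) (8 ^ (E - I - 1)) | p ∣ n} = 0} : ℝ)
            ≤ (#(sm (8 ^ F) (C * 8 ^ E)) : ℝ) + (#(pr 0 (C * 8 ^ E)) : ℝ) * (C * 8 ^ (I + 1)) := by
          exact_mod_cast h1
        refine h3.trans (add_le_add ?_ ?_)
        · refine hCs v v (8 ^ F) (C * 8 ^ E) hvCs hw2 ?_
          calc (8 ^ F) ^ (v + v) = 8 ^ (u * F) := by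
                rw [← pow_mul, hu]; congr 1; ring
            _ ≤ 8 ^ E := Nat.pow_le_pow_right (by norm_num) huFE
            _ ≤ C * 8 ^ E := Nat.le_mul_of_pos_left _ hC
        · refine mul_le_mul_of_nonneg_right (hC₅ (C * 8 ^ E) ?_) (by positivity)
          calc 2 ≤ 8 ^ 1 := by norm_num
            _ ≤ 8 ^ E := Nat.pow_le_pow_right (by norm_num) hE0
            _ ≤ C * 8 ^ E := Nat.le_mul_of_pos_left _ hC)
      hPSle
      (by
        have h1 := hCi (8 ^ F) hw2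
        have hJr : (1 : ℝ) ≤ J := by exact_mod_cast (by omega : 1 ≤ J)
        have h2 : Real.log (Real.log ((8 ^ F : ℕ) : ℝ)) ≤ 39 * J := by
          have h3 : Real.log ((8 ^ F : ℕ) : ℝ) ≤ 8 ^ (6 * J + 7) := by
            rw [log_w]
            have hF' : (F : ℝ) ≤ 8 ^ (6 * J + 6) := by exact_mod_cast hFJ
            rw [pow_succ]
            exact mul_le_mul hF' (by linarith [h8.2]) h80.le (by positivity)
          have h4 : 0 < Real.log ((8 ^ F : ℕ) : ℝ) := by rw [log_w]; positivity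
          refine (Real.log_le_log h4 h3).trans ?_
          rw [Real.log_pow]
          push_cast
          nlinarith [h8.2, h80]
        have h5 := aux_S' Ci J _ _ hJr h1 h2
        have h6 : (J : ℝ) ≤ 16 ^ Λ * I := by exact_mod_cast hJI
        rw [hC₆]
        calc _ ≤ (79 + 2 * |Ci|) * (J : ℝ) := h5
          _ ≤ (79 + 2 * |Ci|) * (16 ^ Λ * I) := mul_le_mul_of_nonneg_left h6 (by positivity)
          _ = _ := by ring)
      (by
        have : (0 : ℝ) ≤ ∑ q ∈ pr 0 (8 ^ F), 1 / (q : ℝ) := sum_nonneg fun q _ => by positivity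
        linarith)
      (by
        have h1 : (I : ℝ) * (Cs / v) ^ v ≤ (1 / 4) ^ v := by
          have h2 : (I : ℝ) = (16 ^ Λ) ^ v := by
            rw [hI]; push_cast; rw [← pow_mul]
          rw [h2, ← mul_pow]
          apply pow_le_pow_left₀ (by positivity)
          rw [← mul_div_assoc, div_le_div_iff₀ hvr (by norm_num)]
          linarith
        have hu' : (u : ℝ) = 2 * v := by rw [hu]; push_cast; ring
        have e1 : 4 * C * C₃ * C₆ * (I * u * (Cs / v) ^ v) = C₈ * (2 * v * (I * (Cs / v) ^ v)) := by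
          rw [hC₈, hu']; ring
        rw [e1]
        exact aux_k1 v C₈ c hv0 hcpos hC₈pos hv12 _ h1)
      (by
        have h1 : A5 * I ^ 3 ≤ F := by
          refine le_trans ?_ hgrow
          calc A5 * I ^ 3 = A5 * I ^ 3 * 1 := by ring
            _ ≤ A * (J + 1) ^ 3 * 64 ^ (J + 1) := by
                apply Nat.mul_le_mul _ h64
                apply Nat.mul_le_mul (by omega)
                exact Nat.pow_le_pow_left (by omega) 3
        have h2 : (A5 : ℝ) * I ^ 3 ≤ F := by exact_mod_cast h1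
        have hu' : (u : ℝ) ≤ I := by exact_mod_cast (by omega : u ≤ I)
        have hv' : (v : ℝ) ≤ I := by exact_mod_cast (by omega : v ≤ I)
        have h3 : 6 * C₈ * Cs ≤ c * A5 := by
          rw [div_lt_iff₀ hcpos] at hA5; linarith
        calc 4 * C * C₃ * C₆ * (I * u * (Cs * v / F)) = C₈ * Cs * (I * u * v) / F := by
              rw [hC₈]; ring
          _ ≤ C₈ * Cs * (I * I * I) / F := by gcongr
          _ = C₈ * Cs * I ^ 3 / F := by ring
          _ ≤ c / 6 := aux_k2 c F A5 (I ^ 3) (C₈ * Cs) hcpos hFr (by positivity)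
              (by linarith) h2)
      (by
        have h1 : A6 * (I ^ 2 * 8 ^ (I + 1)) ≤ F := by
          refine le_trans ?_ hgrow
          rw [← mul_assoc]
          apply Nat.mul_le_mul
          · apply Nat.mul_le_mul (by omega)
            calc I ^ 2 ≤ (J + 1) ^ 2 := Nat.pow_le_pow_left (by omega) 2
              _ ≤ (J + 1) ^ 3 := Nat.pow_le_pow_right (by omega) (by norm_num)
          · calc 8 ^ (I + 1) ≤ 8 ^ (J + 1) := Nat.pow_le_pow_right (by norm_num) (by omega)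
              _ ≤ 64 ^ (J + 1) := Nat.pow_le_pow_left (by norm_num) _
        have h2 : (A6 : ℝ) * (I ^ 2 * 8 ^ (I + 1)) ≤ F := by exact_mod_cast h1
        have hu' : (u : ℝ) ≤ I := by exact_mod_cast (by omega : u ≤ I)
        have h3 : 6 * C₈ * C₅ * C ≤ c * A6 := by
          rw [div_lt_iff₀ hcpos] at hA6; linarith
        calc 4 * C * C₃ * C₆ * (I * u * (C₅ * (C * 8 ^ (I + 1)) / F)) =
              C₈ * C₅ * C * (I * u * 8 ^ (I + 1)) / F := by
              rw [hC₈]; ring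
          _ ≤ C₈ * C₅ * C * (I * I * 8 ^ (I + 1)) / F := by gcongr
          _ = C₈ * C₅ * C * (I ^ 2 * 8 ^ (I + 1)) / F := by ring
          _ ≤ c / 6 := aux_k2 c F A6 (I ^ 2 * 8 ^ (I + 1)) (C₈ * C₅ * C) hcpos hFr (by positivity)
              (by linarith) h2)
    have : c * (8 ^ E / E) = c / 2 * (8 ^ E / E) + c / 2 * (8 ^ E / (E : ℝ)) := by ring
    linarith

end Pool.Agent.P2Gap
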