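import Pool.Agent.P2Gap.Defs

set_option autoImplicit false

namespace Pool.Agent.P2Gap.G1

open Finset


/-- reciprocals -/
noncomputable def g1_inv : ℕ →* ℝ where
  toFun n := 1 / (n : ℝ)
  map_one' := by simp
  map_mul' a b := by
    push_cast
    rw [one_div_mul_one_div]

theorem g1_smooth (w : ℕ) (M : Finset ℕ) (hM : ∀ m ∈ M, m ∈ Nat.smoothNumbers (w + 1)) :
    ∑ m ∈ M, (1 / (m : ℝ)) ≤ ∏ p ∈ pr 0 w, (1 - 1 / (p : ℝ))⁻¹ := by
  classical
  have h1 := (EulerProduct.summable_and_hasSum_smoothNumbers_prod_primesBelow_geometric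
    (f := g1_inv) (by
      intro p hp
      change ‖1 / (p : ℝ)‖ < 1
      rw [Real.norm_eq_abs, abs_of_nonneg (by positivity)]
      rw [div_lt_one (by exact_mod_cast hp.pos)]
      exact_mod_cast hp.one_lt) (w + 1)).2
  have h2 : ∏ p ∈ (w + 1).primesBelow, (1 - g1_inv p)⁻¹ = ∏ p ∈ pr 0 w, (1 - 1 / (p : ℝ))⁻¹ := by
    have : (w + 1).primesBelow = pr 0 w := by
      ext p
      simp only [Nat.mem_primesBelow, pr, mem_filter, mem_Ioc]
      constructor
      · rintro ⟨a, b⟩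
        exact ⟨⟨b.pos, by omega⟩, b⟩
      · rintro ⟨a, b⟩
        exact ⟨by omega, b⟩
    rw [this]
    rfl
  rw [h2] at h1
  have h3 := sum_le_hasSum (M.subtype (· ∈ Nat.smoothNumbers (w + 1)))
    (fun i _ => by
      change 0 ≤ 1 / ((i : ℕ) : ℝ)
      positivity) h1
  have h4 : ∑ i ∈ M.subtype (· ∈ Nat.smoothNumbers (w + 1)), g1_inv (i : ℕ) =
      ∑ m ∈ M, (1 / (m : ℝ)) := by
    exact Finset.sum_subtype_of_mem (fun m : ℕ => (1 / (m : ℝ))) hM
  rw [h4] at h3
  exact h3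

theorem g1_fact (y q : ℕ) : ∑ n ∈ Finset.Icc 1 y, n.factorization q = (y.factorial).factorization q := by
  induction y with
  | zero => simp
  | succ y ih =>
    rw [Finset.sum_Icc_succ_top (by omega), ih, Nat.factorial_succ,
      Nat.factorization_mul (by omega) (Nat.factorial_ne_zero y)]
    rw [Finsupp.add_apply, add_comm]

theorem g1_val (y q : ℕ) (hq : q.Prime) :
    ∑ n ∈ Finset.Icc 1 y, (n.factorization q : ℝ) ≤ 2 * y / q := by
  have h1 : ∑ n ∈ Finset.Icc 1 y, (n.factorization q : ℝ) = ((y.factorial).factorization q : ℝ) := by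
    rw [← g1_fact]; push_cast; rfl
  rw [h1]
  haveI : Fact q.Prime := ⟨hq⟩
  have h2 := sub_one_mul_padicValNat_factorial (p := q) y
  rw [Nat.factorization_def _ hq]
  have h3 : (q - 1) * padicValNat q y.factorial ≤ y := by rw [h2]; exact Nat.sub_le _ _
  have hq2 := hq.two_le
  have h4 : q * padicValNat q y.factorial ≤ 2 * y := by
    have : q ≤ 2 * (q - 1) := by omega
    calc q * padicValNat q y.factorial ≤ 2 * (q - 1) * padicValNat q y.factorial :=
          Nat.mul_le_mul_right _ this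
      _ = 2 * ((q - 1) * padicValNat q y.factorial) := by ring
      _ ≤ 2 * y := Nat.mul_le_mul_left _ h3
  have hq0 : (0 : ℝ) < q := by exact_mod_cast hq.pos
  rw [le_div_iff₀ hq0]
  have h5 : ((q * padicValNat q y.factorial : ℕ) : ℝ) ≤ ((2 * y : ℕ) : ℝ) := by exact_mod_cast h4
  push_cast at h5
  linarith

/-- smooth part -/
noncomputable def g1_M (w y : ℕ) : Finset ℕ := by
  classical
  exact (Finset.Icc 1 y).filter (fun m => m ∈ Nat.smoothNumbers (w + 1))

/-- pairs -/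
noncomputable def g1_T (w y : ℕ) : Finset (ℕ × ℕ) := by
  classical
  exact (g1_M w y ×ˢ pr 0 y).filter (fun t => t.1 * t.2 ≤ y)

theorem g1_mem_M {w y m : ℕ} : m ∈ g1_M w y ↔ (1 ≤ m ∧ m ≤ y) ∧ m ∈ Nat.smoothNumbers (w + 1) := by
  unfold g1_M
  rw [mem_filter, mem_Icc]

theorem g1_mem_T {w y : ℕ} {t : ℕ × ℕ} : t ∈ g1_T w y ↔
    (t.1 ∈ g1_M w y ∧ t.2 ∈ pr 0 y) ∧ t.1 * t.2 ≤ y := by
  unfold g1_T
  rw [mem_filter, mem_product]

theorem g1_S1 (w y : ℕ) :
    ∑ n ∈ Finset.Icc 1 y, ∑ t ∈ (g1_T w y).filter (fun t => t.1 * t.2 = n), Real.log t.2 ≤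
      Real.log 4 * y * ∏ p ∈ pr 0 w, (1 - 1 / (p : ℝ))⁻¹ := by
  classical
  rw [Finset.sum_fiberwise_of_maps_to]
  swap
  · intro t ht
    rw [g1_mem_T] at ht
    obtain ⟨⟨h1, h2⟩, h3⟩ := ht
    rw [g1_mem_M] at h1
    simp only [pr, mem_filter, mem_Ioc] at h2
    rw [mem_Icc]
    exact ⟨Nat.mul_pos (by omega) (by omega), h3⟩
  have e1 : ∑ t ∈ g1_T w y, Real.log t.2 =
      ∑ m ∈ g1_M w y, ∑ p ∈ (pr 0 y).filter (fun p => m * p ≤ y), Real.log p := by
    have : g1_T w y = (g1_M w y).biUnion (fun m =>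
        ((pr 0 y).filter (fun p => m * p ≤ y)).image (fun p => (m, p))) := by
      ext ⟨a, b⟩
      rw [g1_mem_T]
      simp only [mem_biUnion, mem_image, mem_filter, Prod.mk.injEq]
      constructor
      · rintro ⟨⟨h1, h2⟩, h3⟩
        exact ⟨a, h1, b, ⟨by simpa [pr] using h2, h3⟩, rfl, rfl⟩
      · rintro ⟨m, h1, p, ⟨h2, h3⟩, rfl, rfl⟩
        exact ⟨⟨h1, by simpa [pr] using h2⟩, h3⟩
    rw [this, Finset.sum_biUnion]
    · refine Finset.sum_congr rfl fun m _ => ?_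
      rw [Finset.sum_image]
      intro a _ b _ hab
      exact (Prod.mk.inj hab).2
    · intro a _ b _ hab
      rw [Function.onFun, Finset.disjoint_left]
      rintro ⟨u, v⟩ h1 h2
      simp only [mem_image, mem_filter, Prod.mk.injEq] at h1 h2
      obtain ⟨_, _, h3, _⟩ := h1
      obtain ⟨_, _, h4, _⟩ := h2
      exact hab (h3.trans h4.symm)
  rw [e1]
  have e2 : ∀ m ∈ g1_M w y, ∑ p ∈ (pr 0 y).filter (fun p => m * p ≤ y), Real.log p ≤
      Real.log 4 * y * (1 / m) := by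
    intro m hm
    rw [g1_mem_M] at hm
    have hm0 : (0 : ℝ) < m := by exact_mod_cast hm.1.1
    have h1 := Chebyshev.theta_le_log4_mul_x (x := (y : ℝ) / m) (by positivity)
    unfold Chebyshev.theta at h1
    have h2 : ∑ p ∈ (pr 0 y).filter (fun p => m * p ≤ y), Real.log p ≤
        ∑ p ∈ Ioc 0 ⌊(y : ℝ) / m⌋₊ with p.Prime, Real.log p := by
      apply Finset.sum_le_sum_of_subset_of_nonneg
      · intro p hp
        simp only [pr, mem_filter, mem_Ioc] at hp ⊢
        refine ⟨⟨hp.1.1.1, ?_⟩, hp.1.2⟩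
        apply Nat.le_floor
        rw [le_div_iff₀ hm0]
        have := hp.2
        rw [mul_comm] at this
        exact_mod_cast this
      · intro p hp _
        simp only [mem_filter, mem_Ioc] at hp
        exact Real.log_nonneg (by exact_mod_cast hp.2.one_lt.le)
    calc _ ≤ _ := h2
      _ ≤ Real.log 4 * (y / m) := h1
      _ = _ := by ring
  calc _ ≤ ∑ m ∈ g1_M w y, Real.log 4 * y * (1 / m) := Finset.sum_le_sum e2
    _ = Real.log 4 * y * ∑ m ∈ g1_M w y, (1 / (m : ℝ)) := by rw [Finset.mul_sum]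
    _ ≤ _ := by
      apply mul_le_mul_of_nonneg_left
      · apply g1_smooth
        intro m hm
        exact (g1_mem_M.1 hm).2
      · have : 0 ≤ Real.log 4 := Real.log_nonneg (by norm_num)
        positivity

theorem g1_S2 (w y : ℕ) :
    ∑ n ∈ Finset.Icc 1 y, ∑ q ∈ pr 0 w, (n.factorization q : ℝ) * Real.log q ≤
      2 * y * ∑ q ∈ pr 0 w, Real.log q / q := by
  rw [Finset.sum_comm, Finset.mul_sum]
  apply Finset.sum_le_sum
  intro q hq
  simp only [pr, mem_filter, mem_Ioc] at hq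
  rw [← Finset.sum_mul]
  have h1 := g1_val y q hq.2
  have h2 : 0 ≤ Real.log q := Real.log_nonneg (by exact_mod_cast hq.2.one_lt.le)
  calc _ ≤ 2 * y / q * Real.log q := mul_le_mul_of_nonneg_right h1 h2
    _ = _ := by ring

theorem g1_logn {w z₁ y n : ℕ} (hyz : y < w * z₁) (hw : 1 ≤ w) (hn1 : 1 ≤ n) (hny : n ≤ y)
    (hcard : #{p ∈ pr w z₁ | p ∣ n} = 1) (hsq : ¬ ∃ p ∈ Finset.Ioc w y, p ^ 2 ∣ n) :
    Real.log n ≤ (∑ t ∈ (g1_T w y).filter (fun t => t.1 * t.2 = n), Real.log t.2) +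
      ∑ q ∈ pr 0 w, (n.factorization q : ℝ) * Real.log q := by
  classical
  rw [Finset.card_eq_one] at hcard
  obtain ⟨p, hp⟩ := hcard
  have hpm : p ∈ ({p ∈ pr w z₁ | p ∣ n} : Finset ℕ) := by rw [hp]; exact mem_singleton_self p
  have huniq : ∀ q, q ∈ pr w z₁ → q ∣ n → q = p := by
    intro q hq hqn
    have : q ∈ ({p ∈ pr w z₁ | p ∣ n} : Finset ℕ) := mem_filter.2 ⟨hq, hqn⟩
    rw [hp, mem_singleton] at this
    exact this
  simp only [pr, mem_filter, mem_Ioc] at hpm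
  obtain ⟨⟨⟨hp1, hp2⟩, hpp⟩, hpn⟩ := hpm
  obtain ⟨m, rfl⟩ := hpn
  have hm0 : 0 < m := Nat.pos_of_ne_zero (by rintro rfl; simp at hn1)
  have hpy : p ≤ y := (Nat.le_mul_of_pos_right p hm0).trans hny
  have hmy : m ≤ y := (Nat.le_mul_of_pos_left m hpp.pos).trans hny
  have hpm' : ¬ p ∣ m := by
    intro hd
    apply hsq
    refine ⟨p, mem_Ioc.2 ⟨hp1, hpy⟩, ?_⟩
    rw [sq]
    exact mul_dvd_mul_left p hd
  have hmz : m < z₁ := by
    by_contra hcon
    push Not at hcon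
    have : w * z₁ ≤ p * m := Nat.mul_le_mul hp1.le hcon
    omega
  have hsm : ∀ q, q.Prime → q ∣ m → q ≤ w := by
    intro q hq hqm
    by_contra hcon
    push Not at hcon
    have hq1 : q ≤ m := Nat.le_of_dvd hm0 hqm
    have := huniq q (by simp only [pr, mem_filter, mem_Ioc]; exact ⟨⟨hcon, by omega⟩, hq⟩)
      (hqm.mul_left p)
    rw [this] at hqm
    exact hpm' hqm
  have hmS : m ∈ Nat.smoothNumbers (w + 1) := by
    rw [Nat.mem_smoothNumbers']
    intro q hq hqm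
    have := hsm q hq hqm
    omega
  have hT : (m, p) ∈ (g1_T w y).filter (fun t => t.1 * t.2 = p * m) := by
    rw [mem_filter, g1_mem_T]
    refine ⟨⟨⟨g1_mem_M.2 ⟨⟨hm0, hmy⟩, hmS⟩, ?_⟩, ?_⟩, ?_⟩
    · simp only [pr, mem_filter, mem_Ioc]
      exact ⟨⟨hpp.pos, hpy⟩, hpp⟩
    · change m * p ≤ y
      rw [mul_comm]; exact hny
    · exact mul_comm m p
  have hG1 : Real.log p ≤ ∑ t ∈ (g1_T w y).filter (fun t => t.1 * t.2 = p * m), Real.log t.2 := by
    refine Finset.single_le_sum (f := fun t : ℕ × ℕ => Real.log t.2) ?_ hT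
    intro t ht
    rw [mem_filter, g1_mem_T] at ht
    have h2 := ht.1.1.2
    simp only [pr, mem_filter, mem_Ioc] at h2
    exact Real.log_nonneg (by exact_mod_cast h2.2.one_lt.le)
  have hG2 : Real.log m ≤ ∑ q ∈ pr 0 w, ((p * m).factorization q : ℝ) * Real.log q := by
    rw [Real.log_nat_eq_sum_factorization, Finsupp.sum]
    have hsub : m.factorization.support ⊆ pr 0 w := by
      intro q hq
      rw [Nat.support_factorization, Nat.mem_primeFactors] at hq
      simp only [pr, mem_filter, mem_Ioc]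
      exact ⟨⟨hq.1.pos, hsm q hq.1 hq.2.1⟩, hq.1⟩
    refine (Finset.sum_le_sum_of_subset_of_nonneg hsub ?_).trans (Finset.sum_le_sum ?_)
    · intro q hq _
      simp only [pr, mem_filter, mem_Ioc] at hq
      have : 0 ≤ Real.log q := Real.log_nonneg (by exact_mod_cast hq.2.one_lt.le)
      positivity
    · intro q hq
      simp only [pr, mem_filter, mem_Ioc] at hq
      have h1 : 0 ≤ Real.log q := Real.log_nonneg (by exact_mod_cast hq.2.one_lt.le)
      apply mul_le_mul_of_nonneg_right _ h1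
      rw [Nat.factorization_mul hpp.ne_zero hm0.ne', Finsupp.add_apply]
      push_cast
      have : (0 : ℝ) ≤ (p.factorization q : ℝ) := by positivity
      linarith
  have hlog : Real.log ((p * m : ℕ) : ℝ) = Real.log p + Real.log m := by
    push_cast
    rw [Real.log_mul (by exact_mod_cast hpp.ne_zero) (by exact_mod_cast hm0.ne')]
  rw [hlog]
  linarith

theorem g1_B (w y : ℕ) (hw : 1 ≤ w) (hwy : w ≤ y) :
    (#{n ∈ Finset.Icc 1 y | ∃ p ∈ Finset.Ioc w y, p ^ 2 ∣ n} : ℝ) ≤ y / w := by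
  classical
  have h1 : ({n ∈ Finset.Icc 1 y | ∃ p ∈ Finset.Ioc w y, p ^ 2 ∣ n} : Finset ℕ) ⊆
      (Finset.Ioc w y).biUnion (fun p => {n ∈ Finset.Ioc 0 y | p ^ 2 ∣ n}) := by
    intro n hn
    simp only [mem_filter, mem_Icc, mem_Ioc, mem_biUnion] at hn ⊢
    obtain ⟨⟨a, b⟩, p, hp, hd⟩ := hn
    exact ⟨p, hp, ⟨by omega, b⟩, hd⟩
  have h2 := (Finset.card_le_card h1).trans Finset.card_biUnion_le
  simp only [Nat.Ioc_filter_dvd_card_eq_div] at h2
  have hw0 : (0 : ℝ) < w := by exact_mod_cast hw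
  calc (#{n ∈ Finset.Icc 1 y | ∃ p ∈ Finset.Ioc w y, p ^ 2 ∣ n} : ℝ) ≤
        ((∑ p ∈ Finset.Ioc w y, y / p ^ 2 : ℕ) : ℝ) := by exact_mod_cast h2
    _ ≤ ∑ p ∈ Finset.Ioc w y, (y : ℝ) * ((p : ℝ) ^ 2)⁻¹ := by
        push_cast
        apply Finset.sum_le_sum
        intro p _
        have := @Nat.cast_div_le ℝ _ _ _ y (p ^ 2)
        push_cast at this
        rw [← div_eq_mul_inv]
        exact this
    _ = y * ∑ p ∈ Finset.Ioc w y, ((p : ℝ) ^ 2)⁻¹ := by rw [Finset.mul_sum]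
    _ ≤ y * ((w : ℝ)⁻¹ - (y : ℝ)⁻¹) := by
        apply mul_le_mul_of_nonneg_left _ (by positivity)
        exact sum_Ioc_inv_sq_le_sub (by omega) hwy
    _ ≤ y / w := by
        rw [div_eq_mul_inv]
        apply mul_le_mul_of_nonneg_left _ (by positivity)
        have : (0 : ℝ) ≤ (y : ℝ)⁻¹ := by positivity
        linarith

theorem g1_bound (C₁ C₂ : ℝ)
    (h : ∀ N : ℕ, 1 ≤ N → ∑ p ∈ pr 0 N, Real.log p / p ≤ Real.log N + C₁)
    (h2 : ∀ w : ℕ, 2 ≤ w → ∏ p ∈ pr 0 w, (1 - 1 / (p : ℝ))⁻¹ ≤ C₂ * Real.log w) :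
    ∃ C : ℝ, 0 < C ∧ ∀ w z₁ y : ℕ, 2 ≤ w → w ≤ y → y < w * z₁ → Real.log y ≤ w →
      (#{n ∈ Finset.Icc 1 y | #{p ∈ pr w z₁ | p ∣ n} = 1} : ℝ) ≤
        C * y * Real.log w / Real.log y := by
  classical
  have hl2 : 0 < Real.log 2 := Real.log_pos (by norm_num)
  have hl4 : 0 ≤ Real.log 4 := Real.log_nonneg (by norm_num)
  refine ⟨2 * (Real.log 4 * |C₂| + 2 + 2 * (|C₁| / Real.log 2)) + 1 / Real.log 2 + 2 / Real.log 2,
    by positivity, ?_⟩
  intro w z₁ y hw hwy hyz hlog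
  set L := Real.log y with hL
  have hy2 : (2 : ℝ) ≤ y := by exact_mod_cast hw.trans hwy
  have hL0 : 0 < L := Real.log_pos (by linarith)
  have hw2 : (2 : ℝ) ≤ w := by exact_mod_cast hw
  have hlw : Real.log 2 ≤ Real.log w := Real.log_le_log (by norm_num) hw2
  have hlw0 : 0 < Real.log w := hl2.trans_le hlw
  have hy0 : (0 : ℝ) < y := by linarith
  set A : Finset ℕ := {n ∈ Finset.Icc 1 y | #{p ∈ pr w z₁ | p ∣ n} = 1} with hA
  set A' : Finset ℕ := {n ∈ Finset.Icc 1 y | #{p ∈ pr w z₁ | p ∣ n} = 1 ∧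
    (¬ ∃ p ∈ Finset.Ioc w y, p ^ 2 ∣ n) ∧ y < n ^ 2} with hA'
  set B : Finset ℕ := {n ∈ Finset.Icc 1 y | ∃ p ∈ Finset.Ioc w y, p ^ 2 ∣ n} with hB
  have hsub : A ⊆ A' ∪ B ∪ Finset.Icc 1 (Nat.sqrt y) := by
    intro n hn
    simp only [hA, mem_filter, mem_Icc] at hn
    obtain ⟨⟨hn1, hn2⟩, hn3⟩ := hn
    by_cases hb : ∃ p ∈ Finset.Ioc w y, p ^ 2 ∣ n
    · apply mem_union_left
      apply mem_union_right
      simp only [hB, mem_filter, mem_Icc]
      exact ⟨⟨hn1, hn2⟩, hb⟩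
    · by_cases hc : y < n ^ 2
      · apply mem_union_left
        apply mem_union_left
        simp only [hA', mem_filter, mem_Icc]
        exact ⟨⟨hn1, hn2⟩, hn3, hb, hc⟩
      · apply mem_union_right
        rw [mem_Icc]
        exact ⟨hn1, Nat.le_sqrt'.2 (not_lt.1 hc)⟩
  have hcard : (#A : ℝ) ≤ #A' + #B + Nat.sqrt y := by
    have h1 := Finset.card_le_card hsub
    have h2 := Finset.card_union_le (A' ∪ B) (Finset.Icc 1 (Nat.sqrt y))
    have h3 := Finset.card_union_le A' B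
    have h4 : #(Finset.Icc 1 (Nat.sqrt y)) = Nat.sqrt y := by simp
    have h5 : #A ≤ #A' + #B + Nat.sqrt y := by omega
    exact_mod_cast h5
  -- part (a)
  have hAlog : (#A' : ℝ) * (L / 2) ≤ Real.log 4 * y * (C₂ * Real.log w) +
      2 * y * (Real.log w + C₁) := by
    have e1 : ∀ n ∈ A', L / 2 ≤
        (∑ t ∈ (g1_T w y).filter (fun t => t.1 * t.2 = n), Real.log t.2) +
        ∑ q ∈ pr 0 w, (n.factorization q : ℝ) * Real.log q := by
      intro n hn
      simp only [hA', mem_filter, mem_Icc] at hn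
      obtain ⟨⟨hn1, hn2⟩, hn3, hn4, hn5⟩ := hn
      refine le_trans ?_ (g1_logn hyz (by omega) hn1 hn2 hn3 hn4)
      have h5 : (y : ℝ) ≤ (n : ℝ) ^ 2 := by exact_mod_cast hn5.le
      have h6 := Real.log_le_log hy0 h5
      rw [Real.log_pow] at h6
      push_cast at h6
      linarith
    have hnn1 : ∀ n, 0 ≤ ∑ t ∈ (g1_T w y).filter (fun t => t.1 * t.2 = n), Real.log t.2 := by
      intro n
      apply Finset.sum_nonneg
      intro t ht
      rw [mem_filter, g1_mem_T] at ht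
      have h2 := ht.1.1.2
      simp only [pr, mem_filter, mem_Ioc] at h2
      exact Real.log_nonneg (by exact_mod_cast h2.2.one_lt.le)
    have hnn2 : ∀ n : ℕ, 0 ≤ ∑ q ∈ pr 0 w, (n.factorization q : ℝ) * Real.log q := by
      intro n
      apply Finset.sum_nonneg
      intro q hq
      simp only [pr, mem_filter, mem_Ioc] at hq
      have : 0 ≤ Real.log q := Real.log_nonneg (by exact_mod_cast hq.2.one_lt.le)
      positivity
    calc (#A' : ℝ) * (L / 2) = ∑ n ∈ A', L / 2 := by rw [Finset.sum_const, nsmul_eq_mul]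
      _ ≤ ∑ n ∈ A', ((∑ t ∈ (g1_T w y).filter (fun t => t.1 * t.2 = n), Real.log t.2) +
        ∑ q ∈ pr 0 w, (n.factorization q : ℝ) * Real.log q) := Finset.sum_le_sum e1
      _ ≤ ∑ n ∈ Finset.Icc 1 y, ((∑ t ∈ (g1_T w y).filter (fun t => t.1 * t.2 = n), Real.log t.2) +
        ∑ q ∈ pr 0 w, (n.factorization q : ℝ) * Real.log q) := by
          apply Finset.sum_le_sum_of_subset_of_nonneg (Finset.filter_subset _ _)
          intro n _ _
          exact add_nonneg (hnn1 n) (hnn2 n)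
      _ ≤ Real.log 4 * y * (∏ p ∈ pr 0 w, (1 - 1 / (p : ℝ))⁻¹) +
          2 * y * ∑ q ∈ pr 0 w, Real.log q / q := by
          rw [Finset.sum_add_distrib]
          exact add_le_add (g1_S1 w y) (g1_S2 w y)
      _ ≤ _ := by
          apply add_le_add
          · exact mul_le_mul_of_nonneg_left (h2 w hw) (by positivity)
          · exact mul_le_mul_of_nonneg_left (h w (by omega)) (by positivity)
  have hBc : (#B : ℝ) ≤ y / w := g1_B w y (by omega) hwy
  have hyw : (y : ℝ) / w ≤ y / L := div_le_div_of_nonneg_left hy0.le hL0 hlog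
  have hsq : (Nat.sqrt y : ℝ) ≤ 2 * y / L := by
    have h1 : (Nat.sqrt y : ℝ) ≤ √y := Real.nat_sqrt_le_real_sqrt
    have hs0 : 0 < √(y : ℝ) := Real.sqrt_pos.2 hy0
    have h3 : L ≤ 2 * √y := by
      have h4 : Real.log (√y) ≤ √y := (Real.log_le_sub_one_of_pos hs0).trans (by linarith)
      have h5 : L = 2 * Real.log (√y) := by
        rw [Real.log_sqrt hy0.le]; ring
      linarith
    refine h1.trans ?_
    rw [le_div_iff₀ hL0]
    calc √(y : ℝ) * L ≤ √y * (2 * √y) := mul_le_mul_of_nonneg_left h3 hs0.le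
      _ = 2 * (√y * √y) := by ring
      _ = 2 * y := by rw [Real.mul_self_sqrt hy0.le]
  have hA'c : (#A' : ℝ) ≤ (2 / L) * (Real.log 4 * y * (C₂ * Real.log w) +
      2 * y * (Real.log w + C₁)) := by
    rw [div_mul_eq_mul_div, le_div_iff₀ hL0]
    linarith
  have hC1 : C₁ ≤ |C₁| / Real.log 2 * Real.log w := by
    have h1 := le_abs_self C₁
    have h3 : |C₁| * Real.log 2 ≤ |C₁| * Real.log w := mul_le_mul_of_nonneg_left hlw (abs_nonneg _)
    rw [div_mul_eq_mul_div, le_div_iff₀ hl2]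
    have := mul_le_mul_of_nonneg_right h1 hl2.le
    linarith
  have hC2 : C₂ * Real.log w ≤ |C₂| * Real.log w :=
    mul_le_mul_of_nonneg_right (le_abs_self _) hlw0.le
  have hone : 1 ≤ Real.log w / Real.log 2 := (one_le_div hl2).2 hlw
  have t1 : (2 / L) * (Real.log 4 * y * (C₂ * Real.log w) + 2 * y * (Real.log w + C₁)) ≤
      (2 * (Real.log 4 * |C₂| + 2 + 2 * (|C₁| / Real.log 2))) * y * Real.log w / L := by
    have h1 : Real.log 4 * y * (C₂ * Real.log w) ≤ Real.log 4 * y * (|C₂| * Real.log w) :=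
      mul_le_mul_of_nonneg_left hC2 (by positivity)
    have h3 : 2 * (y : ℝ) * (Real.log w + C₁) ≤
        2 * y * (Real.log w + |C₁| / Real.log 2 * Real.log w) :=
      mul_le_mul_of_nonneg_left (by linarith) (by positivity)
    calc _ ≤ (2 / L) * (Real.log 4 * y * (|C₂| * Real.log w) +
          2 * y * (Real.log w + |C₁| / Real.log 2 * Real.log w)) :=
          mul_le_mul_of_nonneg_left (add_le_add h1 h3) (by positivity)
      _ = _ := by ring
  have t2 : (y : ℝ) / L ≤ (1 / Real.log 2) * y * Real.log w / L := by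
    rw [div_le_div_iff_of_pos_right hL0]
    calc (y : ℝ) = y * 1 := by ring
      _ ≤ y * (Real.log w / Real.log 2) := mul_le_mul_of_nonneg_left hone hy0.le
      _ = _ := by ring
  have t3 : 2 * (y : ℝ) / L ≤ (2 / Real.log 2) * y * Real.log w / L := by
    rw [div_le_div_iff_of_pos_right hL0]
    calc 2 * (y : ℝ) = 2 * y * 1 := by ring
      _ ≤ 2 * y * (Real.log w / Real.log 2) := mul_le_mul_of_nonneg_left hone (by positivity)
      _ = _ := by ring
  calc (#A : ℝ) ≤ #A' + #B + Nat.sqrt y := hcard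
    _ ≤ (2 * (Real.log 4 * |C₂| + 2 + 2 * (|C₁| / Real.log 2))) * y * Real.log w / L +
        (1 / Real.log 2) * y * Real.log w / L + (2 / Real.log 2) * y * Real.log w / L := by
        linarith
    _ = _ := by ring

end Pool.Agent.P2Gap.G1
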