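import Pool.Agent.P2Gap.Moment

set_option autoImplicit false

namespace Pool.Agent.P2Gap

open Finset

lemma avg_eq (q n : ℕ) (hq : 0 < q) :
    (∑ b ∈ range q, (if n % q = b then (1 : ℝ) else 0)) / q = 1 / q := by
  rw [Finset.sum_ite_eq, if_pos (mem_range.2 (Nat.mod_lt n hq))]

lemma Ex_low (w n : ℕ) :
    Ex (pr 0 w) (fun a => if #{q ∈ pr 0 w | n % q = a q} ≤ 1 then (1 : ℝ) else 0) ≤
      PS w * (1 + 2 * ∑ q ∈ pr 0 w, 1 / (q : ℝ)) := by
  classical
  have hprime : ∀ q ∈ pr 0 w, q.Prime := fun q hq => (mem_filter.1 hq).2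
  have hpt : ∀ a : ℕ → ℕ, (if #{q ∈ pr 0 w | n % q = a q} ≤ 1 then (1 : ℝ) else 0) ≤
      Rn (pr 0 w) n a + ∑ q₀ ∈ pr 0 w, ∏ q ∈ pr 0 w,
        (if q = q₀ then (if n % q = a q then (1 : ℝ) else 0)
          else (if n % q = a q then (0 : ℝ) else 1)) := by
    intro a
    have hnn : ∀ q₀ ∈ pr 0 w, (0 : ℝ) ≤ ∏ q ∈ pr 0 w,
        (if q = q₀ then (if n % q = a q then (1 : ℝ) else 0)
          else (if n % q = a q then (0 : ℝ) else 1)) := fun q₀ _ =>
      prod_nonneg fun q _ => by split_ifs <;> norm_num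
    have hs := sum_nonneg hnn
    split_ifs with h
    · rcases Nat.le_one_iff_eq_zero_or_eq_one.1 h with h0 | h1
      · have : Rn (pr 0 w) n a = 1 := by
          unfold Rn
          refine prod_eq_one fun q hq => ?_
          rw [if_neg]
          intro he
          rw [card_eq_zero] at h0
          have : q ∈ {q ∈ pr 0 w | n % q = a q} := mem_filter.2 ⟨hq, he⟩
          rw [h0] at this
          exact notMem_empty _ this
        linarith
      · obtain ⟨q₀, hq₀⟩ := card_eq_one.1 h1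
        have hmem : q₀ ∈ {q ∈ pr 0 w | n % q = a q} := by rw [hq₀]; exact mem_singleton_self _
        rw [mem_filter] at hmem
        have h2 : (1 : ℝ) = ∏ q ∈ pr 0 w,
          (if q = q₀ then (if n % q = a q then (1 : ℝ) else 0)
            else (if n % q = a q then (0 : ℝ) else 1)) := by
          symm
          refine prod_eq_one fun q hq => ?_
          by_cases hqq : q = q₀
          · rw [if_pos hqq, hqq, if_pos hmem.2]
          · rw [if_neg hqq, if_neg]
            intro he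
            have : q ∈ {q ∈ pr 0 w | n % q = a q} := mem_filter.2 ⟨hq, he⟩
            rw [hq₀, mem_singleton] at this
            exact hqq this
        have h3 := single_le_sum hnn hmem.1
        rw [← h2] at h3
        linarith [Rn_nonneg (pr 0 w) n a]
    · linarith [Rn_nonneg (pr 0 w) n a]
  refine (Ex_mono _ _ _ hpt).trans ?_
  rw [Ex_add, Ex_sum, fact0]
  have h1 : ∀ q₀ ∈ pr 0 w, Ex (pr 0 w) (fun a => ∏ q ∈ pr 0 w,
        (if q = q₀ then (if n % q = a q then (1 : ℝ) else 0)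
          else (if n % q = a q then (0 : ℝ) else 1))) ≤ PS w * (2 * (1 / (q₀ : ℝ))) := by
    intro q₀ hq₀
    rw [Ex_prod (pr 0 w) (fun q b => if q = q₀ then (if n % q = b then (1 : ℝ) else 0)
          else (if n % q = b then (0 : ℝ) else 1))]
    have h2 : ∀ q ∈ pr 0 w, (∑ b ∈ range q, (if q = q₀ then (if n % q = b then (1 : ℝ) else 0)
          else (if n % q = b then (0 : ℝ) else 1))) / q =
        (if q = q₀ then 1 / (q : ℝ) else 1 - 1 / q) := by
      intro q hq
      by_cases hqq : q = q₀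
      · simp only [if_pos hqq]
        exact avg_eq q n (hprime q hq).pos
      · simp only [if_neg hqq]
        exact sum_small_factor q n (hprime q hq).pos
    rw [prod_congr rfl h2, ← mul_prod_erase _ _ hq₀, if_pos rfl]
    have h3 : ∏ q ∈ (pr 0 w).erase q₀, (if q = q₀ then 1 / (q : ℝ) else 1 - 1 / q) =
        ∏ q ∈ (pr 0 w).erase q₀, (1 - 1 / (q : ℝ)) := by
      refine prod_congr rfl fun q hq => ?_
      rw [if_neg (ne_of_mem_erase hq)]
    rw [h3]
    have h4 : PS w = (1 - 1 / (q₀ : ℝ)) * ∏ q ∈ (pr 0 w).erase q₀, (1 - 1 / (q : ℝ)) := by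
      unfold PS
      rw [mul_prod_erase (pr 0 w) (fun q : ℕ => (1 - 1 / (q : ℝ))) hq₀]
    have h5 : (0 : ℝ) ≤ ∏ q ∈ (pr 0 w).erase q₀, (1 - 1 / (q : ℝ)) :=
      prod_nonneg fun q hq => (one_sub_pos q (hprime q (mem_of_mem_erase hq))).le
    have h6 : (1 : ℝ) / 2 ≤ 1 - 1 / (q₀ : ℝ) := by
      have h2' : (2 : ℝ) ≤ q₀ := by exact_mod_cast (hprime q₀ hq₀).two_le
      have : 1 / (q₀ : ℝ) ≤ 1 / 2 := one_div_le_one_div_of_le (by norm_num) h2'
      linarith
    have h7 : (0 : ℝ) ≤ 1 / (q₀ : ℝ) := by positivity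
    rw [h4]
    nlinarith [mul_nonneg h7 h5, mul_le_mul_of_nonneg_right h6 (mul_nonneg h7 h5)]
  have h2 := sum_le_sum h1
  rw [← mul_sum, ← mul_sum] at h2
  linarith

end Pool.Agent.P2Gap
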