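import Pool.Agent.P2Gap.Defs

set_option autoImplicit false

namespace Pool.Agent.P2Gap.Nt1

open Finset



lemma nt1_sum32 (Q w : ℕ) (hQ : 1 ≤ Q) :
    ∑ m ∈ Finset.Ioc Q w, 1 / ((m : ℝ) * Real.sqrt m) ≤ 2 / Real.sqrt Q := by
  rcases Nat.lt_or_ge w Q with h | h
  · rw [Finset.Ioc_eq_empty (by omega), Finset.sum_empty]
    positivity
  · have key : ∑ m ∈ Finset.Ioc Q w, 1 / ((m : ℝ) * Real.sqrt m)
        ≤ 2 / Real.sqrt Q - 2 / Real.sqrt w := by
      induction w, h using Nat.le_induction with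
      | base => simp
      | succ n hn ih =>
        rw [← Finset.insert_Ioc_right_eq_Ioc_add_one (by omega : Q ≤ n), Finset.sum_insert (by simp)]
        have hn0 : (0 : ℝ) < n := by
          have : 0 < n := by omega
          exact_mod_cast this
        set a := Real.sqrt n with ha
        set b := Real.sqrt ((n + 1 : ℕ) : ℝ) with hb
        have ha0 : 0 < a := Real.sqrt_pos.mpr hn0
        have hb0 : 0 < b := Real.sqrt_pos.mpr (by push_cast; linarith)
        have ha2 : a * a = n := Real.mul_self_sqrt hn0.le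
        have hb2 : b * b = n + 1 := by
          have := Real.mul_self_sqrt (by positivity : (0:ℝ) ≤ ((n + 1 : ℕ) : ℝ))
          rw [← hb] at this
          rw [this]; push_cast; ring
        have hab : a ≤ b := Real.sqrt_le_sqrt (by push_cast; linarith)
        have h1 : (b - a) * (a + b) = 1 := by nlinarith
        have h2 : 1 ≤ (b - a) * (2 * b) := by nlinarith
        have h3 : 1 / (((n + 1 : ℕ) : ℝ) * b) ≤ 2 / a - 2 / b := by
          have e1 : ((n + 1 : ℕ) : ℝ) = b * b := by rw [hb2]; push_cast; ring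
          rw [e1, div_sub_div _ _ ha0.ne' hb0.ne', div_le_div_iff₀ (by positivity) (by positivity)]
          have h4 : b * b * 1 ≤ b * b * ((b - a) * (2 * b)) :=
            mul_le_mul_of_nonneg_left h2 (by positivity)
          have h5 : a * b ≤ b * b := mul_le_mul_of_nonneg_right hab hb0.le
          nlinarith
        linarith
    have : 0 ≤ 2 / Real.sqrt w := by positivity
    linarith

lemma nt1_prod_le {ι : Type} (s : Finset ι) (f : ι → ℝ) (hf : ∀ i ∈ s, 0 ≤ f i) :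
    ∏ i ∈ s, (1 + f i) ≤ Real.exp (∑ i ∈ s, f i) := by
  rw [Real.exp_sum]
  apply Finset.prod_le_prod
  · intro i hi; linarith [hf i hi]
  · intro i _; rw [add_comm]; exact Real.add_one_le_exp _

lemma nt1_prod32 (Q w : ℕ) (hQ : 1 ≤ Q) (t : ℝ) (ht : 0 ≤ t) :
    ∏ q ∈ pr Q w, (1 + t / ((q : ℝ) * Real.sqrt q)) ≤ Real.exp (t * (2 / Real.sqrt Q)) := by
  refine (nt1_prod_le _ _ (fun i _ => by positivity)).trans ?_
  apply Real.exp_le_exp.mpr
  have h1 : ∑ i ∈ pr Q w, t / ((i : ℝ) * Real.sqrt i) = t * ∑ i ∈ pr Q w, 1 / ((i : ℝ) * Real.sqrt i) := by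
    rw [Finset.mul_sum]; apply Finset.sum_congr rfl; intro i _; ring
  rw [h1]
  apply mul_le_mul_of_nonneg_left _ ht
  refine le_trans ?_ (nt1_sum32 Q w hQ)
  apply Finset.sum_le_sum_of_subset_of_nonneg (Finset.filter_subset _ _)
  intro i _ _; positivity

lemma nt1_prod1 (Q w : ℕ) (t : ℝ) (ht : 0 ≤ t) :
    ∏ q ∈ pr Q w, (1 + t / (q : ℝ)) ≤ Real.exp (t * ∑ q ∈ pr 0 w, 1 / (q : ℝ)) := by
  refine (nt1_prod_le _ _ (fun i _ => by positivity)).trans ?_
  apply Real.exp_le_exp.mpr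
  have h1 : ∑ i ∈ pr Q w, t / (i : ℝ) = t * ∑ i ∈ pr Q w, 1 / (i : ℝ) := by
    rw [Finset.mul_sum]; apply Finset.sum_congr rfl; intro i _; ring
  rw [h1]
  apply mul_le_mul_of_nonneg_left _ ht
  apply Finset.sum_le_sum_of_subset_of_nonneg
  · intro x hx
    simp only [Finset.mem_filter, Finset.mem_Ioc] at hx ⊢
    exact ⟨⟨hx.2.pos, hx.1.2⟩, hx.2⟩
  · intro i _ _; positivity

/-- all `p'` divisible by all `q ∈ T` lie in one residue class modulo `∏ T` -/
lemma nt1_resid (Q w K p : ℕ) (hKQ : K ≤ Q) (T : Finset ℕ) (hT : T ⊆ pr Q w)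
    (j j' : ℤ) (hj' : j' ≠ 0) (hj'K : |j'| ≤ K) :
    ∃ r : ℕ, ∀ p' : ℕ, (∀ q ∈ T, (q : ℤ) ∣ j * p - j' * p') → p' % (∏ q ∈ T, q) = r := by
  classical
  by_cases hex : ∃ p₀ : ℕ, ∀ q ∈ T, (q : ℤ) ∣ j * p - j' * p₀
  · obtain ⟨p₀, hp₀⟩ := hex
    refine ⟨p₀ % (∏ q ∈ T, q), fun p' hp' => ?_⟩
    have hd : ∀ z : ℤ, (∀ q ∈ T, (q : ℤ) ∣ z) → ((∏ q ∈ T, q : ℕ) : ℤ) ∣ z := by
      intro z hz
      rw [Int.natCast_dvd]
      apply Finset.prod_primes_dvd
      · intro q hq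
        have := hT hq
        simp only [Finset.mem_filter, Finset.mem_Ioc] at this
        exact this.2.prime
      · intro q hq
        have := hz q hq
        rwa [Int.natCast_dvd] at this
    have h1 : ((∏ q ∈ T, q : ℕ) : ℤ) ∣ j' * ((p' : ℤ) - p₀) := by
      apply hd
      intro q hq
      have e : j' * ((p' : ℤ) - p₀) = (j * p - j' * p₀) - (j * p - j' * p') := by ring
      rw [e]
      exact dvd_sub (hp₀ q hq) (hp' q hq)
    have hcop : IsCoprime ((∏ q ∈ T, q : ℕ) : ℤ) j' := by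
      rw [Nat.cast_prod]
      apply IsCoprime.prod_left
      intro q hq
      have hq' := hT hq
      simp only [Finset.mem_filter, Finset.mem_Ioc] at hq'
      have hqp : Prime (q : ℤ) := Nat.prime_iff_prime_int.mp hq'.2
      rw [Int.isCoprime_iff_gcd_eq_one]
      have : Nat.Coprime q j'.natAbs := by
        rw [Nat.Prime.coprime_iff_not_dvd hq'.2]
        intro hdvd
        have h3 := Nat.le_of_dvd (Int.natAbs_pos.mpr hj') hdvd
        have h4 : (j'.natAbs : ℤ) ≤ K := by rw [Int.natCast_natAbs]; exact hj'K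
        have : j'.natAbs ≤ K := by exact_mod_cast h4
        omega
      rw [Int.gcd]
      simpa using this
    have h2 : ((∏ q ∈ T, q : ℕ) : ℤ) ∣ ((p' : ℤ) - p₀) := hcop.dvd_of_dvd_mul_left h1
    have h3 : (p₀ : ℤ) ≡ p' [ZMOD ((∏ q ∈ T, q : ℕ) : ℤ)] := (Int.modEq_iff_dvd).mpr h2
    have h4 := (Int.natCast_modEq_iff).mp h3
    exact h4.symm
  · refine ⟨0, fun p' hp' => absurd ⟨p', hp'⟩ hex⟩

lemma nt1_count (A X d r : ℕ) :
    #{p ∈ pr A X | p % d = r} ≤ X / d + 1 := by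
  have : #{p ∈ pr A X | p % d = r} ≤ #(Finset.range (X / d + 1)) := by
    apply Finset.card_le_card_of_injOn (fun m => m / d)
    · intro m hm
      simp only [Finset.coe_filter, Finset.mem_filter, Finset.mem_Ioc, Set.mem_ofPred_eq] at hm
      simp only [Finset.coe_range, Set.mem_Iio]
      have := Nat.div_le_div_right (c := d) hm.1.1.2
      omega
    · intro m hm m' hm' h
      simp only [Finset.coe_filter, Finset.mem_filter, Finset.mem_Ioc, Set.mem_ofPred_eq] at hm hm'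
      have e1 := Nat.div_add_mod m d
      have e2 := Nat.div_add_mod m' d
      simp only at h
      rw [← e1, ← e2, hm.2, hm'.2, h]
  simpa using this



/-- bound for the number of primes of `(8^e, 8^(e+1)]` in a residue class -/
lemma nt1_N
    (hap : ∀ d r A X : ℕ, 2 ≤ d → X / d + 1 ≤ A →
      (#{p ∈ pr A X | p % d = r} : ℝ) * Real.log A ≤ 2 * ((X / d + 1 : ℕ) : ℝ) * Real.log d)
    (c : ℝ) (hc : 0 < c) (e : ℕ) (he : 1 ≤ e)
    (hP : c * 8 ^ (e + 1) / (e + 1) ≤ (#(pr (8 ^ e) (8 ^ (e + 1))) : ℝ))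
    (d r : ℕ) (hd : 16 < d) :
    (#{p ∈ pr (8 ^ e) (8 ^ (e + 1)) | p % d = r} : ℝ) ≤
      8 / c * (#(pr (8 ^ e) (8 ^ (e + 1))) : ℝ) * (1 / Real.sqrt d)
        + 2 * Real.sqrt (8 ^ (e + 1)) := by
  set P : ℝ := (#(pr (8 ^ e) (8 ^ (e + 1))) : ℝ) with hPdef
  set N : ℝ := (#{p ∈ pr (8 ^ e) (8 ^ (e + 1)) | p % d = r} : ℝ) with hN
  have hd0 : (0 : ℝ) < d := by
    have : 0 < d := by omega
    exact_mod_cast this
  have hX1 : (1 : ℝ) ≤ 8 ^ (e + 1) := one_le_pow₀ (by norm_num)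
  have hsX1 : 1 ≤ Real.sqrt (8 ^ (e + 1)) := by
    rw [show (1 : ℝ) = Real.sqrt 1 by simp]
    exact Real.sqrt_le_sqrt hX1
  have hP0 : 0 ≤ P := by positivity
  have hsd : 0 < Real.sqrt d := Real.sqrt_pos.mpr hd0
  rcases le_or_gt ((d : ℝ) * d) (8 ^ (e + 1)) with hcase | hcase
  · -- small modulus
    have hXd : (8 ^ (e + 1)) / d + 1 ≤ 8 ^ e := by
      have h1 : (8 ^ (e + 1)) / d ≤ (8 ^ (e + 1)) / 16 := Nat.div_le_div_left hd.le (by norm_num)
      have h2 : (8 ^ (e + 1)) / 16 ≤ 8 ^ e / 2 := by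
        rw [pow_succ]; omega
      have h3 : 8 ≤ 8 ^ e := by
        calc 8 = 8 ^ 1 := by norm_num
          _ ≤ 8 ^ e := Nat.pow_le_pow_right (by norm_num) he
      omega
    have h1 := hap d r (8 ^ e) (8 ^ (e + 1)) (by omega) hXd
    rw [← hN] at h1
    have hlogA : ((e : ℝ) + 1) ≤ Real.log ((8 ^ e : ℕ) : ℝ) := by
      push_cast
      rw [Real.log_pow]
      have h8 : (2 : ℝ) ≤ Real.log 8 := by
        rw [show (8 : ℝ) = 2 ^ (3 : ℕ) by norm_num, Real.log_pow]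
        have := Real.log_two_gt_d9
        push_cast; linarith
      have he' : (1 : ℝ) ≤ e := by exact_mod_cast he
      nlinarith
    have hlogd : Real.log d ≤ 2 * Real.sqrt d := by
      have h2 : Real.log (Real.sqrt d) ≤ Real.sqrt d - 1 := Real.log_le_sub_one_of_pos hsd
      rw [Real.log_sqrt hd0.le] at h2
      linarith
    have hlogd0 : 0 ≤ Real.log d := Real.log_natCast_nonneg d
    have hd1 : (1 : ℝ) ≤ d := by
      have : 1 ≤ d := by omega
      exact_mod_cast this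
    have hXd2 : (((8 ^ (e + 1)) / d + 1 : ℕ) : ℝ) ≤ 2 * (8 ^ (e + 1) / d) := by
      push_cast
      have h2 : (((8 ^ (e + 1)) / d : ℕ) : ℝ) ≤ ((8 ^ (e + 1) : ℕ) : ℝ) / d := Nat.cast_div_le
      push_cast at h2
      have h3 : (1 : ℝ) ≤ 8 ^ (e + 1) / d := by
        rw [le_div_iff₀ hd0]
        nlinarith
      linarith
    have h4 : N * ((e : ℝ) + 1) ≤ 8 * 8 ^ (e + 1) / Real.sqrt d := by
      have hN0 : 0 ≤ N := by positivity
      calc N * ((e : ℝ) + 1) ≤ N * Real.log ((8 ^ e : ℕ) : ℝ) := mul_le_mul_of_nonneg_left hlogA hN0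
        _ ≤ 2 * (((8 ^ (e + 1)) / d + 1 : ℕ) : ℝ) * Real.log d := h1
        _ ≤ 2 * (2 * (8 ^ (e + 1) / d)) * (2 * Real.sqrt d) := by
            apply mul_le_mul _ hlogd hlogd0 (by positivity)
            linarith
        _ = 8 * 8 ^ (e + 1) / Real.sqrt d := by
            have : (d : ℝ) = Real.sqrt d * Real.sqrt d := (Real.mul_self_sqrt hd0.le).symm
            field_simp
            nlinarith
    have he1 : (0 : ℝ) < (e : ℝ) + 1 := by positivity
    have hX : (8 : ℝ) ^ (e + 1) ≤ P * ((e : ℝ) + 1) / c := by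
      rw [le_div_iff₀ hc]
      rw [div_le_iff₀ he1] at hP
      linarith
    have h5 : N * ((e : ℝ) + 1) ≤ (8 / c * P * (1 / Real.sqrt d)) * ((e : ℝ) + 1) := by
      refine h4.trans ?_
      have : 8 * (8:ℝ) ^ (e + 1) / Real.sqrt d ≤ 8 * (P * ((e : ℝ) + 1) / c) / Real.sqrt d := by
        apply div_le_div_of_nonneg_right _ hsd.le
        linarith
      refine this.trans (le_of_eq ?_)
      field_simp
    have h6 : N ≤ 8 / c * P * (1 / Real.sqrt d) := le_of_mul_le_mul_right h5 he1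
    linarith
  · -- large modulus
    have h1 : N ≤ (((8 ^ (e + 1)) / d + 1 : ℕ) : ℝ) := by
      rw [hN]; exact_mod_cast nt1_count (8 ^ e) (8 ^ (e + 1)) d r
    have h2 : (((8 ^ (e + 1)) / d : ℕ) : ℝ) ≤ ((8 ^ (e + 1) : ℕ) : ℝ) / d := Nat.cast_div_le
    push_cast at h1 h2
    have h3 : (8 : ℝ) ^ (e + 1) / d ≤ Real.sqrt (8 ^ (e + 1)) := by
      rw [div_le_iff₀ hd0]
      have h4 : Real.sqrt (8 ^ (e + 1)) ≤ d := by
        rw [show (d : ℝ) = Real.sqrt (d * d) by rw [Real.sqrt_mul_self hd0.le]]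
        exact Real.sqrt_le_sqrt hcase.le
      have h5 : Real.sqrt ((8:ℝ) ^ (e + 1)) * Real.sqrt (8 ^ (e + 1)) = 8 ^ (e + 1) :=
        Real.mul_self_sqrt (by positivity)
      nlinarith [Real.sqrt_nonneg ((8:ℝ) ^ (e + 1))]
    have h6 : 0 ≤ 8 / c * P * (1 / Real.sqrt d) := by positivity
    linarith

/-- expansion of the product over the subsets -/
lemma nt1_expand (s : Finset ℕ) (t : ℝ) (z : ℤ) :
    ∏ q ∈ s, (1 + if (q : ℤ) ∣ z then t / (q : ℝ) else 0)
      = ∑ T ∈ s.powerset, (∏ q ∈ T, t / (q : ℝ)) * (if ∀ q ∈ T, (q : ℤ) ∣ z then 1 else 0) := by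
  classical
  rw [Finset.prod_one_add]
  apply Finset.sum_congr rfl
  intro T _
  by_cases h : ∀ q ∈ T, (q : ℤ) ∣ z
  · rw [if_pos h, mul_one]
    apply Finset.prod_congr rfl
    intro q hq
    rw [if_pos (h q hq)]
  · rw [if_neg h, mul_zero]
    push Not at h
    obtain ⟨q, hq, hq'⟩ := h
    exact Finset.prod_eq_zero hq (if_neg hq')

/-- sum for fixed `j, j'` -/
lemma nt1_fixed
    (hap : ∀ d r A X : ℕ, 2 ≤ d → X / d + 1 ≤ A →
      (#{p ∈ pr A X | p % d = r} : ℝ) * Real.log A ≤ 2 * ((X / d + 1 : ℕ) : ℝ) * Real.log d)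
    (c : ℝ) (hc : 0 < c) (e : ℕ) (he : 1 ≤ e)
    (hP : c * 8 ^ (e + 1) / (e + 1) ≤ (#(pr (8 ^ e) (8 ^ (e + 1))) : ℝ))
    (Q w K p : ℕ) (hKQ : K ≤ Q) (hQ : 16 ≤ Q) (t : ℝ) (ht : 0 ≤ t)
    (j j' : ℤ) (hj' : j' ≠ 0) (hj'K : |j'| ≤ K) :
    ∑ p' ∈ pr (8 ^ e) (8 ^ (e + 1)),
        ∏ q ∈ pr Q w, (1 + if (q : ℤ) ∣ j * p - j' * p' then t / (q : ℝ) else 0) ≤
      (#(pr (8 ^ e) (8 ^ (e + 1))) : ℝ)
        + 8 / c * (#(pr (8 ^ e) (8 ^ (e + 1))) : ℝ) * (Real.exp (t * (2 / Real.sqrt Q)) - 1)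
        + 2 * Real.sqrt (8 ^ (e + 1)) * Real.exp (t * ∑ q ∈ pr 0 w, 1 / (q : ℝ)) := by
  classical
  set Ps := pr (8 ^ e) (8 ^ (e + 1)) with hPs
  set P : ℝ := (#Ps : ℝ) with hPdef
  have hP0 : 0 ≤ P := by positivity
  simp_rw [nt1_expand]
  rw [Finset.sum_comm]
  -- bound for each T
  have hT : ∀ T ∈ (pr Q w).powerset,
      ∑ p' ∈ Ps, (∏ q ∈ T, t / (q : ℝ)) * (if ∀ q ∈ T, (q : ℤ) ∣ j * p - j' * p' then (1:ℝ) else 0)
        ≤ (if T = ∅ then P - 8 / c * P else 0) + 8 / c * P * (∏ q ∈ T, t / ((q : ℝ) * Real.sqrt q))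
          + 2 * Real.sqrt (8 ^ (e + 1)) * (∏ q ∈ T, t / (q : ℝ)) := by
    intro T hTm
    rw [Finset.mem_powerset] at hTm
    rw [← Finset.mul_sum]
    by_cases hTe : T = ∅
    · subst hTe
      simp only [Finset.prod_empty, Finset.notMem_empty, false_imp_iff, implies_true, if_true,
        Finset.sum_const, nsmul_eq_mul, mul_one, one_mul]
      have : 0 ≤ 2 * Real.sqrt ((8:ℝ) ^ (e + 1)) := by positivity
      rw [← hPdef]
      linarith
    · rw [if_neg hTe, zero_add]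
      obtain ⟨r, hr⟩ := nt1_resid Q w K p hKQ T hTm j j' hj' hj'K
      set d := ∏ q ∈ T, q with hd
      have hTprime : ∀ q ∈ T, Q < q ∧ q.Prime := by
        intro q hq
        have := hTm hq
        simp only [Finset.mem_filter, Finset.mem_Ioc] at this
        exact ⟨this.1.1, this.2⟩
      have hd16 : 16 < d := by
        obtain ⟨q, hq⟩ := Finset.nonempty_iff_ne_empty.mpr hTe
        have h1 : q ≤ d := by
          apply Nat.le_of_dvd
          · exact Finset.prod_pos (fun q hq => (hTprime q hq).2.pos)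
          · exact Finset.dvd_prod_of_mem _ hq
        have := (hTprime q hq).1
        omega
      have hcount : ∑ p' ∈ Ps, (if ∀ q ∈ T, (q : ℤ) ∣ j * p - j' * p' then (1:ℝ) else 0)
          ≤ (#{p' ∈ Ps | p' % d = r} : ℝ) := by
        rw [Finset.sum_boole]
        norm_cast
        apply Finset.card_le_card
        intro x hx
        rw [Finset.mem_filter] at hx ⊢
        exact ⟨hx.1, hr x hx.2⟩
      have hN := nt1_N hap c hc e he hP d r hd16
      have hw0 : 0 ≤ ∏ q ∈ T, t / (q : ℝ) := Finset.prod_nonneg (fun q _ => by positivity)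
      have h2 := mul_le_mul_of_nonneg_left (hcount.trans hN) hw0
      refine h2.trans (le_of_eq ?_)
      have hsq : (∏ q ∈ T, t / ((q : ℝ) * Real.sqrt q)) = (∏ q ∈ T, t / (q : ℝ)) * (1 / Real.sqrt d) := by
        have : (1 / Real.sqrt d) = ∏ q ∈ T, (1 / Real.sqrt q) := by
          rw [hd]
          push_cast
          rw [Real.sqrt_prod _ (fun i _ => by positivity)]
          simp
        rw [this, ← Finset.prod_mul_distrib]
        apply Finset.prod_congr rfl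
        intro q _
        rw [div_mul_div_comm, mul_one]
      rw [hsq]
      ring
  refine (Finset.sum_le_sum hT).trans ?_
  rw [Finset.sum_add_distrib, Finset.sum_add_distrib, ← Finset.mul_sum, ← Finset.mul_sum,
    Finset.sum_ite_eq' , if_pos (Finset.empty_mem_powerset _), ← Finset.prod_one_add,
    ← Finset.prod_one_add]
  have h1 := nt1_prod32 Q w (by omega) t ht
  have h2 := nt1_prod1 Q w t ht
  have h3 : 8 / c * P * ∏ q ∈ pr Q w, (1 + t / ((q : ℝ) * Real.sqrt q))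
      ≤ 8 / c * P * Real.exp (t * (2 / Real.sqrt Q)) := mul_le_mul_of_nonneg_left h1 (by positivity)
  have h4 : 2 * Real.sqrt (8 ^ (e + 1)) * ∏ q ∈ pr Q w, (1 + t / (q : ℝ))
      ≤ 2 * Real.sqrt (8 ^ (e + 1)) * Real.exp (t * ∑ q ∈ pr 0 w, 1 / (q : ℝ)) :=
    mul_le_mul_of_nonneg_left h2 (by positivity)
  linarith


/-- the pairs of nonzero integers -/
noncomputable def nt1_S (K : ℕ) : Finset (ℤ × ℤ) :=
  {x ∈ (Finset.Icc (-(K : ℤ)) K) ×ˢ (Finset.Icc (-(K : ℤ)) K) | x.1 ≠ 0 ∧ x.2 ≠ 0}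

lemma nt1_S_card (K : ℕ) : #(nt1_S K) = (2 * K) * (2 * K) := by
  have h : nt1_S K = ((Finset.Icc (-(K : ℤ)) K).erase 0) ×ˢ ((Finset.Icc (-(K : ℤ)) K).erase 0) := by
    ext x
    simp only [nt1_S, Finset.mem_filter, Finset.mem_product, Finset.mem_Icc, Finset.mem_erase]
    tauto
  have h2 : #((Finset.Icc (-(K : ℤ)) K).erase 0) = 2 * K := by
    rw [Finset.card_erase_of_mem (by simp), Int.card_Icc]
    omega
  rw [h, Finset.card_product, h2]

lemma nt1_cc (K q p p' : ℕ) :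
    (cc K q p p' : ℝ) = ∑ x ∈ nt1_S K, (if (q : ℤ) ∣ x.1 * p - x.2 * p' then (1 : ℝ) else 0) := by
  rw [Finset.sum_boole]
  congr 1
  unfold nt1_S cc
  rw [Finset.filter_filter]
  congr 1
  ext x
  simp only [Finset.mem_filter]
  tauto

lemma nt1_jensen (K Q w p p' : ℕ) (hK : 1 ≤ K) (hQ : 8 * K ^ 2 ≤ Q) :
    ∏ q ∈ pr Q w, (1 + 2 * (cc K q p p' : ℝ) / q) ≤
      ∑ x ∈ nt1_S K, (1 / (#(nt1_S K) : ℝ)) *
        ∏ q ∈ pr Q w, (1 + if (q : ℤ) ∣ x.1 * p - x.2 * p' then (16 * (K : ℝ) ^ 2) / (q : ℝ) else 0) := by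
  classical
  set M : ℝ := (#(nt1_S K) : ℝ) with hM
  have hMv : M = 4 * (K : ℝ) ^ 2 := by
    rw [hM, nt1_S_card]; push_cast; ring
  have hK1 : (1 : ℝ) ≤ K := by exact_mod_cast hK
  have hM0 : 0 < M := by rw [hMv]; positivity
  refine (nt1_prod_le _ _ (fun i _ => by positivity)).trans ?_
  set y : ℤ × ℤ → ℝ := fun x => ∑ q ∈ pr Q w, (if (q : ℤ) ∣ x.1 * p - x.2 * p' then 2 / (q : ℝ) else 0) with hy
  have h1 : ∑ q ∈ pr Q w, 2 * (cc K q p p' : ℝ) / q = ∑ x ∈ nt1_S K, (1 / M) • (M * y x) := by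
    have : ∀ x, (1 / M) • (M * y x) = y x := by
      intro x; rw [smul_eq_mul]; field_simp
    simp_rw [this, hy]
    rw [Finset.sum_comm]
    apply Finset.sum_congr rfl
    intro q _
    rw [nt1_cc, Finset.mul_sum, Finset.sum_div]
    apply Finset.sum_congr rfl
    intro x _
    split_ifs <;> simp
  rw [h1]
  have hJ := convexOn_exp.map_sum_le (t := nt1_S K) (w := fun _ => 1 / M) (p := fun x => M * y x)
    (fun i _ => by positivity)
    (by rw [Finset.sum_const, nsmul_eq_mul, ← hM]; field_simp) (fun i _ => Set.mem_univ _)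
  refine hJ.trans ?_
  apply Finset.sum_le_sum
  intro x _
  rw [smul_eq_mul]
  apply mul_le_mul_of_nonneg_left _ (by positivity)
  rw [hy]
  simp only
  rw [Finset.mul_sum, Real.exp_sum]
  apply Finset.prod_le_prod
  · intro q _; exact (Real.exp_pos _).le
  · intro q hq
    simp only [Finset.mem_filter, Finset.mem_Ioc] at hq
    have hq0 : (0 : ℝ) < q := by exact_mod_cast hq.2.pos
    split_ifs with h
    · have hqQ : (8 * (K : ℝ) ^ 2) ≤ q := by
        have : 8 * K ^ 2 ≤ q := by omega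
        exact_mod_cast this
      have hx : M * (2 / (q : ℝ)) = 8 * (K : ℝ) ^ 2 / q := by rw [hMv]; ring
      rw [hx]
      set z := 8 * (K : ℝ) ^ 2 / q with hz
      have hz0 : 0 ≤ z := by positivity
      have hz1 : z ≤ 1 := by rw [hz, div_le_one hq0]; exact hqQ
      have h2 := Real.abs_exp_sub_one_sub_id_le (x := z) (by rw [abs_of_nonneg hz0]; exact hz1)
      have h3 := (abs_le.mp h2).2
      have h4 : 16 * (K : ℝ) ^ 2 / q = 2 * z := by rw [hz]; ring
      rw [h4]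
      nlinarith
    · simp

theorem nt1
    (hap : ∀ d r A X : ℕ, 2 ≤ d → X / d + 1 ≤ A →
      (#{p ∈ pr A X | p % d = r} : ℝ) * Real.log A ≤ 2 * ((X / d + 1 : ℕ) : ℝ) * Real.log d)
    (hpc : ∃ c : ℝ, 0 < c ∧ ∃ e₀ : ℕ, ∀ e : ℕ, e₀ ≤ e →
      c * 8 ^ (e + 1) / (e + 1) ≤ (#(pr (8 ^ e) (8 ^ (e + 1))) : ℝ))
    (hm : ∃ C₂ : ℝ, ∀ w : ℕ, 2 ≤ w → ∑ p ∈ pr 0 w, 1 / (p : ℝ) ≤ Real.log (Real.log w) + C₂)
    (ε : ℝ) (hε : 0 < ε) :
    ∃ D₀ : ℕ, ∀ D : ℕ, D₀ ≤ D → ∀ K Q w e : ℕ, 1 ≤ K → D * K ^ 4 ≤ Q → 2 ≤ w → w < 8 ^ e →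
      (D * Real.log w) ^ (D * K ^ 2) ≤ (8 : ℝ) ^ e →
      ∀ p ∈ pr (8 ^ e) (8 ^ (e + 1)),
        ∑ p' ∈ pr (8 ^ e) (8 ^ (e + 1)), ∏ q ∈ pr Q w, (1 + 2 * (cc K q p p' : ℝ) / q) ≤
          (1 + ε) * (#(pr (8 ^ e) (8 ^ (e + 1))) : ℝ) := by
  classical
  obtain ⟨c, hc, e₀, hP⟩ := hpc
  obtain ⟨C₂, hC₂⟩ := hm
  -- threshold for e
  obtain ⟨e₁, he₁⟩ : ∃ e₁ : ℕ, ∀ e : ℕ, e₁ ≤ e →
      (4 * ((e : ℝ) + 1) / (ε * c)) ^ 4 ≤ 64 * 8 ^ e := by
    have h1 := tendsto_pow_const_div_const_pow_of_one_lt 4 (by norm_num : (1:ℝ) < 8)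
    have hb : (0:ℝ) < 64 / (8 / (ε * c)) ^ 4 := by positivity
    have h2 := (h1.eventually (gt_mem_nhds hb))
    obtain ⟨e₁, h3⟩ := Filter.eventually_atTop.mp h2
    refine ⟨max e₁ 1, fun e he => ?_⟩
    have h4 := h3 e (le_trans (le_max_left _ _) he)
    have he1 : (1 : ℝ) ≤ e := by
      have : 1 ≤ e := le_trans (le_max_right _ _) he
      exact_mod_cast this
    rw [div_lt_div_iff₀ (by positivity) (by positivity)] at h4
    have h5 : 4 * ((e : ℝ) + 1) / (ε * c) ≤ 8 / (ε * c) * e := by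
      rw [div_mul_eq_mul_div]
      apply div_le_div_of_nonneg_right _ (by positivity)
      linarith
    calc (4 * ((e : ℝ) + 1) / (ε * c)) ^ 4 ≤ (8 / (ε * c) * e) ^ 4 :=
          pow_le_pow_left₀ (by positivity) h5 4
      _ = (e : ℝ) ^ 4 * (8 / (ε * c)) ^ 4 := by ring
      _ ≤ 64 * 8 ^ e := h4.le
  -- threshold for D
  obtain ⟨D₁, hD₁⟩ : ∃ D₁ : ℕ, ∀ D : ℕ, D₁ ≤ D →
      8 / c * (Real.exp (32 / Real.sqrt D) - 1) ≤ ε / 2 := by
    have h1 : Filter.Tendsto (fun D : ℕ => 8 / c * (Real.exp (32 / Real.sqrt D) - 1))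
        Filter.atTop (nhds (8 / c * (Real.exp 0 - 1))) := by
      apply Filter.Tendsto.const_mul
      apply Filter.Tendsto.sub_const
      apply (Real.continuous_exp.tendsto 0).comp
      apply Filter.Tendsto.const_div_atTop
      exact Real.tendsto_sqrt_atTop.comp tendsto_natCast_atTop_atTop
    have h2 : 8 / c * (Real.exp 0 - 1) < ε / 2 := by simp; exact hε
    have h3 := h1.eventually (gt_mem_nhds h2)
    obtain ⟨D₁, h4⟩ := Filter.eventually_atTop.mp h3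
    exact ⟨D₁, fun D hD => (h4 D hD).le⟩
  obtain ⟨D₂, hD₂⟩ := exists_nat_ge (Real.exp C₂)
  refine ⟨max (max (max e₀ e₁) (max D₁ D₂)) 64, fun D hD K Q w e hK hQ hw hwe hDL p _ => ?_⟩
  have hD64 : 64 ≤ D := le_trans (le_max_right _ _) hD
  have hD' := le_trans (le_max_left _ _) hD
  have hDe₀ : e₀ ≤ D := le_trans (le_trans (le_max_left _ _) (le_max_left _ _)) hD'
  have hDe₁ : e₁ ≤ D := le_trans (le_trans (le_max_right _ _) (le_max_left _ _)) hD'
  have hDD₁ : D₁ ≤ D := le_trans (le_trans (le_max_left _ _) (le_max_right _ _)) hD'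
  have hDD₂ : D₂ ≤ D := le_trans (le_trans (le_max_right _ _) (le_max_right _ _)) hD'
  have hDr : (64 : ℝ) ≤ D := by exact_mod_cast hD64
  have hKr : (1 : ℝ) ≤ K := by exact_mod_cast hK
  -- log w
  set L := Real.log w with hL
  have hLlow : 1 / 2 ≤ L := by
    have h1 : Real.log 2 ≤ L := Real.log_le_log (by norm_num) (by exact_mod_cast hw)
    have := Real.log_two_gt_d9
    linarith
  have hDL8 : 8 ≤ D * L := by nlinarith
  have hDL1 : 1 ≤ D * L := by linarith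
  have hDK : D ≤ D * K ^ 2 := Nat.le_mul_of_pos_right D (by positivity)
  have heD : D ≤ e := by
    have h1 : (8 : ℝ) ^ (D * K ^ 2) ≤ 8 ^ e :=
      le_trans (pow_le_pow_left₀ (by norm_num) hDL8 _) hDL
    have h2 : D * K ^ 2 ≤ e := (pow_le_pow_iff_right₀ (by norm_num : (1:ℝ) < 8)).mp h1
    omega
  have he1 : 1 ≤ e := by omega
  have hPe := hP e (by omega)
  have hK2 : 1 ≤ K ^ 2 := Nat.one_le_pow _ _ hK
  have hK4 : K ^ 2 ≤ K ^ 4 := Nat.pow_le_pow_right hK (by norm_num)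
  have hKK2 : K ≤ K ^ 2 := by nlinarith
  have hQ64 : 64 * K ^ 4 ≤ Q := le_trans (Nat.mul_le_mul_right _ hD64) hQ
  have hKQ : K ≤ Q := by omega
  have hQ8 : 8 * K ^ 2 ≤ Q := by omega
  have hQ16 : 16 ≤ Q := by omega
  set Ps := pr (8 ^ e) (8 ^ (e + 1)) with hPs
  set P : ℝ := (#Ps : ℝ) with hPdef
  have hP0 : 0 ≤ P := by positivity
  set M : ℝ := (#(nt1_S K) : ℝ) with hM
  have hMv : M = 4 * (K : ℝ) ^ 2 := by
    rw [hM, nt1_S_card]; push_cast; ring
  have hM0 : 0 < M := by rw [hMv]; positivity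
  set t : ℝ := 16 * (K : ℝ) ^ 2 with ht
  have ht0 : 0 ≤ t := by positivity
  -- the uniform bound
  have hbound : ∀ x ∈ nt1_S K, ∑ p' ∈ Ps, ∏ q ∈ pr Q w,
      (1 + if (q : ℤ) ∣ x.1 * p - x.2 * p' then t / (q : ℝ) else 0) ≤ (1 + ε) * P := by
    intro x hx
    simp only [nt1_S, Finset.mem_filter, Finset.mem_product, Finset.mem_Icc] at hx
    have h1 := nt1_fixed hap c hc e he1 hPe Q w K p hKQ hQ16 t ht0 x.1 x.2 hx.2.2
      (abs_le.mpr ⟨hx.1.2.1, hx.1.2.2⟩)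
    refine h1.trans ?_
    -- first error
    have hE1 : 8 / c * P * (Real.exp (t * (2 / Real.sqrt Q)) - 1) ≤ ε / 2 * P := by
      have hsD : 0 < Real.sqrt D := Real.sqrt_pos.mpr (by linarith)
      have hsQ : Real.sqrt D * (K : ℝ) ^ 2 ≤ Real.sqrt Q := by
        apply Real.le_sqrt_of_sq_le
        rw [mul_pow, Real.sq_sqrt (by positivity), ← pow_mul]
        exact_mod_cast hQ
      have h2 : t * (2 / Real.sqrt Q) ≤ 32 / Real.sqrt D := by
        rw [ht, mul_div_assoc', div_le_div_iff₀ (lt_of_lt_of_le (by positivity) hsQ) hsD]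
        nlinarith
      have h3 : Real.exp (t * (2 / Real.sqrt Q)) ≤ Real.exp (32 / Real.sqrt D) :=
        Real.exp_le_exp.mpr h2
      have h4 := hD₁ D hDD₁
      have h5 : 8 / c * (Real.exp (t * (2 / Real.sqrt Q)) - 1) ≤ ε / 2 := by
        refine le_trans ?_ h4
        apply mul_le_mul_of_nonneg_left _ (by positivity)
        linarith
      calc 8 / c * P * (Real.exp (t * (2 / Real.sqrt Q)) - 1)
          = 8 / c * (Real.exp (t * (2 / Real.sqrt Q)) - 1) * P := by ring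
        _ ≤ ε / 2 * P := mul_le_mul_of_nonneg_right h5 hP0
    -- second error
    have hE2 : 2 * Real.sqrt (8 ^ (e + 1)) * Real.exp (t * ∑ q ∈ pr 0 w, 1 / (q : ℝ)) ≤ ε / 2 * P := by
      set Z : ℝ := (D * L) ^ (16 * K ^ 2) with hZ
      have hZ4 : Z ^ 4 ≤ 8 ^ e := by
        rw [hZ, ← pow_mul]
        refine le_trans (pow_le_pow_right₀ hDL1 ?_) hDL
        calc 16 * K ^ 2 * 4 = 64 * K ^ 2 := by ring
          _ ≤ D * K ^ 2 := Nat.mul_le_mul_right _ hD64
      have hE : Real.exp (t * ∑ q ∈ pr 0 w, 1 / (q : ℝ)) ≤ Z := by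
        have h2 : t * ∑ q ∈ pr 0 w, 1 / (q : ℝ) ≤ t * (Real.log L + C₂) :=
          mul_le_mul_of_nonneg_left (hC₂ w hw) ht0
        refine (Real.exp_le_exp.mpr h2).trans ?_
        have h3 : t * (Real.log L + C₂) = ((16 * K ^ 2 : ℕ) : ℝ) * (Real.log L + C₂) := by
          rw [ht]; push_cast; ring
        rw [h3, Real.exp_nat_mul, Real.exp_add, Real.exp_log (by linarith)]
        apply pow_le_pow_left₀ (by positivity)
        have h4 : Real.exp C₂ ≤ D := hD₂.trans (by exact_mod_cast hDD₂)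
        nlinarith
      have hZ0 : 0 ≤ Z := by positivity
      set sX := Real.sqrt ((8:ℝ) ^ (e + 1)) with hsX
      have hsX2 : sX * sX = 8 ^ (e + 1) := Real.mul_self_sqrt (by positivity)
      have hsX0 : 0 < sX := Real.sqrt_pos.mpr (by positivity)
      have hB : 4 * ((e : ℝ) + 1) / (ε * c) * Z ≤ sX := by
        apply le_of_pow_le_pow_left₀ (n := 4) (by norm_num) hsX0.le
        have h5 : sX ^ 4 = 64 * 8 ^ e * 8 ^ e := by
          have : sX ^ 4 = (sX * sX) * (sX * sX) := by ring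
          rw [this, hsX2, pow_succ]; ring
        rw [h5, mul_pow]
        exact mul_le_mul (he₁ e (by omega)) hZ4 (by positivity) (by positivity)
      have h6 : 2 * sX * Real.exp (t * ∑ q ∈ pr 0 w, 1 / (q : ℝ)) ≤ 2 * sX * Z :=
        mul_le_mul_of_nonneg_left hE (by positivity)
      have h7 : 2 * sX * Z ≤ ε / 2 * (c * 8 ^ (e + 1) / (e + 1)) := by
        have h8 : Z ≤ sX * (ε * c) / (4 * ((e : ℝ) + 1)) := by
          rw [le_div_iff₀ (by positivity)]
          rw [div_mul_eq_mul_div, div_le_iff₀ (by positivity)] at hB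
          linarith
        have h9 : 2 * sX * Z ≤ 2 * sX * (sX * (ε * c) / (4 * ((e : ℝ) + 1))) :=
          mul_le_mul_of_nonneg_left h8 (by positivity)
        refine h9.trans (le_of_eq ?_)
        rw [← hsX2]
        field_simp
        ring
      have h10 : ε / 2 * (c * 8 ^ (e + 1) / (e + 1)) ≤ ε / 2 * P :=
        mul_le_mul_of_nonneg_left hPe (by positivity)
      linarith
    linarith
  calc ∑ p' ∈ Ps, ∏ q ∈ pr Q w, (1 + 2 * (cc K q p p' : ℝ) / q)
      ≤ ∑ p' ∈ Ps, ∑ x ∈ nt1_S K, (1 / M) *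
        ∏ q ∈ pr Q w, (1 + if (q : ℤ) ∣ x.1 * p - x.2 * p' then t / (q : ℝ) else 0) :=
        Finset.sum_le_sum (fun p' _ => nt1_jensen K Q w p p' hK hQ8)
    _ = ∑ x ∈ nt1_S K, (1 / M) * ∑ p' ∈ Ps,
        ∏ q ∈ pr Q w, (1 + if (q : ℤ) ∣ x.1 * p - x.2 * p' then t / (q : ℝ) else 0) := by
        rw [Finset.sum_comm]
        apply Finset.sum_congr rfl
        intro x _
        rw [Finset.mul_sum]
    _ ≤ ∑ x ∈ nt1_S K, (1 / M) * ((1 + ε) * P) :=
        Finset.sum_le_sum (fun x hx => mul_le_mul_of_nonneg_left (hbound x hx) (by positivity))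
    _ = (1 + ε) * P := by
        rw [Finset.sum_const, nsmul_eq_mul, ← hM]; field_simp

end Pool.Agent.P2Gap.Nt1
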