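import Pool.Agent.P2Gap.Defs

set_option autoImplicit false

namespace Pool.Agent.P2Gap.Nt2

open Finset




theorem count_le (p d : ℕ) (hd : 0 < d) (c : ℤ) :
    ((((Finset.range p).filter fun a' : ℕ => (d : ℤ) ∣ c - (a' : ℤ)).card : ℕ) : ℝ) ≤ (p : ℝ) / d + 1 := by
  have h1 : ((Finset.range p).filter fun a' : ℕ => (d : ℤ) ∣ c - (a' : ℤ)).card ≤ #(Finset.range (p / d + 1)) := by
    apply Finset.card_le_card_of_injOn (fun a => a / d)
    · intro a ha
      have ha := Finset.mem_coe.1 ha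
      have h := Finset.mem_range.1 (Finset.mem_filter.1 ha).1
      apply Finset.mem_coe.2
      exact Finset.mem_range.2 (Nat.lt_succ_of_le (Nat.div_le_div_right h.le))
    · intro a ha b hb hab
      have ha' := (Finset.mem_filter.1 (Finset.mem_coe.1 ha)).2
      have hb' := (Finset.mem_filter.1 (Finset.mem_coe.1 hb)).2
      have h2 : (d : ℤ) ∣ (b : ℤ) - a := by
        have := dvd_sub ha' hb'
        have e : c - (a : ℤ) - (c - b) = b - a := by ring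
        rwa [e] at this
      have h3 : a % d = b % d := by
        have := (Int.modEq_iff_dvd.2 h2 : (a : ℤ) ≡ b [ZMOD d])
        have h4 : a ≡ b [MOD d] := (Int.natCast_modEq_iff).1 this
        exact h4
      have h5 : a / d = b / d := hab
      rw [← Nat.div_add_mod a d, ← Nat.div_add_mod b d, h3, h5]
  rw [Finset.card_range] at h1
  have h2 : ((((Finset.range p).filter fun a' : ℕ => (d : ℤ) ∣ c - (a' : ℤ)).card : ℕ) : ℝ) ≤ ((p / d + 1 : ℕ) : ℝ) := by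
    exact_mod_cast h1
  refine h2.trans ?_
  push_cast
  have := @Nat.cast_div_le ℝ _ _ _ p d
  linarith

theorem expand_le (S : Finset ℕ) (hS : ∀ q ∈ S, q.Prime) (t : ℝ) (ht : 0 ≤ t) (p : ℕ) (c : ℤ) :
    ∑ a' ∈ Finset.range p, ∏ q ∈ S, (1 + if (q : ℤ) ∣ c - (a' : ℤ) then t / (q : ℝ) else 0) ≤
      (p : ℝ) * ∏ q ∈ S, (1 + t / (q : ℝ) ^ 2) + ∏ q ∈ S, (1 + t / (q : ℝ)) := by
  classical
  simp only [Finset.prod_one_add]
  rw [Finset.sum_comm, Finset.mul_sum, ← Finset.sum_add_distrib]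
  apply Finset.sum_le_sum
  intro T hT
  have hTS := Finset.mem_powerset.1 hT
  have hc0 : 0 ≤ ∏ q ∈ T, t / (q : ℝ) := Finset.prod_nonneg fun q _ => by positivity
  have hd0 : 0 < ∏ q ∈ T, q := Finset.prod_pos fun q hq => (hS q (hTS hq)).pos
  have h1 : ∀ a' : ℕ, ∏ q ∈ T, (if (q : ℤ) ∣ c - (a' : ℤ) then t / (q : ℝ) else 0) ≤
      if ((∏ q ∈ T, q : ℕ) : ℤ) ∣ c - (a' : ℤ) then ∏ q ∈ T, t / (q : ℝ) else 0 := by
    intro a'
    by_cases hall : ∀ q ∈ T, (q : ℤ) ∣ c - (a' : ℤ)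
    · have hdv : ((∏ q ∈ T, q : ℕ) : ℤ) ∣ c - (a' : ℤ) := by
        push_cast
        apply Finset.prod_dvd_of_coprime
        · intro q hq q' hq' hne
          have h2 := (Nat.coprime_primes (hS q (hTS hq)) (hS q' (hTS hq'))).2 hne
          exact Nat.isCoprime_iff_coprime.2 h2
        · exact hall
      rw [if_pos hdv]
      apply le_of_eq
      exact Finset.prod_congr rfl fun q hq => if_pos (hall q hq)
    · push Not at hall
      obtain ⟨q, hq, hq'⟩ := hall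
      rw [Finset.prod_eq_zero hq (if_neg hq')]
      split_ifs
      · exact hc0
      · exact le_rfl
  refine (Finset.sum_le_sum fun a' _ => h1 a').trans ?_
  rw [← Finset.sum_filter, Finset.sum_const, nsmul_eq_mul]
  have h2 := count_le p (∏ q ∈ T, q) hd0 c
  refine (mul_le_mul_of_nonneg_right h2 hc0).trans (le_of_eq ?_)
  have h3 : ∏ q ∈ T, t / (q : ℝ) ^ 2 = (∏ q ∈ T, t / (q : ℝ)) / ((∏ q ∈ T, q : ℕ) : ℝ) := by
    push_cast
    rw [← Finset.prod_div_distrib]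
    apply Finset.prod_congr rfl
    intro q hq
    rw [div_div, sq]
  rw [h3]
  ring

theorem exp_le_two {y : ℝ} (h0 : 0 ≤ y) (h1 : y ≤ 1) : Real.exp y ≤ 1 + 2 * y := by
  have h := Real.abs_exp_sub_one_sub_id_le (x := y) (by rw [abs_of_nonneg h0]; exact h1)
  have h2 := (abs_le.1 h).2
  nlinarith

theorem jensen_le {ι : Type} (P : Finset ι) (hP : P.Nonempty) (S : Finset ℕ)
    (r : ι → ℕ → Prop) [∀ i q, Decidable (r i q)] (hS : ∀ q ∈ S, 2 * (#P : ℝ) / q ≤ 1) :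
    ∏ q ∈ S, (1 + 2 * ((#{i ∈ P | r i q} : ℕ) : ℝ) / q) ≤
      (1 / (#P : ℝ)) * ∑ i ∈ P, ∏ q ∈ S, (1 + if r i q then 4 * (#P : ℝ) / q else 0) := by
  classical
  have hM : (0 : ℝ) < #P := by exact_mod_cast hP.card_pos
  have h1 : ∏ q ∈ S, (1 + 2 * ((#{i ∈ P | r i q} : ℕ) : ℝ) / q) ≤
      Real.exp (∑ i ∈ P, ∑ q ∈ S, if r i q then 2 / (q : ℝ) else 0) := by
    rw [Finset.sum_comm, Real.exp_sum]
    apply Finset.prod_le_prod
    · intro q _; positivity
    · intro q _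
      have e : ∑ i ∈ P, (if r i q then 2 / (q : ℝ) else 0) =
          2 * ((#{i ∈ P | r i q} : ℕ) : ℝ) / q := by
        rw [← Finset.sum_filter, Finset.sum_const, nsmul_eq_mul]
        ring
      rw [e]
      have := Real.add_one_le_exp (2 * ((#{i ∈ P | r i q} : ℕ) : ℝ) / q)
      linarith
  refine h1.trans ?_
  have h2 := convexOn_exp.map_sum_le (t := P) (w := fun _ => 1 / (#P : ℝ))
    (p := fun i => (#P : ℝ) * ∑ q ∈ S, if r i q then 2 / (q : ℝ) else 0)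
    (fun i _ => by positivity) (by
      rw [Finset.sum_const, nsmul_eq_mul]; field_simp) (fun i _ => Set.mem_univ _)
  have e2 : ∑ i ∈ P, (1 / (#P : ℝ)) • ((#P : ℝ) * ∑ q ∈ S, if r i q then 2 / (q : ℝ) else 0) =
      ∑ i ∈ P, ∑ q ∈ S, if r i q then 2 / (q : ℝ) else 0 := by
    apply Finset.sum_congr rfl
    intro i _
    rw [smul_eq_mul]
    field_simp
  rw [e2] at h2
  refine h2.trans ?_
  rw [Finset.mul_sum]
  apply Finset.sum_le_sum
  intro i _
  rw [smul_eq_mul]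
  apply mul_le_mul_of_nonneg_left _ (by positivity)
  rw [Finset.mul_sum, Real.exp_sum]
  apply Finset.prod_le_prod
  · intro q _; positivity
  · intro q hq
    split_ifs with h
    · have h3 := exp_le_two (y := 2 * (#P : ℝ) / q) (by positivity) (hS q hq)
      have e3 : (#P : ℝ) * (2 / (q : ℝ)) = 2 * (#P : ℝ) / q := by ring
      have e4 : 4 * (#P : ℝ) / q = 2 * (2 * (#P : ℝ) / q) := by ring
      rw [e3, e4]
      exact h3
    · rw [mul_zero, Real.exp_zero, add_zero]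

theorem prod_le_exp (S : Finset ℕ) (f : ℕ → ℝ) (hf : ∀ q ∈ S, 0 ≤ f q) :
    ∏ q ∈ S, (1 + f q) ≤ Real.exp (∑ q ∈ S, f q) := by
  rw [Real.exp_sum]
  apply Finset.prod_le_prod
  · intro q hq; have := hf q hq; linarith
  · intro q _
    have := Real.add_one_le_exp (f q)
    linarith

theorem sum_sq_le (Q w : ℕ) (hQ : 0 < Q) : ∑ q ∈ pr Q w, 1 / (q : ℝ) ^ 2 ≤ 1 / (Q : ℝ) := by
  have h1 : ∑ q ∈ pr Q w, 1 / (q : ℝ) ^ 2 ≤ ∑ q ∈ Finset.Ioc Q w, 1 / (q : ℝ) ^ 2 :=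
    Finset.sum_le_sum_of_subset_of_nonneg (Finset.filter_subset _ _) fun _ _ _ => by positivity
  refine h1.trans ?_
  rcases le_total Q w with h | h
  · have h2 := sum_Ioc_inv_sq_le_sub (α := ℝ) hQ.ne' h
    have h3 : (0 : ℝ) ≤ (w : ℝ)⁻¹ := by positivity
    simp only [one_div]
    linarith
  · rw [Finset.Ioc_eq_empty (by omega), Finset.sum_empty]
    positivity

theorem nt2
    (hm : ∃ C₂ : ℝ, ∀ w : ℕ, 2 ≤ w → ∑ p ∈ pr 0 w, 1 / (p : ℝ) ≤ Real.log (Real.log w) + C₂) :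
    ∃ D₀ : ℕ, ∀ D : ℕ, D₀ ≤ D → ∀ K Q w e p a : ℕ, 1 ≤ K → D * K ^ 4 ≤ Q → 2 ≤ w → w < 8 ^ e →
      (D * Real.log w) ^ (D * K ^ 2) ≤ (8 : ℝ) ^ e → p.Prime → 8 ^ e < p → a < p →
        ∑ a' ∈ Finset.range p, ∏ q ∈ pr Q w, (1 + 2 * (dd K q p a a' : ℝ) / q) ≤ 3 * (p : ℝ) := by
  classical
  obtain ⟨C₂, hC⟩ := hm
  refine ⟨max 64 ⌈Real.exp C₂⌉₊, ?_⟩
  intro D hD K Q w e p a hK hQ hw hwe hDe _ hp _
  have hD64 : 64 ≤ D := (le_max_left _ _).trans hD
  have hDC : Real.exp C₂ ≤ D := (Nat.le_ceil _).trans (by exact_mod_cast (le_max_right _ _).trans hD)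
  have hD64' : (64 : ℝ) ≤ D := by exact_mod_cast hD64
  have hK1 : (1 : ℝ) ≤ K := by exact_mod_cast hK
  set M : ℝ := ((K : ℝ) + 1) ^ 2 with hMdef
  have hM0 : 0 < M := by positivity
  have hM4 : M ≤ 4 * (K : ℝ) ^ 2 := by rw [hMdef]; nlinarith
  have hQR : (D : ℝ) * (K : ℝ) ^ 2 ≤ Q := by
    have h1 : ((D * K ^ 4 : ℕ) : ℝ) ≤ Q := by exact_mod_cast hQ
    push_cast at h1
    have h2 : (K : ℝ) ^ 2 ≤ (K : ℝ) ^ 4 := pow_le_pow_right₀ hK1 (by norm_num)
    nlinarith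
  have hQ64 : 64 * (K : ℝ) ^ 2 ≤ Q := by nlinarith [sq_nonneg (K : ℝ)]
  have hK2 : (1 : ℝ) ≤ (K : ℝ) ^ 2 := by nlinarith
  have hQpos : 0 < Q := by
    have : (0 : ℝ) < Q := by linarith
    exact_mod_cast this
  set P : Finset (ℕ × ℕ) := Finset.range (K + 1) ×ˢ Finset.range (K + 1) with hPdef
  have hPc : (#P : ℝ) = M := by
    rw [hPdef, Finset.card_product, Finset.card_range, hMdef]
    push_cast
    ring
  have hPne : P.Nonempty := ⟨(0, 0), by rw [hPdef]; simp⟩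
  have hSprime : ∀ q ∈ pr Q w, q.Prime := fun q hq => (Finset.mem_filter.1 hq).2
  have hSQ : ∀ q ∈ pr Q w, (Q : ℝ) ≤ q := fun q hq => by
    exact_mod_cast (Finset.mem_Ioc.1 (Finset.mem_filter.1 hq).1).1.le
  -- Jensen
  have hJ : ∀ a' ∈ Finset.range p, ∏ q ∈ pr Q w, (1 + 2 * (dd K q p a a' : ℝ) / q) ≤
      (1 / M) * ∑ x ∈ P, ∏ q ∈ pr Q w, (1 + if (q : ℤ) ∣ ((a : ℤ) + x.1 * p - x.2 * p) - a' then
        4 * M / (q : ℝ) else 0) := by
    intro a' _
    have h := jensen_le P hPne (pr Q w)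
      (fun x q => (q : ℤ) ∣ ((a : ℤ) + x.1 * p) - (a' + x.2 * p)) (by
        intro q hq
        have hq1 := hSQ q hq
        have hq0 : (0 : ℝ) < q := by linarith
        rw [div_le_one hq0, hPc]
        linarith)
    rw [hPc] at h
    refine h.trans (le_of_eq ?_)
    congr 1
    apply Finset.sum_congr rfl
    intro x _
    apply Finset.prod_congr rfl
    intro q _
    have e1 : ((a : ℤ) + x.1 * p) - (a' + x.2 * p) = ((a : ℤ) + x.1 * p - x.2 * p) - a' := by ring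
    rw [e1]
  refine (Finset.sum_le_sum hJ).trans ?_
  rw [← Finset.mul_sum, Finset.sum_comm]
  set Z : ℝ := (p : ℝ) * ∏ q ∈ pr Q w, (1 + 4 * M / (q : ℝ) ^ 2) +
    ∏ q ∈ pr Q w, (1 + 4 * M / (q : ℝ)) with hZ
  have hE : ∀ x ∈ P, ∑ a' ∈ Finset.range p, ∏ q ∈ pr Q w,
      (1 + if (q : ℤ) ∣ ((a : ℤ) + x.1 * p - x.2 * p) - a' then 4 * M / (q : ℝ) else 0) ≤ Z :=
    fun x _ => expand_le (pr Q w) hSprime (4 * M) (by positivity) p _
  have h1 := mul_le_mul_of_nonneg_left (Finset.sum_le_sum hE) (by positivity : 0 ≤ 1 / M)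
  refine h1.trans ?_
  rw [Finset.sum_const, nsmul_eq_mul, hPc]
  have e1 : 1 / M * (M * Z) = Z := by field_simp
  rw [e1]
  -- first factor
  have hp0 : (0 : ℝ) ≤ p := by positivity
  have hA : ∏ q ∈ pr Q w, (1 + 4 * M / (q : ℝ) ^ 2) ≤ 3 / 2 := by
    refine (prod_le_exp _ _ fun q _ => by positivity).trans ?_
    have h2 : ∑ q ∈ pr Q w, 4 * M / (q : ℝ) ^ 2 ≤ 1 / 4 := by
      have e2 : ∑ q ∈ pr Q w, 4 * M / (q : ℝ) ^ 2 = 4 * M * ∑ q ∈ pr Q w, 1 / (q : ℝ) ^ 2 := by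
        rw [Finset.mul_sum]
        exact Finset.sum_congr rfl fun q _ => by ring
      rw [e2]
      have h3 := mul_le_mul_of_nonneg_left (sum_sq_le Q w hQpos) (by positivity : 0 ≤ 4 * M)
      refine h3.trans ?_
      have hQ0 : (0 : ℝ) < Q := by exact_mod_cast hQpos
      rw [mul_one_div, div_le_iff₀ hQ0]
      linarith
    have h3 : (0 : ℝ) ≤ ∑ q ∈ pr Q w, 4 * M / (q : ℝ) ^ 2 :=
      Finset.sum_nonneg fun q _ => by positivity
    have h4 := exp_le_two h3 (by linarith)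
    linarith
  -- second factor
  set B : ℝ := (D * Real.log w) ^ (16 * K ^ 2) with hB
  have hw2 : (2 : ℝ) ≤ w := by exact_mod_cast hw
  have hlogw : 1 / 2 ≤ Real.log w := by
    have h2 : Real.log 2 ≤ Real.log w := Real.log_le_log (by norm_num) hw2
    have h3 := Real.log_two_gt_d9
    linarith
  have hDlog : 1 ≤ (D : ℝ) * Real.log w := by nlinarith
  have hBp : ∏ q ∈ pr Q w, (1 + 4 * M / (q : ℝ)) ≤ B := by
    refine (prod_le_exp _ _ fun q _ => by positivity).trans ?_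
    have hsub : ∑ q ∈ pr Q w, 1 / (q : ℝ) ≤ Real.log (Real.log w) + C₂ := by
      refine le_trans ?_ (hC w hw)
      apply Finset.sum_le_sum_of_subset_of_nonneg
      · intro q hq
        have h2 := Finset.mem_filter.1 hq
        have h3 := Finset.mem_Ioc.1 h2.1
        exact Finset.mem_filter.2 ⟨Finset.mem_Ioc.2 ⟨by omega, h3.2⟩, h2.2⟩
      · intro _ _ _; positivity
    have hnn : (0 : ℝ) ≤ ∑ q ∈ pr Q w, 1 / (q : ℝ) := Finset.sum_nonneg fun q _ => by positivity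
    have h2 : ∑ q ∈ pr Q w, 4 * M / (q : ℝ) ≤
        ((16 * K ^ 2 : ℕ) : ℝ) * (Real.log (Real.log w) + C₂) := by
      have e2 : ∑ q ∈ pr Q w, 4 * M / (q : ℝ) = 4 * M * ∑ q ∈ pr Q w, 1 / (q : ℝ) := by
        rw [Finset.mul_sum]
        exact Finset.sum_congr rfl fun q _ => by ring
      rw [e2]
      push_cast
      apply mul_le_mul (by linarith) hsub hnn (by positivity)
    refine (Real.exp_le_exp.2 h2).trans ?_
    rw [Real.exp_nat_mul, Real.exp_add, Real.exp_log (by linarith), hB]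
    apply pow_le_pow_left₀ (by positivity)
    rw [mul_comm]
    exact mul_le_mul_of_nonneg_right hDC (by linarith)
  have hB4 : B ^ 4 ≤ (8 : ℝ) ^ e := by
    rw [hB, ← pow_mul]
    refine le_trans (pow_le_pow_right₀ hDlog ?_) hDe
    nlinarith [sq_nonneg K]
  have hp' : (8 : ℝ) ^ e < p := by exact_mod_cast hp
  have he1 : 1 ≤ e := by
    by_contra hcon
    have : e = 0 := by omega
    rw [this] at hwe
    omega
  have h8 : (8 : ℝ) ≤ (8 : ℝ) ^ e := by
    calc (8 : ℝ) = 8 ^ 1 := by norm_num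
      _ ≤ 8 ^ e := pow_le_pow_right₀ (by norm_num) he1
  have hBle : B ≤ p / 2 := by
    by_contra hcon
    push Not at hcon
    have hB4' : 4 ≤ B := by linarith
    have h3 : (4 : ℝ) ^ 3 ≤ B ^ 3 := pow_le_pow_left₀ (by norm_num) hB4' 3
    have h5 : B ^ 4 = B * B ^ 3 := by ring
    nlinarith
  rw [hZ]
  have h9 := mul_le_mul_of_nonneg_left hA hp0
  linarith

end Pool.Agent.P2Gap.Nt2
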