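import Pool.Agent.P2Gap.Defs

set_option autoImplicit false

namespace Pool.Agent.P2Gap.Red

open Finset



theorem reduction (H : ∀ C : ℕ, ∃ z y : ℕ, 1 ≤ z ∧ C * z ≤ y ∧ DoubleCover z y) :
    ∀ M : ℝ, ∀ K : ℕ, ∃ k : ℕ, K ≤ k ∧ 1 ≤ k ∧
      ((Nat.nth (fun n : ℕ => 0 < n ∧ n.primeFactorsList.length ≤ 2) k : ℕ) : ℝ)
        - ((Nat.nth (fun n : ℕ => 0 < n ∧ n.primeFactorsList.length ≤ 2) (k - 1) : ℕ) : ℝ)
        > M * Real.log (k : ℝ) := by
  classical
  intro M K
  set pred : ℕ → Prop := fun n : ℕ => 0 < n ∧ n.primeFactorsList.length ≤ 2 with hpred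
  have hinf : (Set.ofPred pred).Infinite := by
    refine Set.Infinite.mono ?_ Nat.infinite_setOfPred_prime
    intro p hp
    have hp' : p.Prime := hp
    refine ⟨hp'.pos, ?_⟩
    rw [Nat.primeFactorsList_prime hp']
    simp
  set N0 : ℕ := Nat.nth pred K + 4 with hN0
  set c : ℝ := 5 + Real.log (2 * N0) with hc
  have hN0r : (4:ℝ) ≤ N0 := by rw [hN0]; push_cast; linarith [(Nat.cast_nonneg (Nat.nth pred K) : (0:ℝ) ≤ _)]
  have hlogN0 : 0 ≤ Real.log (2 * N0) := Real.log_nonneg (by linarith)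
  obtain ⟨C, hC⟩ := exists_nat_ge (|M| * c)
  obtain ⟨z, y, hz1, hCz, a, hcov⟩ := H C
  have hprime : ∀ p ∈ pr 0 z, p.Prime := fun p hp => (Finset.mem_filter.1 hp).2
  have hple : ∀ p ∈ pr 0 z, p ≤ z := fun p hp => (Finset.mem_Ioc.1 (Finset.mem_filter.1 hp).1).2
  set P : ℕ := ∏ p ∈ pr 0 z, p with hP
  have hPle : P ≤ 4 ^ z := by
    refine le_trans (le_of_eq ?_) (primorial_le_four_pow z)
    rw [hP, primorial]
    apply Finset.prod_congr _ (fun _ _ => rfl)
    ext p
    simp only [Finset.mem_filter, Finset.mem_Ioc, Finset.mem_range]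
    constructor
    · rintro ⟨⟨_, h2⟩, h3⟩; exact ⟨by omega, h3⟩
    · rintro ⟨h1, h3⟩; exact ⟨⟨h3.pos, by omega⟩, h3⟩
  have hPpos : 0 < P := Finset.prod_pos fun p hp => (hprime p hp).pos
  have hs : ∀ i ∈ pr 0 z, (fun p : ℕ => p) i ≠ 0 := fun i hi => (hprime i hi).ne_zero
  have hpp : Set.Pairwise (pr 0 z : Set ℕ) (Function.onFun Nat.Coprime (fun p : ℕ => p)) := by
    intro p hp q hq hpq
    exact (Nat.coprime_primes (hprime p hp) (hprime q hq)).2 hpq
  obtain ⟨x, hx⟩ : ∃ x : ℕ, x < P ∧ ∀ p ∈ pr 0 z, x ≡ (p - a p % p) [MOD p] :=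
    ⟨Nat.chineseRemainderOfFinset (fun p => p - a p % p) (fun p => p) (pr 0 z) hs hpp,
      Nat.chineseRemainderOfFinset_lt_prod (fun p => p - a p % p) (fun p => p) hs hpp,
      (Nat.chineseRemainderOfFinset (fun p => p - a p % p) (fun p => p) (pr 0 z) hs hpp).2⟩
  obtain ⟨hxP, hx⟩ := hx
  have hxa : ∀ p ∈ pr 0 z, p ∣ x + a p := by
    intro p hp
    have h1 := hx p hp
    have hp0 := (hprime p hp).pos
    have h2 : x + a p ≡ (p - a p % p) + a p [MOD p] := Nat.ModEq.add_right _ h1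
    have h3 : (p - a p % p) + a p ≡ 0 [MOD p] := by
      have h4 : a p ≡ a p % p [MOD p] := (Nat.mod_modEq _ _).symm
      have h5 : (p - a p % p) + a p ≡ (p - a p % p) + a p % p [MOD p] := Nat.ModEq.add_left _ h4
      have h6 : (p - a p % p) + a p % p = p := Nat.sub_add_cancel (Nat.mod_lt _ hp0).le
      rw [h6] at h5
      exact h5.trans (by simp [Nat.ModEq])
    exact (Nat.modEq_zero_iff_dvd).1 (h2.trans h3)
  set X : ℕ := x + P * (4 ^ z * N0) with hX
  have h4z : z * z + 1 ≤ 4 ^ z := by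
    have h1 : z < 2 ^ z := Nat.lt_two_pow_self
    have h2 : (4:ℕ) ^ z = 2 ^ z * 2 ^ z := by
      rw [← mul_pow]; norm_num
    rw [h2]; nlinarith
  have hXlow : 4 ^ z * N0 ≤ X := by
    rw [hX]
    calc 4 ^ z * N0 ≤ P * (4 ^ z * N0) := Nat.le_mul_of_pos_left _ hPpos
      _ ≤ _ := Nat.le_add_left _ _
  have hN0pos : 4 ≤ N0 := by rw [hN0]; omega
  have hXz : z * z + 1 ≤ X := by
    calc z * z + 1 ≤ 4 ^ z := h4z
      _ ≤ 4 ^ z * N0 := Nat.le_mul_of_pos_right _ (by omega)
      _ ≤ X := hXlow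
  have hXN0 : N0 ≤ X := by
    calc N0 ≤ 4 ^ z * N0 := Nat.le_mul_of_pos_left _ (by positivity)
      _ ≤ X := hXlow
  have hXup : X + 1 ≤ 2 * N0 * 16 ^ z := by
    have h1 : X < P + P * (4 ^ z * N0) := by rw [hX]; omega
    have h2 : P + P * (4 ^ z * N0) ≤ 4 ^ z + 4 ^ z * (4 ^ z * N0) := by
      gcongr
    have h3 : 4 ^ z ≤ 4 ^ z * (4 ^ z * N0) := by
      apply Nat.le_mul_of_pos_right
      positivity
    have h4 : (16:ℕ) ^ z = 4 ^ z * 4 ^ z := by rw [← mul_pow]; norm_num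
    rw [h4]
    nlinarith
  -- the numbers X + n
  have hbad : ∀ n, 1 ≤ n → n ≤ y → ¬ pred (X + n) := by
    intro n hn1 hny hpr
    have h1 := hcov n (Finset.mem_Icc.2 ⟨hn1, hny⟩)
    have h2 : 1 < #{p ∈ pr 0 z | n ≡ a p [MOD p]} := h1
    rw [Finset.one_lt_card] at h2
    obtain ⟨p, hp, q, hq, hpq⟩ := h2
    rw [Finset.mem_filter] at hp hq
    have hdvd : ∀ r ∈ pr 0 z, n ≡ a r [MOD r] → r ∣ X + n := by
      intro r hr hnr
      have h3 : r ∣ P := Finset.dvd_prod_of_mem _ hr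
      have h4 : r ∣ x + n := by
        have h5 : x + n ≡ x + a r [MOD r] := Nat.ModEq.add_left _ hnr
        exact (Nat.modEq_zero_iff_dvd).1 (h5.trans ((Nat.modEq_zero_iff_dvd).2 (hxa r hr)))
      have h6 : X + n = (x + n) + P * (4 ^ z * N0) := by rw [hX]; ring
      rw [h6]
      exact dvd_add h4 (h3.mul_right _)
    have hpd := hdvd p hp.1 hp.2
    have hqd := hdvd q hq.1 hq.2
    have hcop : Nat.Coprime p q := (Nat.coprime_primes (hprime p hp.1) (hprime q hq.1)).2 hpq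
    obtain ⟨m, hm⟩ := hcop.mul_dvd_of_dvd_of_dvd hpd hqd
    have hpz := hple p hp.1
    have hqz := hple q hq.1
    have hpqz : p * q ≤ z * z := Nat.mul_le_mul hpz hqz
    have hm1 : 1 < m := by
      by_contra hcon
      have hm' : m ≤ 1 := not_lt.1 hcon
      have : p * q * m ≤ p * q * 1 := Nat.mul_le_mul_left _ hm'
      rw [← hm] at this
      omega
    have hΩ : ArithmeticFunction.cardFactors (X + n) =
        1 + 1 + ArithmeticFunction.cardFactors m := by
      rw [hm, ArithmeticFunction.cardFactors_mul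
        (Nat.mul_ne_zero (hprime p hp.1).ne_zero (hprime q hq.1).ne_zero) (by omega),
        ArithmeticFunction.cardFactors_mul (hprime p hp.1).ne_zero (hprime q hq.1).ne_zero,
        ArithmeticFunction.cardFactors_apply_prime (hprime p hp.1),
        ArithmeticFunction.cardFactors_apply_prime (hprime q hq.1)]
    have hΩm : 0 < ArithmeticFunction.cardFactors m :=
      ArithmeticFunction.cardFactors_pos_iff_one_lt.2 hm1
    have h7 := hpr.2
    rw [← ArithmeticFunction.cardFactors_apply, hΩ] at h7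
    omega
  set k : ℕ := Nat.count pred (X + 1) with hk
  have hKk : K < k := by
    rw [hk, Nat.lt_nth_iff_count_lt hinf]
    have : Nat.nth pred K < N0 := by rw [hN0]; omega
    omega
  have hk1 : k - 1 < Nat.count pred (X + 1) := by rw [← hk]; omega
  have hprev : Nat.nth pred (k - 1) ≤ X := Nat.lt_succ_iff.1 (Nat.nth_lt_of_lt_count hk1)
  have hnext0 : X + 1 ≤ Nat.nth pred k := Nat.le_nth_count hinf (X + 1)
  have hnext : X + y + 1 ≤ Nat.nth pred k := by
    by_contra hcon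
    have hlt : Nat.nth pred k < X + y + 1 := not_le.1 hcon
    obtain ⟨n, hn⟩ := Nat.exists_eq_add_of_le hnext0
    have hn' : Nat.nth pred k = X + (1 + n) := by rw [hn]; ring
    have := Nat.nth_mem_of_infinite hinf k
    rw [hn'] at this hlt
    exact hbad (1 + n) (by omega) (by omega) this
  refine ⟨k, hKk.le, by omega, ?_⟩
  have hgap : (C:ℝ) * z + 1 ≤ (Nat.nth pred k : ℝ) - (Nat.nth pred (k - 1) : ℝ) := by
    have h1 : ((X + y + 1 : ℕ) : ℝ) ≤ (Nat.nth pred k : ℝ) := by exact_mod_cast hnext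
    have h2 : (Nat.nth pred (k - 1) : ℝ) ≤ (X : ℝ) := by exact_mod_cast hprev
    have h3 : ((C * z : ℕ) : ℝ) ≤ (y : ℝ) := by exact_mod_cast hCz
    push_cast at h1 h3
    linarith
  have hkX : k ≤ X + 1 := Nat.count_le _
  have hk0 : (0:ℝ) < k := by
    have : 0 < k := by omega
    exact_mod_cast this
  have hlogk : Real.log k ≤ z * c := by
    have h1 : (k:ℝ) ≤ 2 * N0 * 16 ^ z := by
      have : k ≤ 2 * N0 * 16 ^ z := hkX.trans hXup
      exact_mod_cast this
    have h2 : Real.log k ≤ Real.log (2 * N0 * 16 ^ z) := Real.log_le_log hk0 h1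
    have h3 : Real.log (2 * N0 * 16 ^ z) = Real.log (2 * N0) + z * Real.log 16 := by
      rw [Real.log_mul (by positivity) (by positivity), Real.log_pow]
    have h4 : Real.log 16 ≤ 5 := by
      have h5 : Real.log 16 = 4 * Real.log 2 := by
        rw [show (16:ℝ) = 2 ^ 4 by norm_num, Real.log_pow]; norm_num
      rw [h5]
      have := Real.log_two_lt_d9
      linarith
    have hz1' : (1:ℝ) ≤ z := by exact_mod_cast hz1
    rw [h3] at h2
    rw [hc]
    nlinarith
  have hlogk0 : 0 ≤ Real.log k := Real.log_natCast_nonneg k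
  have hfin : M * Real.log k ≤ C * z := by
    calc M * Real.log k ≤ |M| * Real.log k := mul_le_mul_of_nonneg_right (le_abs_self M) hlogk0
      _ ≤ |M| * (z * c) := mul_le_mul_of_nonneg_left hlogk (abs_nonneg M)
      _ = (|M| * c) * z := by ring
      _ ≤ C * z := mul_le_mul_of_nonneg_right hC (by positivity)
  linarith

end Pool.Agent.P2Gap.Red
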