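import Pool.Agent.P2Gap.Defs

set_option autoImplicit false

namespace Pool.Agent.P2Gap.Smooth

open Finset



lemma sum_small : ∃ C : ℝ, 0 ≤ C ∧ ∀ N : ℕ, ∑ p ∈ pr 0 N, Real.log p / (p * (p - 1)) ≤ C := by
  have hs : Summable (fun n : ℕ => 4 / (n : ℝ) ^ (3 / 2 : ℝ)) := by
    have := Real.summable_nat_rpow_inv (p := (3 / 2 : ℝ)).2 (by norm_num)
    have h2 := this.mul_left 4
    exact h2.congr fun n => (div_eq_mul_inv _ _).symm
  refine ⟨∑' n : ℕ, 4 / (n : ℝ) ^ (3 / 2 : ℝ), tsum_nonneg fun n => by positivity, fun N => ?_⟩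
  refine le_trans ?_ (hs.sum_le_tsum (pr 0 N) fun n _ => by positivity)
  refine Finset.sum_le_sum fun p hp => ?_
  rw [Finset.mem_filter] at hp
  have h2 : (2 : ℝ) ≤ p := by exact_mod_cast hp.2.two_le
  have hp0 : (0 : ℝ) < p := by linarith
  have hlog : Real.log p ≤ 2 * (p : ℝ) ^ (1 / 2 : ℝ) := by
    have := Real.log_le_rpow_div hp0.le (ε := 1 / 2) (by norm_num)
    linarith
  rw [div_le_div_iff₀ (by nlinarith) (by positivity)]
  have h3 : (p : ℝ) ^ (1 / 2 : ℝ) * (p : ℝ) ^ (3 / 2 : ℝ) = p ^ 2 := by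
    rw [← Real.rpow_add hp0]; norm_num
  have h4 : 0 < (p : ℝ) ^ (3 / 2 : ℝ) := by positivity
  calc Real.log p * (p : ℝ) ^ (3 / 2 : ℝ) ≤ 2 * (p : ℝ) ^ (1 / 2 : ℝ) * (p : ℝ) ^ (3 / 2 : ℝ) :=
        mul_le_mul_of_nonneg_right hlog h4.le
    _ = 2 * p ^ 2 := by rw [mul_assoc, h3]
    _ ≤ 4 * (p * (p - 1)) := by nlinarith

lemma sm_step (q w x : ℕ) (hq : q.Prime) (hqw : q ≤ w) :
    ∑ n ∈ sm w x, n.factorization q = ∑ m ∈ sm w (x / q), (1 + m.factorization q) := by
  have hq0 : 0 < q := hq.pos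
  have h1 : (sm w (x / q)).image (fun m => q * m) ⊆ sm w x := by
    intro n hn
    obtain ⟨m, hm, rfl⟩ := Finset.mem_image.mp hn
    rw [Finset.mem_filter, Finset.mem_Icc] at hm ⊢
    obtain ⟨⟨hm1, hm2⟩, hm3⟩ := hm
    refine ⟨⟨?_, ?_⟩, ?_⟩
    · exact Nat.mul_pos hq0 hm1
    · have := (Nat.le_div_iff_mul_le hq0).mp hm2
      rwa [mul_comm] at this
    · intro p hp
      rw [Nat.primeFactors_mul hq0.ne' (by omega), Finset.mem_union] at hp
      rcases hp with hp | hp
      · rw [Nat.Prime.primeFactors hq, Finset.mem_singleton] at hp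
        rw [hp]; exact hqw
      · exact hm3 p hp
  rw [← Finset.sum_subset h1, Finset.sum_image]
  · apply Finset.sum_congr rfl
    intro m hm
    rw [Finset.mem_filter, Finset.mem_Icc] at hm
    rw [Nat.factorization_mul hq0.ne' (by omega), Finsupp.add_apply, hq.factorization_self]
  · intro a _ b _ hab
    exact Nat.eq_of_mul_eq_mul_left hq0 hab
  · intro n hn hn2
    apply Nat.factorization_eq_zero_of_not_dvd
    rintro ⟨m, rfl⟩
    apply hn2
    rw [Finset.mem_filter, Finset.mem_Icc] at hn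
    obtain ⟨⟨hm1, hm2⟩, hm3⟩ := hn
    have hm0 : 0 < m := Nat.pos_of_mul_pos_left hm1 |> fun h => by
      rcases Nat.eq_zero_or_pos m with h0 | h0
      · subst h0; simp at hm1
      · exact h0
    apply Finset.mem_image.mpr
    refine ⟨m, ?_, rfl⟩
    rw [Finset.mem_filter, Finset.mem_Icc]
    refine ⟨⟨hm0, ?_⟩, ?_⟩
    · rw [Nat.le_div_iff_mul_le hq0, mul_comm]; exact hm2
    · intro p hp
      apply hm3
      rw [Nat.primeFactors_mul hq0.ne' hm0.ne', Finset.mem_union]
      exact Or.inr hp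

lemma card_sm_le (w x : ℕ) : #(sm w x) ≤ x := by
  refine le_trans (Finset.card_filter_le _ _) ?_
  rw [Nat.card_Icc]; omega

lemma H_le (q w : ℕ) (hq : q.Prime) (hqw : q ≤ w) (x : ℕ) :
    ((∑ n ∈ sm w x, n.factorization q : ℕ) : ℝ) ≤ x / (q - 1) := by
  have hq2 : (2 : ℝ) ≤ q := by exact_mod_cast hq.two_le
  induction x using Nat.strong_induction_on with
  | _ x ih =>
    rcases Nat.eq_zero_or_pos x with hx | hx
    · subst hx
      have h0 : sm w 0 = ∅ := by
        unfold sm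
        rw [Finset.Icc_eq_empty (by norm_num), Finset.filter_empty]
      rw [h0]
      simp
    · rw [sm_step q w x hq hqw, Finset.sum_add_distrib]
      have h1 := ih (x / q) (Nat.div_lt_self hx hq.one_lt)
      have h2 : (#(sm w (x / q)) : ℝ) ≤ ((x / q : ℕ) : ℝ) := by exact_mod_cast card_sm_le w (x / q)
      have h3 : ((x / q : ℕ) : ℝ) ≤ (x : ℝ) / q := Nat.cast_div_le
      have hsum : ((∑ m ∈ sm w (x / q), 1 + ∑ m ∈ sm w (x / q), m.factorization q : ℕ) : ℝ) =
          (#(sm w (x / q)) : ℝ) + ((∑ m ∈ sm w (x / q), m.factorization q : ℕ) : ℝ) := by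
        rw [Nat.cast_add, Finset.sum_const, smul_eq_mul, mul_one]
      rw [hsum]
      have hq1 : (0 : ℝ) < q - 1 := by linarith
      calc (#(sm w (x / q)) : ℝ) + ((∑ m ∈ sm w (x / q), m.factorization q : ℕ) : ℝ) ≤
          ((x / q : ℕ) : ℝ) + ((x / q : ℕ) : ℝ) / (q - 1) := add_le_add h2 h1
        _ = ((x / q : ℕ) : ℝ) * (q / (q - 1)) := by field_simp; ring
        _ ≤ (x : ℝ) / q * (q / (q - 1)) := mul_le_mul_of_nonneg_right h3 (by positivity)
        _ = x / (q - 1) := by field_simp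

lemma log_eq (w x n : ℕ) (hn : n ∈ sm w x) :
    Real.log n = ∑ q ∈ pr 0 w, (n.factorization q : ℝ) * Real.log q := by
  rw [Real.log_nat_eq_sum_factorization, Finsupp.sum]
  rw [Finset.mem_filter, Finset.mem_Icc] at hn
  have h1 : n.factorization.support ⊆ pr 0 w := by
    intro p hp
    rw [Nat.support_factorization] at hp
    have hpp := Nat.prime_of_mem_primeFactors hp
    rw [Finset.mem_filter, Finset.mem_Ioc]
    exact ⟨⟨hpp.pos, hn.2 p hp⟩, hpp⟩
  refine Finset.sum_subset h1 fun p _ hp => ?_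
  rw [Finsupp.notMem_support_iff] at hp
  rw [hp]; simp

lemma T_eq (w x : ℕ) : ∑ n ∈ sm w x, Real.log n =
    ∑ q ∈ pr 0 w, Real.log q * ((∑ n ∈ sm w x, n.factorization q : ℕ) : ℝ) := by
  rw [Finset.sum_congr rfl (fun n hn => log_eq w x n hn), Finset.sum_comm]
  apply Finset.sum_congr rfl
  intro q _
  rw [Nat.cast_sum, Finset.mul_sum]
  apply Finset.sum_congr rfl
  intro n _
  ring

lemma T_upper (C₀ C₁ : ℝ) (w x : ℕ) (e : ℝ) (he : 0 ≤ e)
    (h1 : ∑ p ∈ pr 0 w, Real.log p / p ≤ Real.log w + C₁)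
    (h0 : ∑ p ∈ pr 0 w, Real.log p / (p * (p - 1)) ≤ C₀)
    (hS : ∀ q ∈ pr 0 w, (#(sm w (x / q)) : ℝ) ≤ ((x / q : ℕ) : ℝ) * e) :
    ∑ n ∈ sm w x, Real.log n ≤ x * e * (Real.log w + C₁) + C₀ * x := by
  rw [T_eq]
  have hx : (0 : ℝ) ≤ x := Nat.cast_nonneg x
  have hb : ∀ q ∈ pr 0 w, Real.log q * ((∑ n ∈ sm w x, n.factorization q : ℕ) : ℝ) ≤
      x * e * (Real.log q / q) + x * (Real.log q / (q * (q - 1))) := by
    intro q hq
    have hq' := hq
    rw [Finset.mem_filter, Finset.mem_Ioc] at hq'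
    obtain ⟨⟨_, hqw⟩, hqp⟩ := hq'
    have hq2 : (2 : ℝ) ≤ q := by exact_mod_cast hqp.two_le
    have hlog : 0 ≤ Real.log q := Real.log_nonneg (by linarith)
    rw [sm_step q w x hqp hqw, Finset.sum_add_distrib, Nat.cast_add, Finset.sum_const,
      smul_eq_mul, mul_one]
    have h2 := hS q hq
    have h3 : ((x / q : ℕ) : ℝ) ≤ (x : ℝ) / q := Nat.cast_div_le
    have h4 := H_le q w hqp hqw (x / q)
    have hq1 : (0 : ℝ) < q - 1 := by linarith
    have h5 : ((x / q : ℕ) : ℝ) / (q - 1) ≤ (x : ℝ) / q / (q - 1) :=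
      div_le_div_of_nonneg_right h3 hq1.le
    have h6 : ((x / q : ℕ) : ℝ) * e ≤ (x : ℝ) / q * e := mul_le_mul_of_nonneg_right h3 he
    have h7 : (#(sm w (x / q)) : ℝ) + ((∑ m ∈ sm w (x / q), m.factorization q : ℕ) : ℝ) ≤
        (x : ℝ) / q * e + (x : ℝ) / q / (q - 1) := by linarith
    calc Real.log q * ((#(sm w (x / q)) : ℝ) +
          ((∑ m ∈ sm w (x / q), m.factorization q : ℕ) : ℝ)) ≤
          Real.log q * ((x : ℝ) / q * e + (x : ℝ) / q / (q - 1)) :=
          mul_le_mul_of_nonneg_left h7 hlog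
      _ = x * e * (Real.log q / q) + x * (Real.log q / (q * (q - 1))) := by
          field_simp
  refine le_trans (Finset.sum_le_sum hb) ?_
  rw [Finset.sum_add_distrib, ← Finset.mul_sum, ← Finset.mul_sum]
  have h2 : x * e * ∑ p ∈ pr 0 w, Real.log p / p ≤ x * e * (Real.log w + C₁) :=
    mul_le_mul_of_nonneg_left h1 (by positivity)
  have h3 : (x : ℝ) * ∑ p ∈ pr 0 w, Real.log p / (p * (p - 1)) ≤ x * C₀ :=
    mul_le_mul_of_nonneg_left h0 hx
  linarith

lemma T_lower (w x : ℕ) (hx : 1 ≤ x) :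
    1 / 2 * Real.log x * ((#(sm w x) : ℝ) - √x) ≤ ∑ n ∈ sm w x, Real.log n := by
  have hx1 : (1 : ℝ) ≤ x := by exact_mod_cast hx
  have hlx : 0 ≤ Real.log x := Real.log_nonneg hx1
  set A := (sm w x).filter (fun n => x < n * n) with hA
  have hAc : (#(sm w x) : ℝ) ≤ #A + √x := by
    have h1 : sm w x ⊆ A ∪ Finset.Icc 1 (Nat.sqrt x) := by
      intro n hn
      by_cases h : x < n * n
      · exact Finset.mem_union_left _ (Finset.mem_filter.mpr ⟨hn, h⟩)
      · apply Finset.mem_union_right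
        rw [Finset.mem_filter, Finset.mem_Icc] at hn
        rw [Finset.mem_Icc]
        exact ⟨hn.1.1, Nat.le_sqrt.mpr (not_lt.mp h)⟩
    have h2 := le_trans (Finset.card_le_card h1) (Finset.card_union_le _ _)
    rw [Nat.card_Icc, Nat.add_sub_cancel] at h2
    have h3 : ((Nat.sqrt x : ℕ) : ℝ) ≤ √x := Real.nat_sqrt_le_real_sqrt
    have h4 : (#(sm w x) : ℝ) ≤ #A + (Nat.sqrt x : ℕ) := by exact_mod_cast h2
    linarith
  have h5 : ∑ n ∈ A, Real.log n ≤ ∑ n ∈ sm w x, Real.log n := by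
    apply Finset.sum_le_sum_of_subset_of_nonneg (Finset.filter_subset _ _)
    intro n hn _
    rw [Finset.mem_filter, Finset.mem_Icc] at hn
    exact Real.log_nonneg (by exact_mod_cast hn.1.1)
  refine le_trans ?_ h5
  have h6 : ∀ n ∈ A, 1 / 2 * Real.log x ≤ Real.log n := by
    intro n hn
    rw [hA, Finset.mem_filter, Finset.mem_filter, Finset.mem_Icc] at hn
    have hn1 : (1 : ℝ) ≤ n := by exact_mod_cast hn.1.1.1
    have hn2 : (x : ℝ) ≤ (n : ℝ) * n := by exact_mod_cast hn.2.le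
    have h7 : Real.log x ≤ Real.log ((n : ℝ) * n) := Real.log_le_log (by linarith) hn2
    rw [Real.log_mul (by linarith) (by linarith)] at h7
    linarith
  have h8 := Finset.card_nsmul_le_sum A (fun n : ℕ => Real.log n) (1 / 2 * Real.log x) h6
  rw [nsmul_eq_mul] at h8
  have h9 : 1 / 2 * Real.log x * ((#(sm w x) : ℝ) - √x) ≤ 1 / 2 * Real.log x * #A :=
    mul_le_mul_of_nonneg_left (by linarith) (by positivity)
  linarith

theorem smooth_bound (C₁ : ℝ)
    (h : ∀ N : ℕ, 1 ≤ N → ∑ p ∈ pr 0 N, Real.log p / p ≤ Real.log N + C₁) :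
    ∃ C : ℝ, 0 < C ∧ ∀ U k w x : ℕ, C ≤ U → 2 ≤ w → w ^ (U + k) ≤ x →
      (#(sm w x) : ℝ) ≤ x * ((C / U) ^ k + C * k / Real.log w) := by
  obtain ⟨C₀, hC₀, h0⟩ := sum_small
  have hl2 : 0 < Real.log 2 := Real.log_pos (by norm_num)
  set K₁ : ℝ := 1 + |C₁| / Real.log 2 with hK₁
  have hK₁1 : 1 ≤ K₁ := by
    have : 0 ≤ |C₁| / Real.log 2 := by positivity
    linarith
  set C : ℝ := 2 * K₁ + 2 * C₀ + 1 with hC
  have hC1 : 1 ≤ C := by linarith
  refine ⟨C, by linarith, ?_⟩
  intro U k w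
  induction k with
  | zero =>
    intro x _ _ _
    simp only [pow_zero, Nat.cast_zero, mul_zero, zero_div, add_zero, mul_one]
    exact_mod_cast card_sm_le w x
  | succ k ih =>
    intro x hU hw hx
    have hU1 : (1 : ℝ) ≤ U := by linarith
    have hU1' : 1 ≤ U := by exact_mod_cast hU1
    have hw2 : (2 : ℝ) ≤ w := by exact_mod_cast hw
    have hL : Real.log 2 ≤ Real.log w := Real.log_le_log (by norm_num) hw2
    have hLpos : 0 < Real.log w := by linarith
    have hw0 : 0 < w := by omega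
    have hxpos : 1 ≤ x := le_trans (Nat.one_le_pow _ _ hw0) hx
    have hx1 : (1 : ℝ) ≤ x := by exact_mod_cast hxpos
    set L := Real.log w with hLdef
    set e : ℝ := (C / U) ^ k + C * k / L with he
    have hCU : 0 ≤ C / U := by positivity
    have hCU1 : C / U ≤ 1 := by rw [div_le_one (by linarith)]; exact hU
    have hkn : (0 : ℝ) ≤ k := Nat.cast_nonneg k
    have he0 : 0 ≤ e := by positivity
    have hS : ∀ q ∈ pr 0 w, (#(sm w (x / q)) : ℝ) ≤ ((x / q : ℕ) : ℝ) * e := by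
      intro q hq
      rw [Finset.mem_filter, Finset.mem_Ioc] at hq
      apply ih (x / q) hU hw
      rw [Nat.le_div_iff_mul_le hq.2.pos]
      calc w ^ (U + k) * q ≤ w ^ (U + k) * w := Nat.mul_le_mul_left _ hq.1.2
        _ = w ^ (U + (k + 1)) := by rw [← pow_succ]; rfl
        _ ≤ x := hx
    have hup := T_upper C₀ C₁ w x e he0 (h w (by omega)) (h0 w) hS
    have hlow := T_lower w x hxpos
    have hT : 1 / 2 * Real.log x * ((#(sm w x) : ℝ) - √x) ≤ x * e * (L + C₁) + C₀ * x :=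
      le_trans hlow hup
    have hlogx : U * L ≤ Real.log x := by
      have h1 : (w : ℝ) ^ (U + (k + 1)) ≤ x := by exact_mod_cast hx
      have h2 := Real.log_le_log (by positivity) h1
      rw [Real.log_pow] at h2
      push_cast at h2
      have h3 : (U : ℝ) * L ≤ (U + (k + 1)) * L := by nlinarith
      linarith
    have hUL : 0 < U * L := by positivity
    -- sqrt x ≤ x / w ≤ x / L
    have hsq : √(x : ℝ) ≤ x / L := by
      have hLw : L ≤ √(x : ℝ) := by
        have h1 : L ≤ w := by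
          have := Real.log_le_sub_one_of_pos (show (0 : ℝ) < w by linarith)
          linarith
        have h2 : (w : ℝ) ≤ √(x : ℝ) := by
          apply Real.le_sqrt_of_sq_le
          have h3 : w ^ 2 ≤ x := le_trans (Nat.pow_le_pow_right hw0 (by omega)) hx
          exact_mod_cast h3
        linarith
      rw [le_div_iff₀ hLpos]
      have h4 : √(x : ℝ) * √(x : ℝ) = x := Real.mul_self_sqrt (by linarith)
      calc √(x : ℝ) * L ≤ √(x : ℝ) * √(x : ℝ) :=
            mul_le_mul_of_nonneg_left hLw (Real.sqrt_nonneg _)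
        _ = x := h4
    have hx0 : (0 : ℝ) ≤ x := by linarith
    -- bound the numerator
    have hK : L + C₁ ≤ K₁ * L := by
      have h1 : C₁ ≤ |C₁| / Real.log 2 * L := by
        have h2 : |C₁| / Real.log 2 * Real.log 2 ≤ |C₁| / Real.log 2 * L :=
          mul_le_mul_of_nonneg_left hL (by positivity)
        rw [div_mul_cancel₀ _ hl2.ne'] at h2
        exact le_trans (le_abs_self _) h2
      rw [hK₁]; linarith
    have hT2 : 1 / 2 * Real.log x * ((#(sm w x) : ℝ) - √x) ≤ x * e * (K₁ * L) + C₀ * x := by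
      have := mul_le_mul_of_nonneg_left hK (show 0 ≤ x * e by positivity)
      linarith
    -- conclude
    have hgoal : (#(sm w x) : ℝ) ≤ √x + (2 * x * e * K₁ / U + 2 * C₀ * x / (U * L)) := by
      by_contra hcon
      push Not at hcon
      have hd : 2 * x * e * K₁ / U + 2 * C₀ * x / (U * L) < (#(sm w x) : ℝ) - √x := by linarith
      have hd0 : 0 ≤ 2 * x * e * K₁ / U + 2 * C₀ * x / (U * L) := by positivity
      have h1 : 1 / 2 * (U * L) * ((#(sm w x) : ℝ) - √x) ≤
          1 / 2 * Real.log x * ((#(sm w x) : ℝ) - √x) :=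
        mul_le_mul_of_nonneg_right (by linarith) (by linarith)
      have h2 : 1 / 2 * (U * L) * (2 * x * e * K₁ / U + 2 * C₀ * x / (U * L)) <
          1 / 2 * (U * L) * ((#(sm w x) : ℝ) - √x) :=
        mul_lt_mul_of_pos_left hd (by positivity)
      have h3 : 1 / 2 * (U * L) * (2 * x * e * K₁ / U + 2 * C₀ * x / (U * L)) =
          x * e * (K₁ * L) + C₀ * x := by
        have hU0 : (U : ℝ) ≠ 0 := by linarith
        field_simp
      linarith
    refine le_trans hgoal ?_
    have f1 : 2 * x * e * K₁ / U ≤ x * ((C / U) ^ (k + 1) + C * k / L) := by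
      have g1 : 2 * x * e * K₁ / U = x * (2 * K₁ / U * e) := by ring
      rw [g1]
      apply mul_le_mul_of_nonneg_left _ hx0
      have g2 : 2 * K₁ / U ≤ C / U := div_le_div_of_nonneg_right (by linarith) (by linarith)
      have g3 : 2 * K₁ / U * e ≤ C / U * e := mul_le_mul_of_nonneg_right g2 he0
      have g4 : C / U * e = (C / U) ^ (k + 1) + C / U * (C * k / L) := by
        rw [he, pow_succ]; ring
      have g5 : C / U * (C * k / L) ≤ 1 * (C * k / L) :=
        mul_le_mul_of_nonneg_right hCU1 (by positivity)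
      linarith
    have f2 : 2 * C₀ * x / (U * L) ≤ x * (2 * C₀ / L) := by
      rw [mul_div_assoc', div_le_div_iff₀ hUL hLpos]
      have : 0 ≤ 2 * C₀ * x * L * (U - 1) := by
        have : 0 ≤ (U : ℝ) - 1 := by linarith
        positivity
      nlinarith
    have f3 : x * ((C / U) ^ (k + 1) + C * ((k + 1 : ℕ) : ℝ) / L) =
        x * ((C / U) ^ (k + 1) + C * k / L) + x * (C / L) := by
      push_cast; ring
    rw [f3]
    have f4 : (x : ℝ) / L + x * (2 * C₀ / L) ≤ x * (C / L) := by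
      have : (x : ℝ) / L + x * (2 * C₀ / L) = x * ((1 + 2 * C₀) / L) := by ring
      rw [this]
      apply mul_le_mul_of_nonneg_left _ hx0
      exact div_le_div_of_nonneg_right (by linarith) hLpos.le
    linarith

end Pool.Agent.P2Gap.Smooth
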