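import Pool.Agent.P2Gap.Pieces
import Pool.Agent.P2Gap.Red
import Pool.Agent.P2Gap.Ap
import Pool.Agent.P2Gap.Smooth
import Pool.Agent.P2Gap.G1
import Pool.Agent.P2Gap.Nt1
import Pool.Agent.P2Gap.Nt2
import Pool.Agent.P2Gap.Base
import Pool.Agent.Helper923.HMertens

set_option autoImplicit false

namespace Pool.Agent.P2Gap

open Finset

lemma growth (A : ℕ) : ∀ I : ℕ, 64 * A ≤ I → A * (I + 1) ^ 3 * 64 ^ (I + 1) ≤ 8 ^ (6 * I) := by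
  intro I hI
  have h1 : I + 1 ≤ 2 ^ I := Nat.lt_two_pow_self
  have h2 : (I + 1) ^ 3 ≤ 8 ^ I := by
    calc (I + 1) ^ 3 ≤ (2 ^ I) ^ 3 := Nat.pow_le_pow_left h1 3
      _ = 8 ^ I := by rw [← pow_mul, mul_comm, pow_mul]; norm_num
  have h3 : 64 * A ≤ 8 ^ (3 * I) := by
    calc 64 * A ≤ I := hI
      _ ≤ 3 * I := by omega
      _ ≤ 8 ^ (3 * I) := (Nat.lt_pow_self (by norm_num)).le
  calc A * (I + 1) ^ 3 * 64 ^ (I + 1) = (64 * A) * (I + 1) ^ 3 * 64 ^ I := by rw [pow_succ]; ring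
    _ ≤ 8 ^ (3 * I) * 8 ^ I * 64 ^ I := by gcongr
    _ = 8 ^ (6 * I) := by
        rw [show (64 : ℕ) = 8 ^ 2 by norm_num, ← pow_mul, ← pow_add, ← pow_add]
        congr 1; ring

lemma log8_bounds : (1 : ℝ) ≤ Real.log 8 ∧ Real.log 8 ≤ 3 := by
  have h : Real.log 8 = 3 * Real.log 2 := by
    rw [show (8 : ℝ) = 2 ^ 3 by norm_num, Real.log_pow]; norm_num
  have h1 := Real.log_two_gt_d9
  have h2 := Real.log_two_lt_d9
  rw [h]
  constructor <;> linarith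

lemma log_w (F : ℕ) : Real.log ((8 ^ F : ℕ) : ℝ) = F * Real.log 8 := by
  push_cast
  rw [Real.log_pow]

lemma cond_c (C D I F i e : ℕ) (hi : i ≤ I) (hF : F = 8 ^ (6 * I))
    (hbig : (6 + 3 * D) * (D * C ^ 2) * ((I + 1) * 64 ^ (I + 1)) ≤ F) (he : F ≤ e) :
    ((D : ℝ) * Real.log ((8 ^ F : ℕ) : ℝ)) ^ (D * (C * 8 ^ (i + 1)) ^ 2) ≤ (8 : ℝ) ^ e := by
  have h0 : (0 : ℝ) ≤ (D : ℝ) * Real.log ((8 ^ F : ℕ) : ℝ) := by
    rw [log_w]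
    have := log8_bounds.1
    positivity
  have h1 : (D : ℝ) * Real.log ((8 ^ F : ℕ) : ℝ) ≤ (8 : ℝ) ^ (6 * I + 3 * D) := by
    rw [log_w]
    have hF' : (F : ℝ) = 8 ^ (6 * I) := by rw [hF]; push_cast; rfl
    have h3D : ((3 * D : ℕ) : ℝ) ≤ (8 : ℝ) ^ (3 * D) := by
      exact_mod_cast (Nat.lt_pow_self (n := 3 * D) (by norm_num : 1 < 8)).le
    push_cast at h3D
    have hD0 : (0 : ℝ) ≤ D := by positivity
    calc (D : ℝ) * (F * Real.log 8) ≤ D * (F * 3) := by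
          have := log8_bounds.2
          gcongr
      _ = (3 * D) * 8 ^ (6 * I) := by rw [hF']; ring
      _ ≤ 8 ^ (3 * D) * 8 ^ (6 * I) := by gcongr
      _ = 8 ^ (6 * I + 3 * D) := by rw [← pow_add, add_comm]
  have h2 : (6 * I + 3 * D) * (D * (C * 8 ^ (i + 1)) ^ 2) ≤ e := by
    refine le_trans ?_ (hbig.trans he)
    have h3 : (8 ^ (i + 1)) ^ 2 ≤ 64 ^ (I + 1) := by
      rw [← pow_mul, mul_comm, pow_mul]
      exact Nat.pow_le_pow_right (by norm_num) (by omega)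
    have h4 : 6 * I + 3 * D ≤ (6 + 3 * D) * (I + 1) := by nlinarith
    calc (6 * I + 3 * D) * (D * (C * 8 ^ (i + 1)) ^ 2)
        = (6 * I + 3 * D) * (D * C ^ 2 * (8 ^ (i + 1)) ^ 2) := by ring
      _ ≤ ((6 + 3 * D) * (I + 1)) * (D * C ^ 2 * 64 ^ (I + 1)) := by gcongr
      _ = (6 + 3 * D) * (D * C ^ 2) * ((I + 1) * 64 ^ (I + 1)) := by ring
  calc ((D : ℝ) * Real.log ((8 ^ F : ℕ) : ℝ)) ^ (D * (C * 8 ^ (i + 1)) ^ 2)
      ≤ ((8 : ℝ) ^ (6 * I + 3 * D)) ^ (D * (C * 8 ^ (i + 1)) ^ 2) := pow_le_pow_left₀ h0 h1 _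
    _ = (8 : ℝ) ^ ((6 * I + 3 * D) * (D * (C * 8 ^ (i + 1)) ^ 2)) := by rw [← pow_mul]
    _ ≤ (8 : ℝ) ^ e := pow_le_pow_right₀ (by norm_num) h2

lemma cc_nonneg_prod (K Q w p : ℕ) (p' : ℕ) :
    (1 : ℝ) ≤ ∏ q ∈ pr Q w, (1 + 2 * (cc K q p p' : ℝ) / q) := by
  refine Finset.one_le_prod fun q _ => ?_
  have : (0 : ℝ) ≤ 2 * (cc K q p p' : ℝ) / q := by positivity
  linarith


/-- all structural conditions at the scale `i`, `e = E - i - 1` -/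
lemma good_scale (C D F e p : ℕ) (K Q : ℕ) (hC : 1 ≤ C) (hD : 8 ≤ D) (i : ℕ)
    (hK : K = C * 8 ^ (i + 1)) (hQ : Q = D * K ^ 4) (hFe : F ≤ e)
    (hp : p ∈ pr (8 ^ e) (8 ^ (e + 1))) : Good (pr 0 (8 ^ F)) Q K p := by
  rw [mem_filter, mem_Ioc] at hp
  have hK1 : 1 ≤ K := by
    rw [hK]; exact Nat.mul_pos hC (by positivity)
  refine ⟨fun q hq => (mem_filter.1 hq).2, fun q _ hQq => ?_, fun q hq hdvd => ?_⟩
  · have h1 : K ≤ K ^ 4 := Nat.le_self_pow (by norm_num) K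
    have h2 : 8 * K ≤ D * K ^ 4 := Nat.mul_le_mul hD h1
    omega
  · rw [mem_filter, mem_Ioc] at hq
    have h1 := (Nat.prime_dvd_prime_iff_eq hq.2 hp.2).1 hdvd
    have h2 : 8 ^ F ≤ 8 ^ e := Nat.pow_le_pow_right (by norm_num) hFe
    omega

lemma y_div (C E e i p : ℕ) (hE : E = e + (i + 1)) (hp : 8 ^ e < p) :
    C * 8 ^ E / p ≤ C * 8 ^ (i + 1) := by
  calc C * 8 ^ E / p ≤ C * 8 ^ E / 8 ^ e := Nat.div_le_div_left hp.le (by positivity)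
    _ = C * 8 ^ (i + 1) := by
        rw [hE, pow_add, mul_left_comm, Nat.mul_div_cancel_left _ (by positivity)]

lemma log_y (C E : ℕ) (hC : 1 ≤ C) :
    (E : ℝ) ≤ Real.log ((C * 8 ^ E : ℕ) : ℝ) ∧ E * Real.log 8 ≤ Real.log ((C * 8 ^ E : ℕ) : ℝ) := by
  have hCr : (1 : ℝ) ≤ C := by exact_mod_cast hC
  have h1 : Real.log ((C * 8 ^ E : ℕ) : ℝ) = Real.log C + E * Real.log 8 := by
    push_cast
    rw [Real.log_mul (by positivity) (by positivity), Real.log_pow]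
  have h2 := Real.log_nonneg hCr
  have h3 := log8_bounds.1
  have h4 : (E : ℝ) ≤ E * Real.log 8 := by nlinarith [Nat.cast_nonneg (α := ℝ) E]
  rw [h1]
  constructor <;> linarith

/-- first half of the final inequality -/
lemma T1_bound (C E F : ℕ) (c Cg C₃ δ X P : ℝ) (hC : 1 ≤ C) (hE : 0 < E) (hF : 0 < F)
    (hCg : 0 < Cg) (hC₃ : 0 < C₃) (hX0 : 0 ≤ X) (hP0 : 0 ≤ P)
    (hX : X ≤ Cg * ((C * 8 ^ E : ℕ) : ℝ) * Real.log ((8 ^ F : ℕ) : ℝ) /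
      Real.log ((C * 8 ^ E : ℕ) : ℝ))
    (hP : P ≤ C₃ / Real.log ((8 ^ F : ℕ) : ℝ)) (hδ0 : 0 ≤ δ)
    (hδ : δ ≤ c * Real.log 8 / (2 * Cg * C₃ * C)) :
    X * (P * δ) ≤ c / 2 * (8 ^ E / E) := by
  have hCr : (0 : ℝ) < C := by exact_mod_cast hC
  have hEr : (0 : ℝ) < E := by exact_mod_cast hE
  have hFr : (0 : ℝ) < F := by exact_mod_cast hF
  have h8 : 0 < Real.log 8 := by linarith [log8_bounds.1]
  have hlw : 0 < Real.log ((8 ^ F : ℕ) : ℝ) := by rw [log_w]; positivity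
  have hly := (log_y C E hC).2
  have hly0 : 0 < Real.log ((C * 8 ^ E : ℕ) : ℝ) := lt_of_lt_of_le (by positivity) hly
  have h1 : X * P ≤ Cg * C₃ * (((C * 8 ^ E : ℕ) : ℝ) / Real.log ((C * 8 ^ E : ℕ) : ℝ)) := by
    calc X * P ≤ (Cg * ((C * 8 ^ E : ℕ) : ℝ) * Real.log ((8 ^ F : ℕ) : ℝ) /
          Real.log ((C * 8 ^ E : ℕ) : ℝ)) * (C₃ / Real.log ((8 ^ F : ℕ) : ℝ)) :=
          mul_le_mul hX hP hP0 (by positivity)
      _ = _ := by field_simp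
  have h2 : ((C * 8 ^ E : ℕ) : ℝ) / Real.log ((C * 8 ^ E : ℕ) : ℝ) ≤
      C * 8 ^ E / (E * Real.log 8) := by
    push_cast at hly ⊢
    exact div_le_div_of_nonneg_left (by positivity) (by positivity) hly
  have h3 : X * P ≤ Cg * C₃ * (C * 8 ^ E / (E * Real.log 8)) :=
    h1.trans (mul_le_mul_of_nonneg_left h2 (by positivity))
  calc X * (P * δ) = (X * P) * δ := by ring
    _ ≤ (Cg * C₃ * (C * 8 ^ E / (E * Real.log 8))) * (c * Real.log 8 / (2 * Cg * C₃ * C)) :=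
        mul_le_mul h3 hδ hδ0 (by positivity)
    _ = c / 2 * (8 ^ E / E) := by field_simp

/-- second half of the final inequality -/
lemma T0_bound (C E F u v I : ℕ) (c Cs C₃ C₅ C₆ X S P : ℝ) (hC : 1 ≤ C) (hE : E = u * F)
    (hu : 0 < u) (hF : 0 < F) (hI : 0 < I)
    (hC₃ : 0 < C₃) (hC₆ : 0 < C₆) (hCs : 0 < Cs) (hC₅ : 0 < C₅) (hX0 : 0 ≤ X) (hP0 : 0 ≤ P)
    (hX : X ≤ ((C * 8 ^ E : ℕ) : ℝ) * ((Cs / v) ^ v + Cs * v / Real.log ((8 ^ F : ℕ) : ℝ)) +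
      (C₅ * ((C * 8 ^ E : ℕ) : ℝ) / Real.log ((C * 8 ^ E : ℕ) : ℝ)) * (C * 8 ^ (I + 1)))
    (hP : P ≤ C₃ / Real.log ((8 ^ F : ℕ) : ℝ))
    (hS : S ≤ C₆ * I) (hS0 : 0 ≤ S)
    (k1 : (2 * C * C₃ * C₆) * (I * u * (Cs / v) ^ v) ≤ c / 6)
    (k2 : (2 * C * C₃ * C₆) * (I * u * (Cs * v / F)) ≤ c / 6)
    (k3 : (2 * C * C₃ * C₆) * (I * u * (C₅ * (C * 8 ^ (I + 1)) / F)) ≤ c / 6) :
    2 * (X * (P * S)) ≤ c / 2 * (8 ^ E / E) := by
  have hCr : (0 : ℝ) < C := by exact_mod_cast hC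
  have hFr : (0 : ℝ) < F := by exact_mod_cast hF
  have hur : (0 : ℝ) < u := by exact_mod_cast hu
  have hIr : (0 : ℝ) < I := by exact_mod_cast hI
  have hE0 : 0 < E := by rw [hE]; positivity
  have hEr : (0 : ℝ) < E := by exact_mod_cast hE0
  have h8 : 1 ≤ Real.log 8 := log8_bounds.1
  have hlwF : (F : ℝ) ≤ Real.log ((8 ^ F : ℕ) : ℝ) := by rw [log_w]; nlinarith
  have hlw : 0 < Real.log ((8 ^ F : ℕ) : ℝ) := by linarith
  have hly := (log_y C E hC).1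
  have hEF : (F : ℝ) ≤ E := by
    have : F ≤ E := by rw [hE]; exact Nat.le_mul_of_pos_left F hu
    exact_mod_cast this
  have hly0 : 0 < Real.log ((C * 8 ^ E : ℕ) : ℝ) := by linarith
  have hy0 : (0 : ℝ) < ((C * 8 ^ E : ℕ) : ℝ) := by push_cast; positivity
  set B : ℝ := (Cs / v) ^ v + Cs * v / F + C₅ * (C * 8 ^ (I + 1)) / F with hB
  have hB0 : 0 ≤ B := by positivity
  have h1 : X ≤ ((C * 8 ^ E : ℕ) : ℝ) * B := by
    refine hX.trans ?_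
    have a1 : Cs * v / Real.log ((8 ^ F : ℕ) : ℝ) ≤ Cs * v / F :=
      div_le_div_of_nonneg_left (by positivity) hFr hlwF
    have a2 : (C₅ * ((C * 8 ^ E : ℕ) : ℝ) / Real.log ((C * 8 ^ E : ℕ) : ℝ)) * (C * 8 ^ (I + 1)) ≤
        ((C * 8 ^ E : ℕ) : ℝ) * (C₅ * (C * 8 ^ (I + 1)) / F) := by
      have : 1 / Real.log ((C * 8 ^ E : ℕ) : ℝ) ≤ 1 / F :=
        one_div_le_one_div_of_le hFr (hEF.trans hly)
      calc (C₅ * ((C * 8 ^ E : ℕ) : ℝ) / Real.log ((C * 8 ^ E : ℕ) : ℝ)) * (C * 8 ^ (I + 1))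
          = (((C * 8 ^ E : ℕ) : ℝ) * (C₅ * (C * 8 ^ (I + 1)))) *
              (1 / Real.log ((C * 8 ^ E : ℕ) : ℝ)) := by ring
        _ ≤ (((C * 8 ^ E : ℕ) : ℝ) * (C₅ * (C * 8 ^ (I + 1)))) * (1 / F) :=
            mul_le_mul_of_nonneg_left this (by positivity)
        _ = _ := by ring
    have a3 := mul_le_mul_of_nonneg_left a1 hy0.le
    rw [hB]
    nlinarith
  have h2 : P ≤ C₃ / F := hP.trans (div_le_div_of_nonneg_left hC₃.le hFr hlwF)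
  have h3 : P * S ≤ (C₃ / F) * (C₆ * I) := mul_le_mul h2 hS hS0 (by positivity)
  have h4 : X * (P * S) ≤ (((C * 8 ^ E : ℕ) : ℝ) * B) * ((C₃ / F) * (C₆ * I)) :=
    mul_le_mul h1 h3 (mul_nonneg hP0 hS0) (by positivity)
  have h5 : 2 * ((((C * 8 ^ E : ℕ) : ℝ) * B) * ((C₃ / F) * (C₆ * I))) =
      ((2 * C * C₃ * C₆) * (I * u * B)) * (8 ^ E / E) := by
    have : (E : ℝ) = u * F := by rw [hE]; push_cast; ring
    rw [this]
    push_cast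
    field_simp
  have h6 : (2 * C * C₃ * C₆) * (I * u * B) ≤ c / 2 := by
    rw [hB]
    nlinarith
  calc 2 * (X * (P * S)) ≤ 2 * ((((C * 8 ^ E : ℕ) : ℝ) * B) * ((C₃ / F) * (C₆ * I))) := by linarith
    _ = ((2 * C * C₃ * C₆) * (I * u * B)) * (8 ^ E / E) := h5
    _ ≤ c / 2 * (8 ^ E / E) := mul_le_mul_of_nonneg_right h6 (by positivity)

end Pool.Agent.P2Gap
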