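import Pool.Agent.P2Gap.Pair

set_option autoImplicit false

namespace Pool.Agent.P2Gap

open Finset

lemma stepA (S : Finset ℕ) (R X : (ℕ → ℕ) → ℝ) (hR : ∀ a, 0 ≤ R a) (A μ η : ℝ)
    (hμ : 0 < μ) (hη : 0 < η)
    (h0 : Ex S R = A) (h1 : Ex S (fun a => R a * X a) = μ * A)
    (h2 : Ex S (fun a => R a * (X a * X a)) ≤ (1 + η ^ 2) * μ ^ 2 * A) :
    Ex S (fun a => R a * |X a - μ|) ≤ η * μ * A := by
  have hημ : 0 < η * μ := by positivity
  have hpt : ∀ a, R a * |X a - μ| ≤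
      1 / (2 * (η * μ)) * (R a * (X a * X a)) - (1 / η) * (R a * X a) +
        (μ / (2 * η) + η * μ / 2) * R a := by
    intro a
    have h3 : |X a - μ| ≤ ((X a - μ) ^ 2 / (η * μ) + η * μ) / 2 := by
      have h4 : 2 * |X a - μ| * (η * μ) ≤ (X a - μ) ^ 2 + (η * μ) ^ 2 := by
        nlinarith [sq_nonneg (|X a - μ| - η * μ), sq_abs (X a - μ)]
      have h5 : 2 * |X a - μ| ≤ (X a - μ) ^ 2 / (η * μ) + η * μ := by
        rw [← sub_nonneg]
        have : (X a - μ) ^ 2 / (η * μ) + η * μ - 2 * |X a - μ| =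
            ((X a - μ) ^ 2 + (η * μ) ^ 2 - 2 * |X a - μ| * (η * μ)) / (η * μ) := by
          field_simp
        rw [this]
        exact div_nonneg (by linarith) hημ.le
      linarith
    calc R a * |X a - μ| ≤ R a * (((X a - μ) ^ 2 / (η * μ) + η * μ) / 2) :=
          mul_le_mul_of_nonneg_left h3 (hR a)
      _ = _ := by field_simp; ring
  refine (Ex_mono S _ _ hpt).trans ?_
  rw [Ex_add, Ex_sub, Ex_mul_left, Ex_mul_left, Ex_mul_left, h0, h1]
  have h6 : 1 / (2 * (η * μ)) * Ex S (fun a => R a * (X a * X a)) ≤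
      1 / (2 * (η * μ)) * ((1 + η ^ 2) * μ ^ 2 * A) :=
    mul_le_mul_of_nonneg_left h2 (by positivity)
  have h7 : 1 / (2 * (η * μ)) * ((1 + η ^ 2) * μ ^ 2 * A) - 1 / η * (μ * A) +
      (μ / (2 * η) + η * μ / 2) * A = η * μ * A := by
    field_simp
    ring
  linarith

lemma stepB {ι : Type*} (S : Finset ℕ) (I : Finset ι) (R Y lam : (ℕ → ℕ) → ℝ)
    (X : ι → (ℕ → ℕ) → ℝ) (m : ι → ℝ) (hR : ∀ a, 0 ≤ R a) (hY : ∀ a, 0 ≤ Y a)
    (hl : ∀ a, 0 ≤ lam a) (A μ η κ : ℝ) (hμ : 0 < μ) (hm : ∑ i ∈ I, m i = μ)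
    (h0 : Ex S R = A)
    (hX : ∀ i ∈ I, Ex S (fun a => R a * |X i a - m i|) ≤ η * m i * A)
    (hYE : Ex S (fun a => R a * Y a) ≤ κ * μ * A)
    (hlam : ∀ a, ∑ i ∈ I, X i a - Y a ≤ lam a) :
    Ex S (fun a => R a * Real.exp (- lam a)) ≤ A * (Real.exp (- μ / 4) + 2 * η + 4 * κ) := by
  have hpt : ∀ a, R a * Real.exp (- lam a) ≤ Real.exp (- μ / 4) * R a +
      (2 / μ) * (∑ i ∈ I, R a * |X i a - m i|) + (4 / μ) * (R a * Y a) := by
    intro a
    have hs : ∑ i ∈ I, R a * |X i a - m i| = R a * ∑ i ∈ I, |X i a - m i| := by rw [mul_sum]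
    rw [hs]
    have hn1 : 0 ≤ ∑ i ∈ I, |X i a - m i| := sum_nonneg fun _ _ => abs_nonneg _
    have hn2 : 0 ≤ 2 / μ * (∑ i ∈ I, |X i a - m i|) := by positivity
    have hn3 : 0 ≤ 4 / μ * Y a := mul_nonneg (by positivity) (hY a)
    have key : Real.exp (- lam a) ≤ Real.exp (- μ / 4) + 2 / μ * (∑ i ∈ I, |X i a - m i|) +
        4 / μ * Y a := by
      by_cases hc : μ / 4 ≤ lam a
      · have : Real.exp (- lam a) ≤ Real.exp (- μ / 4) := by
          apply Real.exp_le_exp.2; linarith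
        linarith
      · push Not at hc
        have h1 : Real.exp (- lam a) ≤ 1 := by
          rw [Real.exp_le_one_iff]; linarith [hl a]
        have h2 : μ - ∑ i ∈ I, |X i a - m i| ≤ ∑ i ∈ I, X i a := by
          rw [← hm, ← sum_sub_distrib]
          refine sum_le_sum fun i _ => ?_
          have := neg_abs_le (X i a - m i)
          linarith
        have h3 : 3 * μ / 4 ≤ (∑ i ∈ I, |X i a - m i|) + Y a := by
          have := hlam a
          linarith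
        have h4 : 1 ≤ 2 / μ * (∑ i ∈ I, |X i a - m i|) + 4 / μ * Y a := by
          have e : 2 / μ * (∑ i ∈ I, |X i a - m i|) + 4 / μ * Y a =
            (2 * (∑ i ∈ I, |X i a - m i|) + 4 * Y a) / μ := by field_simp
          rw [e, le_div_iff₀ hμ]
          linarith [hY a]
        linarith [Real.exp_pos (- μ / 4)]
    calc R a * Real.exp (- lam a) ≤ R a * (Real.exp (- μ / 4) +
          2 / μ * (∑ i ∈ I, |X i a - m i|) + 4 / μ * Y a) := mul_le_mul_of_nonneg_left key (hR a)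
      _ = _ := by ring
  refine (Ex_mono S _ _ hpt).trans ?_
  rw [Ex_add, Ex_add, Ex_mul_left, Ex_mul_left, Ex_mul_left, Ex_sum, h0]
  have h1 : ∑ i ∈ I, Ex S (fun a => R a * |X i a - m i|) ≤ η * μ * A := by
    refine (sum_le_sum hX).trans_eq ?_
    rw [← sum_mul, ← mul_sum, hm]
  have h2 : 2 / μ * ∑ i ∈ I, Ex S (fun a => R a * |X i a - m i|) ≤ 2 / μ * (η * μ * A) :=
    mul_le_mul_of_nonneg_left h1 (by positivity)
  have h3 : 4 / μ * Ex S (fun a => R a * Y a) ≤ 4 / μ * (κ * μ * A) :=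
    mul_le_mul_of_nonneg_left hYE (by positivity)
  have e1 : 2 / μ * (η * μ * A) = 2 * η * A := by field_simp
  have e2 : 4 / μ * (κ * μ * A) = 4 * κ * A := by field_simp
  rw [e1] at h2
  rw [e2] at h3
  linarith

lemma scalar_ineq (v Z m : ℝ) (hv : 0 ≤ v) (hZ : 0 ≤ Z) (hm : 0 < m) :
    v / m - v * Z / (4 * m ^ 2) ≤ v / max m Z := by
  have h : 1 / m - Z / (4 * m ^ 2) ≤ 1 / max m Z := by
    rcases le_total Z m with hle | hle
    · rw [max_eq_left hle]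
      have : 0 ≤ Z / (4 * m ^ 2) := by positivity
      linarith
    · rw [max_eq_right hle]
      have hZp : 0 < Z := lt_of_lt_of_le hm hle
      rw [← sub_nonneg]
      have e : 1 / Z - (1 / m - Z / (4 * m ^ 2)) = (Z - 2 * m) ^ 2 / (4 * m ^ 2 * Z) := by
        field_simp
        ring
      rw [e]; positivity
  have := mul_le_mul_of_nonneg_left h hv
  calc v / m - v * Z / (4 * m ^ 2) = v * (1 / m - Z / (4 * m ^ 2)) := by ring
    _ ≤ v * (1 / max m Z) := this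
    _ = v / max m Z := by ring

/-- total weight of all classes mod `p` -/
noncomputable def Z (w Q K p : ℕ) (a : ℕ → ℕ) : ℝ := ∑ b ∈ range p, W (pr 0 w) Q K p b a

/-- the sub-probability weights used for the prime `p` at a scale `(Q,K)` -/
noncomputable def xw (w Q K M p b : ℕ) (a : ℕ → ℕ) : ℝ :=
  W (pr 0 w) Q K p b a / max ((M : ℝ) * p) (Z w Q K p a)

lemma Z_nonneg (w Q K p : ℕ) (a : ℕ → ℕ) (hG : Good (pr 0 w) Q K p) : 0 ≤ Z w Q K p a :=
  sum_nonneg fun b _ => W_nonneg _ Q K p b a hG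

lemma xw_nonneg (w Q K M p b : ℕ) (a : ℕ → ℕ) (hG : Good (pr 0 w) Q K p) :
    0 ≤ xw w Q K M p b a :=
  div_nonneg (W_nonneg _ Q K p b a hG) (le_max_of_le_left (by positivity))

lemma xw_sum (w Q K M p : ℕ) (a : ℕ → ℕ) (hG : Good (pr 0 w) Q K p) :
    ∑ b ∈ range p, xw w Q K M p b a ≤ 1 := by
  unfold xw
  rw [← sum_div]
  exact div_le_one_of_le₀ (le_max_right _ _) (le_max_of_le_left (by positivity))

/-- mean of the scale variable -/
noncomputable def mu (w Q M : ℕ) (P : Finset ℕ) : ℝ := (∑ p ∈ P, 1 / (p : ℝ)) / (M * sg Q w)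

/-- one scale: first absolute deviation -/
lemma scale_dev (w Q K M n : ℕ) (P : Finset ℕ) (hM : 0 < M) (hP0 : P.Nonempty)
    (hP : ∀ p ∈ P, 0 < p ∧ Good (pr 0 w) Q K p ∧ n / p ≤ K) (η : ℝ) (hη : 0 < η)
    (hsec : ∀ p ∈ P, ∑ p' ∈ P, (1 / (p' : ℝ)) * ∏ q ∈ pr Q w, (1 + 2 * (cc K q p p' : ℝ) / q) ≤
      (1 + η ^ 2) * ∑ p' ∈ P, 1 / (p' : ℝ)) :
    Ex (pr 0 w) (fun a => Rn (pr 0 w) n a *
      |∑ p ∈ P, W (pr 0 w) Q K p (n % p) a / (M * p) - mu w Q M P|) ≤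
      η * mu w Q M P * PS w := by
  have hs := sg_pos Q w
  have hPS := PS_pos w
  have hMr : (0 : ℝ) < M := by exact_mod_cast hM
  have hsum : 0 < ∑ p ∈ P, 1 / (p : ℝ) :=
    sum_pos (fun p hp => by have := (hP p hp).1; positivity) hP0
  refine stepA (pr 0 w) (Rn (pr 0 w) n) (fun a => ∑ p ∈ P, W (pr 0 w) Q K p (n % p) a / (M * p))
    (Rn_nonneg _ n) (PS w) (mu w Q M P) η (by unfold mu; positivity) hη (fact0 w n) ?_ ?_
  · have h : ∀ a, Rn (pr 0 w) n a * ∑ p ∈ P, W (pr 0 w) Q K p (n % p) a / (M * p) =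
        ∑ p ∈ P, (1 / (M * p : ℝ)) * (Rn (pr 0 w) n a * W (pr 0 w) Q K p (n % p) a) := by
      intro a
      rw [mul_sum]
      exact sum_congr rfl fun p _ => by ring
    rw [Ex_congr _ _ _ h, Ex_sum]
    have h2 : ∀ p ∈ P, Ex (pr 0 w) (fun a => (1 / (M * p : ℝ)) *
        (Rn (pr 0 w) n a * W (pr 0 w) Q K p (n % p) a)) =
        (1 / (p : ℝ)) * (PS w / (M * sg Q w)) := by
      intro p hp
      rw [Ex_mul_left, fact1 w Q K p n (hP p hp).2.1 (hP p hp).2.2]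
      have : (0 : ℝ) < p := by exact_mod_cast (hP p hp).1
      field_simp
    rw [sum_congr rfl h2, ← sum_mul]
    unfold mu
    ring
  · have h : ∀ a, Rn (pr 0 w) n a * ((∑ p ∈ P, W (pr 0 w) Q K p (n % p) a / (M * p)) *
        ∑ p ∈ P, W (pr 0 w) Q K p (n % p) a / (M * p)) =
        ∑ p ∈ P, ∑ p' ∈ P, (1 / (M * p : ℝ) * (1 / (M * p'))) *
          (Rn (pr 0 w) n a * W (pr 0 w) Q K p (n % p) a * W (pr 0 w) Q K p' (n % p') a) := by
      intro a
      rw [sum_mul_sum, mul_sum]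
      refine sum_congr rfl fun p _ => ?_
      rw [mul_sum]
      exact sum_congr rfl fun p' _ => by ring
    rw [Ex_congr _ _ _ h, Ex_sum]
    have h2 : ∀ p ∈ P, Ex (pr 0 w) (fun a => ∑ p' ∈ P, (1 / (M * p : ℝ) * (1 / (M * p'))) *
          (Rn (pr 0 w) n a * W (pr 0 w) Q K p (n % p) a * W (pr 0 w) Q K p' (n % p') a)) ≤
        (1 / (p : ℝ)) * ((PS w / (M * sg Q w) ^ 2) * ((1 + η ^ 2) * ∑ p' ∈ P, 1 / (p' : ℝ))) := by
      intro p hp
      have hp0 : (0 : ℝ) < p := by exact_mod_cast (hP p hp).1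
      rw [Ex_sum]
      calc ∑ p' ∈ P, Ex (pr 0 w) (fun a => (1 / (M * p : ℝ) * (1 / (M * p'))) *
            (Rn (pr 0 w) n a * W (pr 0 w) Q K p (n % p) a * W (pr 0 w) Q K p' (n % p') a))
          ≤ ∑ p' ∈ P, (1 / (M * p : ℝ) * (1 / (M * p'))) *
              (PS w / sg Q w ^ 2 * ∏ q ∈ pr Q w, (1 + 2 * (cc K q p p' : ℝ) / q)) := by
            refine sum_le_sum fun p' hp' => ?_
            rw [Ex_mul_left]
            have hp'0 : (0 : ℝ) < p' := by exact_mod_cast (hP p' hp').1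
            exact mul_le_mul_of_nonneg_left (fact2 w Q K p p' n (hP p hp).2.1 (hP p' hp').2.1
              (hP p hp).2.2 (hP p' hp').2.2) (by positivity)
        _ = ∑ p' ∈ P, (1 / (p : ℝ) * (PS w / (M * sg Q w) ^ 2)) *
              ((1 / (p' : ℝ)) * ∏ q ∈ pr Q w, (1 + 2 * (cc K q p p' : ℝ) / q)) := by
            refine sum_congr rfl fun p' hp' => ?_
            have hp'0 : (0 : ℝ) < p' := by exact_mod_cast (hP p' hp').1
            field_simp
        _ = (1 / (p : ℝ) * (PS w / (M * sg Q w) ^ 2)) *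
              ∑ p' ∈ P, ((1 / (p' : ℝ)) * ∏ q ∈ pr Q w, (1 + 2 * (cc K q p p' : ℝ) / q)) := by
            rw [mul_sum]
        _ ≤ (1 / (p : ℝ) * (PS w / (M * sg Q w) ^ 2)) * ((1 + η ^ 2) * ∑ p' ∈ P, 1 / (p' : ℝ)) :=
            mul_le_mul_of_nonneg_left (hsec p hp) (by positivity)
        _ = _ := by ring
    refine (sum_le_sum h2).trans_eq ?_
    rw [← sum_mul]
    unfold mu
    field_simp

/-- expected number of uncovered copies of `n` -/
theorem per_n (w M n : ℕ) (I : Finset ℕ) (Q K : ℕ → ℕ) (P : ℕ → Finset ℕ) (hM : 0 < M)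
    (hI : I.Nonempty) (hP0 : ∀ i ∈ I, (P i).Nonempty)
    (hP : ∀ i ∈ I, ∀ p ∈ P i, 0 < p ∧ Good (pr 0 w) (Q i) (K i) p ∧ n / p ≤ K i)
    (η : ℝ) (hη : 0 < η)
    (hsec : ∀ i ∈ I, ∀ p ∈ P i, ∑ p' ∈ P i, (1 / (p' : ℝ)) *
      ∏ q ∈ pr (Q i) w, (1 + 2 * (cc (K i) q p p' : ℝ) / q) ≤
      (1 + η ^ 2) * ∑ p' ∈ P i, 1 / (p' : ℝ))
    (hthree : ∀ i ∈ I, ∀ p ∈ P i, ∑ b ∈ range p,
      ∏ q ∈ pr (Q i) w, (1 + 2 * (dd (K i) q p (n % p) b : ℝ) / q) ≤ 3 * (p : ℝ)) :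
    Ex (pr 0 w) (fun a => Rn (pr 0 w) n a *
      Real.exp (- ∑ i ∈ I, ∑ p ∈ P i, xw w (Q i) (K i) M p (n % p) a)) ≤
      PS w * (Real.exp (- (∑ i ∈ I, mu w (Q i) M (P i)) / 4) + 2 * η + 4 * (3 / (4 * M))) := by
  have hPS := PS_pos w
  have hMr : (0 : ℝ) < M := by exact_mod_cast hM
  have hsum : ∀ i ∈ I, 0 < ∑ p ∈ P i, 1 / (p : ℝ) := fun i hi =>
    sum_pos (fun p hp => by have := (hP i hi p hp).1; positivity) (hP0 i hi)
  have hmu : ∀ i ∈ I, 0 < mu w (Q i) M (P i) := fun i hi => by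
    have := hsum i hi
    have := sg_pos (Q i) w
    unfold mu; positivity
  refine stepB (pr 0 w) I (Rn (pr 0 w) n)
    (fun a => ∑ i ∈ I, ∑ p ∈ P i, W (pr 0 w) (Q i) (K i) p (n % p) a * Z w (Q i) (K i) p a /
      (4 * ((M : ℝ) * p) ^ 2)) _
    (fun i a => ∑ p ∈ P i, W (pr 0 w) (Q i) (K i) p (n % p) a / (M * p))
    (fun i => mu w (Q i) M (P i)) (Rn_nonneg _ n) ?_ ?_ (PS w) _ η (3 / (4 * M))
    (sum_pos hmu hI) rfl (fact0 w n) ?_ ?_ ?_
  · intro a
    refine sum_nonneg fun i hi => sum_nonneg fun p hp => ?_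
    have hG := (hP i hi p hp).2.1
    exact div_nonneg (mul_nonneg (W_nonneg _ _ _ _ _ _ hG) (Z_nonneg _ _ _ _ _ hG)) (by positivity)
  · intro a
    refine sum_nonneg fun i hi => sum_nonneg fun p hp => ?_
    exact xw_nonneg _ _ _ _ _ _ _ (hP i hi p hp).2.1
  · intro i hi
    exact scale_dev w (Q i) (K i) M n (P i) hM (hP0 i hi) (hP i hi) η hη (hsec i hi)
  · have h : ∀ a, Rn (pr 0 w) n a * ∑ i ∈ I, ∑ p ∈ P i,
        W (pr 0 w) (Q i) (K i) p (n % p) a * Z w (Q i) (K i) p a / (4 * ((M : ℝ) * p) ^ 2) =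
        ∑ i ∈ I, ∑ p ∈ P i, ∑ b ∈ range p, (1 / (4 * ((M : ℝ) * p) ^ 2)) *
          (Rn (pr 0 w) n a * W (pr 0 w) (Q i) (K i) p (n % p) a * W (pr 0 w) (Q i) (K i) p b a) := by
      intro a
      rw [mul_sum]
      refine sum_congr rfl fun i _ => ?_
      rw [mul_sum]
      refine sum_congr rfl fun p _ => ?_
      rw [← mul_sum, ← mul_sum]
      unfold Z
      ring
    rw [Ex_congr _ _ _ h, Ex_sum]
    have h2 : ∀ i ∈ I, Ex (pr 0 w) (fun a => ∑ p ∈ P i, ∑ b ∈ range p,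
        (1 / (4 * ((M : ℝ) * p) ^ 2)) *
          (Rn (pr 0 w) n a * W (pr 0 w) (Q i) (K i) p (n % p) a * W (pr 0 w) (Q i) (K i) p b a)) ≤
        3 / (4 * M) * mu w (Q i) M (P i) * PS w := by
      intro i hi
      rw [Ex_sum]
      have h3 : ∀ p ∈ P i, Ex (pr 0 w) (fun a => ∑ b ∈ range p,
        (1 / (4 * ((M : ℝ) * p) ^ 2)) *
          (Rn (pr 0 w) n a * W (pr 0 w) (Q i) (K i) p (n % p) a * W (pr 0 w) (Q i) (K i) p b a)) ≤
          (1 / (p : ℝ)) * (3 / (4 * M) * (PS w / (M * sg (Q i) w))) := by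
        intro p hp
        have hp0 : (0 : ℝ) < p := by exact_mod_cast (hP i hi p hp).1
        have hsg := sg_pos (Q i) w
        rw [Ex_sum]
        calc ∑ b ∈ range p, Ex (pr 0 w) (fun a => (1 / (4 * ((M : ℝ) * p) ^ 2)) *
              (Rn (pr 0 w) n a * W (pr 0 w) (Q i) (K i) p (n % p) a * W (pr 0 w) (Q i) (K i) p b a))
            ≤ ∑ b ∈ range p, (1 / (4 * ((M : ℝ) * p) ^ 2)) * (PS w / sg (Q i) w *
                ∏ q ∈ pr (Q i) w, (1 + 2 * (dd (K i) q p (n % p) b : ℝ) / q)) := by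
              refine sum_le_sum fun b _ => ?_
              rw [Ex_mul_left]
              exact mul_le_mul_of_nonneg_left (fact3 w (Q i) (K i) p b n (hP i hi p hp).2.1
                (hP i hi p hp).2.2) (by positivity)
          _ = (1 / (4 * ((M : ℝ) * p) ^ 2)) * (PS w / sg (Q i) w) *
                ∑ b ∈ range p, ∏ q ∈ pr (Q i) w, (1 + 2 * (dd (K i) q p (n % p) b : ℝ) / q) := by
              rw [mul_sum]
              exact sum_congr rfl fun b _ => by ring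
          _ ≤ (1 / (4 * ((M : ℝ) * p) ^ 2)) * (PS w / sg (Q i) w) * (3 * (p : ℝ)) :=
              mul_le_mul_of_nonneg_left (hthree i hi p hp) (by positivity)
          _ = _ := by field_simp
      refine (sum_le_sum h3).trans_eq ?_
      rw [← sum_mul]
      unfold mu
      ring
    refine (sum_le_sum h2).trans_eq ?_
    rw [← sum_mul, ← mul_sum]
  · intro a
    rw [← sum_sub_distrib]
    refine sum_le_sum fun i hi => ?_
    rw [← sum_sub_distrib]
    refine sum_le_sum fun p hp => ?_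
    have hG := (hP i hi p hp).2.1
    have hp0 : (0 : ℝ) < p := by exact_mod_cast (hP i hi p hp).1
    exact scalar_ineq _ _ _ (W_nonneg _ _ _ _ _ _ hG) (Z_nonneg _ _ _ _ _ hG) (by positivity)

end Pool.Agent.P2Gap
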