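import Pool.Agent.P2Gap.W

set_option autoImplicit false

namespace Pool.Agent.P2Gap

open Finset

lemma inter_cc (K q p p' n : ℕ)
    (hn : n / p ≤ K) (hn' : n / p' ≤ K) :
    ((cl K p (n % p) q) ∩ (cl K p' (n % p') q)).card ≤ 1 + cc K q p p' := by
  classical
  have hsub : ((cl K p (n % p) q) ∩ (cl K p' (n % p') q)) ⊆
      insert (n % q) (({x ∈ (Finset.Icc (-(K : ℤ)) K) ×ˢ (Finset.Icc (-(K : ℤ)) K) |
        x.1 ≠ 0 ∧ x.2 ≠ 0 ∧ (q : ℤ) ∣ x.1 * p - x.2 * p'}).image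
          (fun x => (((n : ℤ) + x.1 * p) % q).toNat)) := by
    intro r hr
    rw [mem_inter] at hr
    obtain ⟨h1, h2⟩ := hr
    simp only [cl, mem_image, mem_range] at h1 h2
    obtain ⟨j, hj, hjr⟩ := h1
    obtain ⟨j', hj', hjr'⟩ := h2
    rw [mem_insert]
    by_cases hr : r = n % q
    · exact Or.inl hr
    right
    rw [mem_image]
    have e1 : (n : ℤ) = (n % p : ℕ) + (n / p : ℕ) * (p : ℤ) := by
      have := Nat.mod_add_div n p
      push_cast
      have h : ((n % p + p * (n / p) : ℕ) : ℤ) = n := by exact_mod_cast this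
      push_cast at h
      linarith
    have e2 : (n : ℤ) = (n % p' : ℕ) + (n / p' : ℕ) * (p' : ℤ) := by
      have := Nat.mod_add_div n p'
      push_cast
      have h : ((n % p' + p' * (n / p') : ℕ) : ℤ) = n := by exact_mod_cast this
      push_cast at h
      linarith
    have f1 : ((n : ℤ) + ((j : ℤ) - (n / p : ℕ)) * p) = ((n % p + j * p : ℕ) : ℤ) := by
      push_cast
      push_cast at e1
      linarith
    have f2 : ((n : ℤ) + ((j' : ℤ) - (n / p' : ℕ)) * p') = ((n % p' + j' * p' : ℕ) : ℤ) := by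
      push_cast
      push_cast at e2
      linarith
    have g1 : (((n : ℤ) + ((j : ℤ) - (n / p : ℕ)) * p) % q).toNat = r := by
      rw [f1]
      have : (((n % p + j * p : ℕ) : ℤ) % (q : ℤ)) = ((r : ℕ) : ℤ) := by
        rw [← hjr]; push_cast; rfl
      rw [this]; simp
    have g2 : (((n : ℤ) + ((j' : ℤ) - (n / p' : ℕ)) * p') % q).toNat = r := by
      rw [f2]
      have : (((n % p' + j' * p' : ℕ) : ℤ) % (q : ℤ)) = ((r : ℕ) : ℤ) := by
        rw [← hjr']; push_cast; rfl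
      rw [this]; simp
    refine ⟨((j : ℤ) - (n / p : ℕ), (j' : ℤ) - (n / p' : ℕ)), ?_, g1⟩
    rw [mem_filter, mem_product, mem_Icc, mem_Icc]
    have b1 : ((n / p : ℕ) : ℤ) ≤ K := by exact_mod_cast hn
    have b2 : ((n / p' : ℕ) : ℤ) ≤ K := by exact_mod_cast hn'
    have b3 : (0 : ℤ) ≤ ((n / p : ℕ) : ℤ) := Int.natCast_nonneg _
    have b4 : (0 : ℤ) ≤ ((n / p' : ℕ) : ℤ) := Int.natCast_nonneg _
    have b5 : (j : ℤ) ≤ K := by omega
    have b6 : (j' : ℤ) ≤ K := by omega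
    have b7 : (0 : ℤ) ≤ (j : ℤ) := Int.natCast_nonneg _
    have b8 : (0 : ℤ) ≤ (j' : ℤ) := Int.natCast_nonneg _
    refine ⟨⟨⟨by simp only; linarith, by simp only; linarith⟩,
      ⟨by simp only; linarith, by simp only; linarith⟩⟩, ?_, ?_, ?_⟩
    · intro h0
      simp only at h0
      apply hr
      rw [h0, zero_mul, add_zero] at g1
      rw [← g1]
      rw [← Int.natCast_mod, Int.toNat_natCast]
    · intro h0
      simp only at h0
      apply hr
      rw [h0, zero_mul, add_zero] at g2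
      rw [← g2]
      rw [← Int.natCast_mod, Int.toNat_natCast]
    · have h3 : ((n % p + j * p : ℕ) : ℤ) ≡ ((n % p' + j' * p' : ℕ) : ℤ) [ZMOD q] := by
        rw [Int.natCast_modEq_iff]
        unfold Nat.ModEq
        rw [hjr, hjr']
      rw [← f1, ← f2] at h3
      have h4 := (Int.ModEq.dvd h3.symm)
      have h5 : ((n : ℤ) + ((j : ℤ) - (n / p : ℕ)) * p) - ((n : ℤ) + ((j' : ℤ) - (n / p' : ℕ)) * p')
          = ((j : ℤ) - (n / p : ℕ)) * p - ((j' : ℤ) - (n / p' : ℕ)) * p' := by ring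
      rw [h5] at h4
      exact h4
  refine (card_le_card hsub).trans ((card_insert_le _ _).trans ?_)
  rw [add_comm]
  exact Nat.add_le_add_left card_image_le 1

lemma inter_dd (K q p a a' : ℕ) :
    ((cl K p a q) ∩ (cl K p a' q)).card ≤ dd K q p a a' := by
  classical
  have hsub : ((cl K p a q) ∩ (cl K p a' q)) ⊆
      ({x ∈ Finset.range (K + 1) ×ˢ Finset.range (K + 1) |
    (q : ℤ) ∣ ((a : ℤ) + x.1 * p) - (a' + x.2 * p)}).image
          (fun x => (a + x.1 * p) % q) := by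
    intro r hr
    rw [mem_inter] at hr
    obtain ⟨h1, h2⟩ := hr
    simp only [cl, mem_image, mem_range] at h1 h2
    obtain ⟨j, hj, hjr⟩ := h1
    obtain ⟨j', hj', hjr'⟩ := h2
    rw [mem_image]
    refine ⟨(j, j'), ?_, hjr⟩
    rw [mem_filter, mem_product, mem_range, mem_range]
    refine ⟨⟨hj, hj'⟩, ?_⟩
    have h3 : ((a + j * p : ℕ) : ℤ) ≡ ((a' + j' * p : ℕ) : ℤ) [ZMOD q] := by
      rw [Int.natCast_modEq_iff]
      unfold Nat.ModEq
      rw [hjr, hjr']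
    have h4 := (Int.ModEq.dvd h3.symm)
    push_cast at h4
    exact h4
  exact (card_le_card hsub).trans card_image_le

lemma alg_cc (q k c U : ℝ) (hk : 1 ≤ k) (hq : 4 * k ≤ q) (hc : 0 ≤ c) (hU : 2 * k - (1 + c) ≤ U) :
    (1 - U / q) * ((1 - k / q)⁻¹ * (1 - k / q)⁻¹) ≤ (1 + 2 * c / q) / (1 - 1 / q) := by
  have hq0 : 0 < q := by linarith
  have h1 : 0 < 1 - k / q := by
    have : k / q ≤ 1 / 4 := by rw [div_le_iff₀ hq0]; linarith
    linarith
  have h2 : 0 < 1 - 1 / q := by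
    have : 1 / q ≤ 1 / 4 := by rw [div_le_iff₀ hq0]; linarith
    linarith
  rw [← mul_inv, ← div_eq_mul_inv, div_le_div_iff₀ (by positivity) h2]
  have hA : 1 - U / q ≤ 1 - (2 * k - 1) / q + c / q := by
    have : (2 * k - (1 + c)) / q ≤ U / q := by gcongr
    have e : (2 * k - (1 + c)) / q = (2 * k - 1) / q - c / q := by ring
    linarith
  have hB : 1 - (2 * k - 1) / q + c / q ≤ (1 - (2 * k - 1) / q) * (1 + 2 * c / q) := by
    have h3 : (2 * k - 1) / q ≤ 1 / 2 := by rw [div_le_iff₀ hq0]; linarith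
    have h4 : 0 ≤ c / q := by positivity
    have e : 2 * c / q = 2 * (c / q) := by ring
    rw [e]
    nlinarith
  have hC : (1 - (2 * k - 1) / q) * (1 - 1 / q) ≤ (1 - k / q) * (1 - k / q) := by
    have e : (1 - k / q) * (1 - k / q) - (1 - (2 * k - 1) / q) * (1 - 1 / q) =
        ((k - 1) / q) ^ 2 := by field_simp; ring
    nlinarith [sq_nonneg ((k - 1) / q)]
  have hD : 0 ≤ 1 + 2 * c / q := by positivity
  calc (1 - U / q) * (1 - 1 / q) ≤ ((1 - (2 * k - 1) / q) * (1 + 2 * c / q)) * (1 - 1 / q) :=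
        mul_le_mul_of_nonneg_right (hA.trans hB) h2.le
    _ = (1 + 2 * c / q) * ((1 - (2 * k - 1) / q) * (1 - 1 / q)) := by ring
    _ ≤ (1 + 2 * c / q) * ((1 - k / q) * (1 - k / q)) := mul_le_mul_of_nonneg_left hC hD

lemma alg_dd (q k c U : ℝ) (hk : 1 ≤ k) (hq : 4 * k ≤ q) (hc : 0 ≤ c) (hU : 2 * k - c ≤ U) :
    (1 - U / q) * ((1 - k / q)⁻¹ * (1 - k / q)⁻¹) ≤ 1 + 2 * c / q := by
  have hq0 : 0 < q := by linarith
  have h0 : k / q ≤ 1 / 4 := by rw [div_le_iff₀ hq0]; linarith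
  have h0' : 0 ≤ k / q := by positivity
  have h1 : 0 < 1 - k / q := by linarith
  rw [← mul_inv, ← div_eq_mul_inv, div_le_iff₀ (by positivity)]
  have hA : 1 - U / q ≤ 1 - 2 * (k / q) + c / q := by
    have : (2 * k - c) / q ≤ U / q := by gcongr
    have e : (2 * k - c) / q = 2 * (k / q) - c / q := by ring
    linarith
  have h4 : 0 ≤ c / q := by positivity
  have e : 2 * c / q = 2 * (c / q) := by ring
  rw [e]
  have h5 : 1 ≤ 2 * ((1 - k / q) * (1 - k / q)) := by nlinarith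
  nlinarith [mul_le_mul_of_nonneg_left h5 h4, sq_nonneg (k / q)]

lemma card_union_real (A B : Finset ℕ) (k : ℕ) (hA : A.card = k) (hB : B.card = k) (c : ℕ)
    (h : (A ∩ B).card ≤ c) : 2 * (k : ℝ) - c ≤ ((A ∪ B).card : ℝ) := by
  have h1 := card_union_add_card_inter A B
  rw [hA, hB] at h1
  have h2 : ((A ∪ B).card : ℝ) + ((A ∩ B).card : ℝ) = k + k := by exact_mod_cast h1
  have h3 : ((A ∩ B).card : ℝ) ≤ c := by exact_mod_cast h
  linarith

/-- second moment for a pair of primes -/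
lemma Ex_pair (S : Finset ℕ) (Q K p p' n : ℕ) (hG : Good S Q K p) (hG' : Good S Q K p')
    (hn : n / p ≤ K) (hn' : n / p' ≤ K) :
    Ex S (fun a => Rn S n a * W S Q K p (n % p) a * W S Q K p' (n % p') a) ≤
      ∏ q ∈ S, (if Q < q then (1 + 2 * (cc K q p p' : ℝ) / q) / (1 - 1 / q) else 1 - 1 / (q : ℝ)) := by
  refine Ex_RWW S Q K p (n % p) p' (n % p') n hG (fun q _ => mem_cl_self K p n q hn)
    (fun q => (1 + 2 * (cc K q p p' : ℝ) / q) / (1 - 1 / q)) fun q hq hQ => ?_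
  have hb : 4 * (K + 1) ≤ q := hG.big q hq hQ
  have hbr : 4 * ((K : ℝ) + 1) ≤ q := by exact_mod_cast hb
  have hpq := hG.prime q hq
  have h1 := card_union_real _ _ (K + 1) (cl_card K p (n % p) q hpq (by omega) (hG.notdvd q hq))
    (cl_card K p' (n % p') q hpq (by omega) (hG'.notdvd q hq)) (1 + cc K q p p')
    (inter_cc K q p p' n hn hn')
  push_cast at h1
  exact alg_cc q (K + 1) (cc K q p p') _ (by linarith [Nat.cast_nonneg (α := ℝ) K]) hbr
    (Nat.cast_nonneg _) h1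

/-- second moment for a pair of classes modulo the same prime -/
lemma Ex_same (S : Finset ℕ) (Q K p n b : ℕ) (hG : Good S Q K p) (hn : n / p ≤ K) :
    Ex S (fun a => Rn S n a * W S Q K p (n % p) a * W S Q K p b a) ≤
      ∏ q ∈ S, (if Q < q then (1 + 2 * (dd K q p (n % p) b : ℝ) / q) else 1 - 1 / (q : ℝ)) := by
  refine Ex_RWW S Q K p (n % p) p b n hG (fun q _ => mem_cl_self K p n q hn)
    (fun q => 1 + 2 * (dd K q p (n % p) b : ℝ) / q) fun q hq hQ => ?_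
  have hb : 4 * (K + 1) ≤ q := hG.big q hq hQ
  have hbr : 4 * ((K : ℝ) + 1) ≤ q := by exact_mod_cast hb
  have hpq := hG.prime q hq
  have h1 := card_union_real _ _ (K + 1) (cl_card K p (n % p) q hpq (by omega) (hG.notdvd q hq))
    (cl_card K p b q hpq (by omega) (hG.notdvd q hq)) (dd K q p (n % p) b)
    (inter_dd K q p (n % p) b)
  push_cast at h1
  exact alg_dd q (K + 1) (dd K q p (n % p) b) _ (by linarith [Nat.cast_nonneg (α := ℝ) K]) hbr
    (Nat.cast_nonneg _) h1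

lemma prod_split (Q w : ℕ) (A B : ℕ → ℝ) :
    ∏ q ∈ pr 0 w, (if Q < q then A q else B q) =
      (∏ q ∈ pr Q w, A q) * ∏ q ∈ (pr 0 w).filter (fun q => ¬ Q < q), B q := by
  rw [prod_ite]
  congr 2
  ext q
  simp only [mem_filter, mem_Ioc]
  constructor
  · rintro ⟨⟨⟨h1, h2⟩, h3⟩, h4⟩; exact ⟨⟨h4, h2⟩, h3⟩
  · rintro ⟨⟨h1, h2⟩, h3⟩; exact ⟨⟨⟨by omega, h2⟩, h3⟩, h1⟩

/-- `∏_{q ≤ w} (1 - 1/q)` -/
noncomputable def PS (w : ℕ) : ℝ := ∏ q ∈ pr 0 w, (1 - 1 / (q : ℝ))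

/-- `∏_{Q < q ≤ w} (1 - 1/q)` -/
noncomputable def sg (Q w : ℕ) : ℝ := ∏ q ∈ pr Q w, (1 - 1 / (q : ℝ))

lemma one_sub_pos (q : ℕ) (hq : q.Prime) : (0 : ℝ) < 1 - 1 / (q : ℝ) := by
  have h2 : (2 : ℝ) ≤ q := by exact_mod_cast hq.two_le
  have : 1 / (q : ℝ) ≤ 1 / 2 := one_div_le_one_div_of_le (by norm_num) h2
  linarith

lemma sg_pos (Q w : ℕ) : 0 < sg Q w := by
  refine prod_pos fun q hq => one_sub_pos q ?_
  exact (mem_filter.1 hq).2

lemma PS_pos (w : ℕ) : 0 < PS w := by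
  refine prod_pos fun q hq => one_sub_pos q ?_
  exact (mem_filter.1 hq).2

lemma PS_eq (Q w : ℕ) : PS w = sg Q w * ∏ q ∈ (pr 0 w).filter (fun q => ¬ Q < q), (1 - 1 / (q : ℝ)) := by
  have := prod_split Q w (fun q => 1 - 1 / (q : ℝ)) (fun q => 1 - 1 / (q : ℝ))
  simp only [ite_self] at this
  exact this

lemma low_eq (Q w : ℕ) : ∏ q ∈ (pr 0 w).filter (fun q => ¬ Q < q), (1 - 1 / (q : ℝ)) =
    PS w / sg Q w := by
  rw [PS_eq Q w, mul_div_cancel_left₀ _ (sg_pos Q w).ne']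

/-- the facts about one prime scale, for `S = pr 0 w` -/
lemma fact1 (w Q K p n : ℕ) (hG : Good (pr 0 w) Q K p) (hn : n / p ≤ K) :
    Ex (pr 0 w) (fun a => Rn (pr 0 w) n a * W (pr 0 w) Q K p (n % p) a) = PS w / sg Q w := by
  rw [Ex_RW _ Q K p n hG hn, prod_split, prod_const_one, one_mul, low_eq]

lemma fact2 (w Q K p p' n : ℕ) (hG : Good (pr 0 w) Q K p) (hG' : Good (pr 0 w) Q K p')
    (hn : n / p ≤ K) (hn' : n / p' ≤ K) :
    Ex (pr 0 w) (fun a => Rn (pr 0 w) n a * W (pr 0 w) Q K p (n % p) a *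
      W (pr 0 w) Q K p' (n % p') a) ≤
      PS w / sg Q w ^ 2 * ∏ q ∈ pr Q w, (1 + 2 * (cc K q p p' : ℝ) / q) := by
  refine (Ex_pair _ Q K p p' n hG hG' hn hn').trans_eq ?_
  rw [prod_split, low_eq, prod_div_distrib]
  have h : ∏ q ∈ pr Q w, (1 - 1 / (q : ℝ)) = sg Q w := rfl
  rw [h]
  have := (sg_pos Q w).ne'
  field_simp

lemma fact3 (w Q K p b n : ℕ) (hG : Good (pr 0 w) Q K p) (hn : n / p ≤ K) :
    Ex (pr 0 w) (fun a => Rn (pr 0 w) n a * W (pr 0 w) Q K p (n % p) a *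
      W (pr 0 w) Q K p b a) ≤
      PS w / sg Q w * ∏ q ∈ pr Q w, (1 + 2 * (dd K q p (n % p) b : ℝ) / q) := by
  refine (Ex_same _ Q K p n b hG hn).trans_eq ?_
  rw [prod_split, low_eq]
  ring

lemma fact0 (w n : ℕ) : Ex (pr 0 w) (Rn (pr 0 w) n) = PS w :=
  Ex_Rn _ (fun q hq => ((mem_filter.1 hq).2).pos) n

lemma Rn_nonneg (S : Finset ℕ) (n : ℕ) (a : ℕ → ℕ) : 0 ≤ Rn S n a :=
  prod_nonneg fun _ _ => by split_ifs <;> norm_num

lemma W_nonneg (S : Finset ℕ) (Q K p b : ℕ) (a : ℕ → ℕ) (hG : Good S Q K p) :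
    0 ≤ W S Q K p b a := by
  refine prod_nonneg fun q hq => ?_
  split_ifs with h1 h2
  · exact le_rfl
  · have hb := hG.big q hq h1
    have hq0 : (0 : ℝ) < q := by exact_mod_cast (hG.prime q hq).pos
    have hqr : (4 * ((K : ℝ) + 1)) ≤ q := by exact_mod_cast hb
    have : ((K : ℝ) + 1) / q ≤ 1 / 4 := by rw [div_le_iff₀ hq0]; linarith
    exact inv_nonneg.2 (by linarith)
  · norm_num

end Pool.Agent.P2Gap
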