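import Pool.Agent.P2Gap.Core

set_option autoImplicit false

namespace Pool.Agent.P2Gap

open Finset

lemma G0_le (w z₁ y : ℕ) (hz : 0 < z₁) :
    #{n ∈ Finset.Icc 1 y | #{p ∈ pr w z₁ | p ∣ n} = 0} ≤ #(sm w y) + #(pr 0 y) * (y / z₁) := by
  classical
  have hsub : {n ∈ Finset.Icc 1 y | #{p ∈ pr w z₁ | p ∣ n} = 0} ⊆
      sm w y ∪ (pr z₁ y).biUnion (fun p => (Finset.Ioc 0 y).filter (p ∣ ·)) := by
    intro n hn
    rw [mem_filter, mem_Icc, card_eq_zero] at hn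
    obtain ⟨⟨h1, h2⟩, h3⟩ := hn
    rw [mem_union]
    by_cases h : ∀ p ∈ n.primeFactors, p ≤ w
    · left; rw [mem_filter, mem_Icc]; exact ⟨⟨h1, h2⟩, h⟩
    · right
      push Not at h
      obtain ⟨p, hp, hpw⟩ := h
      rw [Nat.mem_primeFactors] at hp
      rw [mem_biUnion]
      have hpy : p ≤ y := (Nat.le_of_dvd h1 hp.2.1).trans h2
      refine ⟨p, ?_, ?_⟩
      · rw [mem_filter, mem_Ioc]
        refine ⟨⟨?_, hpy⟩, hp.1⟩
        by_contra hle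
        push Not at hle
        have : p ∈ {p ∈ pr w z₁ | p ∣ n} := by
          rw [mem_filter, mem_filter, mem_Ioc]
          exact ⟨⟨⟨hpw, hle⟩, hp.1⟩, hp.2.1⟩
        rw [h3] at this
        exact notMem_empty _ this
      · rw [mem_filter, mem_Ioc]; exact ⟨⟨h1, h2⟩, hp.2.1⟩
  refine (card_le_card hsub).trans ((card_union_le _ _).trans ?_)
  refine Nat.add_le_add_left ?_ _
  refine (card_biUnion_le).trans ?_
  calc ∑ p ∈ pr z₁ y, #((Finset.Ioc 0 y).filter (p ∣ ·)) ≤ ∑ p ∈ pr z₁ y, y / z₁ := by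
        refine sum_le_sum fun p hp => ?_
        rw [mem_filter, mem_Ioc] at hp
        rw [Nat.Ioc_filter_dvd_card_eq_div]
        exact Nat.div_le_div_left hp.1.1.le hz
    _ = #(pr z₁ y) * (y / z₁) := by rw [sum_const, smul_eq_mul]
    _ ≤ #(pr 0 y) * (y / z₁) := by
        refine Nat.mul_le_mul_right _ (card_le_card ?_)
        intro p hp
        rw [mem_filter, mem_Ioc] at hp ⊢
        exact ⟨⟨by omega, hp.1.2⟩, hp.2⟩


/-- pass from the uniform second moment bound to the `1/p`-weighted one -/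
lemma sec_weight (e : ℕ) (ε : ℝ) (hε : 0 ≤ ε) (f : ℕ → ℝ) (hf : ∀ p, 1 ≤ f p)
    (h : ∑ p ∈ pr (8 ^ e) (8 ^ (e + 1)), f p ≤ (1 + ε) * (#(pr (8 ^ e) (8 ^ (e + 1))) : ℝ)) :
    ∑ p ∈ pr (8 ^ e) (8 ^ (e + 1)), (1 / (p : ℝ)) * f p ≤
      (1 + 8 * ε) * ∑ p ∈ pr (8 ^ e) (8 ^ (e + 1)), 1 / (p : ℝ) := by
  set P := pr (8 ^ e) (8 ^ (e + 1)) with hP
  have hmem : ∀ p ∈ P, (8 : ℝ) ^ e < p ∧ (p : ℝ) ≤ 8 ^ (e + 1) := by
    intro p hp
    rw [hP, mem_filter, mem_Ioc] at hp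
    exact ⟨by exact_mod_cast hp.1.1, by exact_mod_cast hp.1.2⟩
  have h8 : (0 : ℝ) < 8 ^ e := by positivity
  have h1 : ∑ p ∈ P, (1 / (p : ℝ)) * (f p - 1) ≤ (1 / 8 ^ e) * (ε * (#P : ℝ)) := by
    calc ∑ p ∈ P, (1 / (p : ℝ)) * (f p - 1) ≤ ∑ p ∈ P, (1 / 8 ^ e) * (f p - 1) := by
          refine sum_le_sum fun p hp => mul_le_mul_of_nonneg_right ?_ (by linarith [hf p])
          exact one_div_le_one_div_of_le h8 (hmem p hp).1.le
      _ = (1 / 8 ^ e) * (∑ p ∈ P, f p - (#P : ℝ)) := by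
          rw [← mul_sum, sum_sub_distrib, sum_const, nsmul_eq_mul, mul_one]
      _ ≤ (1 / 8 ^ e) * (ε * (#P : ℝ)) := by
          apply mul_le_mul_of_nonneg_left _ (by positivity)
          linarith
  have h2 : (1 / 8 ^ (e + 1)) * (#P : ℝ) ≤ ∑ p ∈ P, 1 / (p : ℝ) := by
    rw [mul_comm, ← nsmul_eq_mul]
    refine card_nsmul_le_sum _ _ _ fun p hp => ?_
    have : (0 : ℝ) < p := h8.trans (hmem p hp).1
    exact one_div_le_one_div_of_le this (hmem p hp).2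
  have h3 : ∑ p ∈ P, (1 / (p : ℝ)) * f p = ∑ p ∈ P, (1 / (p : ℝ)) * (f p - 1) + ∑ p ∈ P, 1 / (p : ℝ) := by
    rw [← sum_add_distrib]
    exact sum_congr rfl fun p _ => by ring
  have h4 : (1 / (8 : ℝ) ^ e) * (ε * (#P : ℝ)) = 8 * ε * ((1 / 8 ^ (e + 1)) * (#P : ℝ)) := by
    rw [pow_succ]
    field_simp
  rw [h3]
  have h5 := mul_le_mul_of_nonneg_left h2 (show (0 : ℝ) ≤ 8 * ε by linarith)
  linarith

/-- lower bound for the mean of one scale -/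
lemma mu_lower (w Q M e E : ℕ) (c c₄ : ℝ) (hc : 0 < c) (hc₄ : 0 < c₄) (hM : 0 < M)
    (hcount : c * 8 ^ (e + 1) / (e + 1) ≤ (#(pr (8 ^ e) (8 ^ (e + 1))) : ℝ))
    (hrange : c₄ * Real.log w / Real.log Q ≤ ∏ p ∈ pr Q w, (1 - 1 / (p : ℝ))⁻¹)
    (hE : e + 1 ≤ E) (hw : 0 ≤ Real.log w) (hQ : 0 < Real.log Q) :
    (c * c₄ / M) * (Real.log w / (E * Real.log Q)) ≤ mu w Q M (pr (8 ^ e) (8 ^ (e + 1))) := by
  set P := pr (8 ^ e) (8 ^ (e + 1)) with hP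
  have hmem : ∀ p ∈ P, (8 : ℝ) ^ e < p ∧ (p : ℝ) ≤ 8 ^ (e + 1) := by
    intro p hp
    rw [hP, mem_filter, mem_Ioc] at hp
    exact ⟨by exact_mod_cast hp.1.1, by exact_mod_cast hp.1.2⟩
  have h8 : (0 : ℝ) < 8 ^ e := by positivity
  have h2 : (1 / 8 ^ (e + 1)) * (#P : ℝ) ≤ ∑ p ∈ P, 1 / (p : ℝ) := by
    rw [mul_comm, ← nsmul_eq_mul]
    refine card_nsmul_le_sum _ _ _ fun p hp => ?_
    have : (0 : ℝ) < p := h8.trans (hmem p hp).1
    exact one_div_le_one_div_of_le this (hmem p hp).2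
  have hE0 : (0 : ℝ) < E := by exact_mod_cast (by omega : 0 < E)
  have hEr : (e : ℝ) + 1 ≤ E := by exact_mod_cast hE
  have h3 : c / E ≤ ∑ p ∈ P, 1 / (p : ℝ) := by
    refine le_trans ?_ h2
    have h4 : (1 / (8 : ℝ) ^ (e + 1)) * (c * 8 ^ (e + 1) / (e + 1)) ≤ (1 / 8 ^ (e + 1)) * (#P : ℝ) :=
      mul_le_mul_of_nonneg_left hcount (by positivity)
    refine le_trans ?_ h4
    have h5 : (1 / (8 : ℝ) ^ (e + 1)) * (c * 8 ^ (e + 1) / (e + 1)) = c / (e + 1) := by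
      field_simp
    rw [h5]
    exact div_le_div_of_nonneg_left hc.le (by positivity) hEr
  have hsg : (∏ p ∈ pr Q w, (1 - 1 / (p : ℝ))⁻¹) = (sg Q w)⁻¹ := by
    unfold sg; rw [prod_inv_distrib]
  rw [hsg] at hrange
  have hMr : (0 : ℝ) < M := by exact_mod_cast hM
  have hsgp := sg_pos Q w
  unfold mu
  calc (c * c₄ / M) * (Real.log w / (E * Real.log Q)) =
        (1 / M) * ((c / E) * (c₄ * Real.log w / Real.log Q)) := by field_simp
    _ ≤ (1 / M) * ((∑ p ∈ P, 1 / (p : ℝ)) * (sg Q w)⁻¹) := by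
        apply mul_le_mul_of_nonneg_left _ (by positivity)
        exact mul_le_mul h3 hrange (by positivity) (sum_nonneg fun p _ => by positivity)
    _ = (∑ p ∈ P, 1 / (p : ℝ)) / (M * sg Q w) := by field_simp

lemma harm_lower (I : ℕ) : Real.log (I + 1) ≤ ∑ i ∈ Finset.Icc 1 I, 1 / (i : ℝ) := by
  induction I with
  | zero => simp
  | succ n ih =>
    rw [sum_Icc_succ_top (by omega)]
    have h1 : Real.log ((n + 1 : ℕ) + 1) ≤ Real.log (n + 1) + 1 / ((n + 1 : ℕ) : ℝ) := by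
      have hn : (0 : ℝ) < (n : ℝ) + 1 := by positivity
      have h2 : (((n + 1 : ℕ) : ℝ) + 1) = ((n : ℝ) + 1) * (1 + 1 / ((n : ℝ) + 1)) := by
        push_cast; field_simp
      rw [h2, Real.log_mul hn.ne' (by positivity)]
      have h3 := Real.log_le_sub_one_of_pos (show (0 : ℝ) < 1 + 1 / ((n : ℝ) + 1) by positivity)
      push_cast
      linarith
    linarith

end Pool.Agent.P2Gap
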