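import Pool.Agent.P2Gap.Ex

set_option autoImplicit false

namespace Pool.Agent.P2Gap

open Finset

/-- residues mod `q` of the progression `b, b+p, ..., b+Kp` -/
def cl (K p b q : ℕ) : Finset ℕ := (range (K + 1)).image (fun j => (b + j * p) % q)

/-- indicator that `n` avoids all the classes `a q`, `q ∈ S` -/
noncomputable def Rn (S : Finset ℕ) (n : ℕ) (a : ℕ → ℕ) : ℝ :=
  ∏ q ∈ S, (if n % q = a q then 0 else 1)

/-- weight of the class `b mod p` -/
noncomputable def W (S : Finset ℕ) (Q K p b : ℕ) (a : ℕ → ℕ) : ℝ :=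
  ∏ q ∈ S, (if Q < q then (if a q ∈ cl K p b q then 0 else (1 - ((K : ℝ) + 1) / q)⁻¹) else 1)

lemma cl_sub (K p b q : ℕ) (hq : 0 < q) : cl K p b q ⊆ range q := by
  intro r hr
  simp only [cl, mem_image, mem_range] at hr ⊢
  obtain ⟨j, _, rfl⟩ := hr
  exact Nat.mod_lt _ hq

lemma cl_card (K p b q : ℕ) (hq : q.Prime) (hK : K < q) (hpq : ¬ q ∣ p) :
    (cl K p b q).card = K + 1 := by
  unfold cl
  rw [card_image_of_injOn, card_range]
  intro i hi j hj hij
  simp only [coe_range, Set.mem_Iio] at hi hj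
  simp only at hij
  have h1 : b + i * p ≡ b + j * p [MOD q] := hij
  have h2 : i * p ≡ j * p [MOD q] := Nat.ModEq.add_left_cancel' b h1
  have h3 : i ≡ j [MOD q] := by
    apply Nat.ModEq.cancel_right_of_coprime _ h2
    exact (Nat.Prime.coprime_iff_not_dvd hq).2 hpq
  have h4 := h3
  unfold Nat.ModEq at h4
  rw [Nat.mod_eq_of_lt (by omega), Nat.mod_eq_of_lt (by omega)] at h4
  exact h4

lemma mem_cl_self (K p n q : ℕ) (hn : n / p ≤ K) : n % q ∈ cl K p (n % p) q := by
  simp only [cl, mem_image, mem_range]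
  refine ⟨n / p, by omega, ?_⟩
  rw [mul_comm, Nat.mod_add_div]

lemma avg_aux (q : ℕ) (U : Finset ℕ) (hU : U ⊆ range q) (hq : 0 < q) (c : ℝ) :
    (∑ b ∈ range q, (if b ∈ U then 0 else c)) / q = (1 - (U.card : ℝ) / q) * c := by
  classical
  have hq' : (q : ℝ) ≠ 0 := by positivity
  have h1 : ∑ b ∈ range q, (if b ∈ U then 0 else c) = ∑ b ∈ range q \ U, c := by
    rw [Finset.sum_ite, sum_const_zero, zero_add]
    congr 1
    ext b; simp
  rw [h1, sum_const, nsmul_eq_mul, card_sdiff_of_subset hU, card_range,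
    Nat.cast_sub (by simpa using card_le_card hU)]
  field_simp

/-- common hypotheses on the small primes -/
structure Good (S : Finset ℕ) (Q K p : ℕ) : Prop where
  prime : ∀ q ∈ S, q.Prime
  big : ∀ q ∈ S, Q < q → 4 * (K + 1) ≤ q
  notdvd : ∀ q ∈ S, ¬ q ∣ p

lemma sum_small_factor (q n : ℕ) (hq : 0 < q) :
    (∑ b ∈ range q, (if n % q = b then (0 : ℝ) else 1)) / q = 1 - 1 / q := by
  have h := avg_aux q {n % q} (by simpa using Nat.mod_lt n hq) hq 1
  rw [card_singleton, Nat.cast_one, mul_one] at h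
  rw [← h]
  congr 1
  refine sum_congr rfl fun b _ => ?_
  simp only [mem_singleton]
  by_cases hb : n % q = b
  · rw [if_pos hb, if_pos hb.symm]
  · rw [if_neg hb, if_neg (fun h => hb h.symm)]

lemma Ex_Rn (S : Finset ℕ) (hS : ∀ q ∈ S, 0 < q) (n : ℕ) :
    Ex S (Rn S n) = ∏ q ∈ S, (1 - 1 / (q : ℝ)) := by
  unfold Rn
  rw [Ex_prod S (fun q b => if n % q = b then (0 : ℝ) else 1)]
  exact prod_congr rfl fun q hq => sum_small_factor q n (hS q hq)

/-- first moment -/
lemma Ex_RW (S : Finset ℕ) (Q K p n : ℕ) (hG : Good S Q K p) (hn : n / p ≤ K) :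
    Ex S (fun a => Rn S n a * W S Q K p (n % p) a) =
      ∏ q ∈ S, (if Q < q then 1 else 1 - 1 / (q : ℝ)) := by
  have h1 : ∀ a : ℕ → ℕ, Rn S n a * W S Q K p (n % p) a = ∏ q ∈ S,
      ((if n % q = a q then (0 : ℝ) else 1) *
        (if Q < q then (if a q ∈ cl K p (n % p) q then 0 else (1 - ((K : ℝ) + 1) / q)⁻¹) else 1)) := by
    intro a
    rw [Rn, W, ← prod_mul_distrib]
  rw [Ex_congr S _ _ h1, Ex_prod S (fun q b => (if n % q = b then (0 : ℝ) else 1) *
        (if Q < q then (if b ∈ cl K p (n % p) q then 0 else (1 - ((K : ℝ) + 1) / q)⁻¹) else 1))]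
  refine prod_congr rfl fun q hq => ?_
  have hq0 : 0 < q := (hG.prime q hq).pos
  by_cases hQ : Q < q
  · simp only [if_pos hQ]
    have hb := hG.big q hq hQ
    have h2 : ∀ b ∈ range q, (if n % q = b then (0 : ℝ) else 1) *
        (if b ∈ cl K p (n % p) q then 0 else (1 - ((K : ℝ) + 1) / q)⁻¹) =
        (if b ∈ cl K p (n % p) q then 0 else (1 - ((K : ℝ) + 1) / q)⁻¹) := by
      intro b _
      by_cases hb : n % q = b
      · rw [if_pos hb, if_pos (hb ▸ mem_cl_self K p n q hn)]; simp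
      · rw [if_neg hb, one_mul]
    rw [sum_congr rfl h2, avg_aux q _ (cl_sub K p _ q hq0) hq0,
      cl_card K p _ q (hG.prime q hq) (by omega) (hG.notdvd q hq)]
    push_cast
    have hqr : (4 * ((K : ℝ) + 1)) ≤ q := by exact_mod_cast hb
    have hqp : (0 : ℝ) < q := by exact_mod_cast hq0
    rw [mul_inv_cancel₀]
    have : ((K : ℝ) + 1) / q ≤ 1 / 4 := by rw [div_le_iff₀ hqp]; linarith
    linarith
  · simp only [if_neg hQ, mul_one]
    exact sum_small_factor q n hq0

/-- value of the factor for a pair of classes -/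
lemma pair_factor (K p b p' b' q n : ℕ) (hq : 0 < q)
    (hn : n % q ∈ cl K p b q) (c : ℝ) :
    (∑ r ∈ range q, (if n % q = r then (0 : ℝ) else 1) * (if r ∈ cl K p b q then 0 else c) *
      (if r ∈ cl K p' b' q then 0 else c)) / q =
      (1 - (((cl K p b q) ∪ (cl K p' b' q)).card : ℝ) / q) * (c * c) := by
  rw [← avg_aux q _ (union_subset (cl_sub K p b q hq) (cl_sub K p' b' q hq)) hq]
  congr 1
  refine sum_congr rfl fun r _ => ?_
  by_cases h1 : r ∈ cl K p b q
  · rw [if_pos h1, mul_zero, zero_mul, if_pos (mem_union_left _ h1)]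
  · have h3 : ¬ n % q = r := fun h => h1 (h ▸ hn)
    by_cases h2 : r ∈ cl K p' b' q
    · rw [if_pos h2, mul_zero, if_pos (mem_union_right _ h2)]
    · rw [if_neg h1, if_neg h2, if_neg h3, if_neg (fun h => (mem_union.1 h).elim h1 h2), one_mul]

lemma Ex_RWW (S : Finset ℕ) (Q K p b p' b' n : ℕ) (hG : Good S Q K p)
    (hn : ∀ q ∈ S, n % q ∈ cl K p b q) (g : ℕ → ℝ)
    (hg : ∀ q ∈ S, Q < q →
      (1 - (((cl K p b q) ∪ (cl K p' b' q)).card : ℝ) / q) *
        ((1 - ((K : ℝ) + 1) / q)⁻¹ * (1 - ((K : ℝ) + 1) / q)⁻¹) ≤ g q) :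
    Ex S (fun a => Rn S n a * W S Q K p b a * W S Q K p' b' a) ≤
      ∏ q ∈ S, (if Q < q then g q else 1 - 1 / (q : ℝ)) := by
  have h1 : ∀ a : ℕ → ℕ, Rn S n a * W S Q K p b a * W S Q K p' b' a = ∏ q ∈ S,
      ((if n % q = a q then (0 : ℝ) else 1) *
        (if Q < q then (if a q ∈ cl K p b q then 0 else (1 - ((K : ℝ) + 1) / q)⁻¹) else 1) *
        (if Q < q then (if a q ∈ cl K p' b' q then 0 else (1 - ((K : ℝ) + 1) / q)⁻¹) else 1)) := by
    intro a
    rw [Rn, W, W, ← prod_mul_distrib, ← prod_mul_distrib]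
  rw [Ex_congr S _ _ h1, Ex_prod S (fun q r => (if n % q = r then (0 : ℝ) else 1) *
        (if Q < q then (if r ∈ cl K p b q then 0 else (1 - ((K : ℝ) + 1) / q)⁻¹) else 1) *
        (if Q < q then (if r ∈ cl K p' b' q then 0 else (1 - ((K : ℝ) + 1) / q)⁻¹) else 1))]
  refine prod_le_prod (fun q hq => ?_) fun q hq => ?_
  · have hq0 : 0 < q := (hG.prime q hq).pos
    have hqp : (0 : ℝ) < q := by exact_mod_cast hq0
    refine div_nonneg (sum_nonneg fun r _ => ?_) hqp.le
    have hc : Q < q → 0 ≤ (1 - ((K : ℝ) + 1) / q)⁻¹ := by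
      intro hQ
      have hb := hG.big q hq hQ
      have hqr : (4 * ((K : ℝ) + 1)) ≤ q := by exact_mod_cast hb
      have : ((K : ℝ) + 1) / q ≤ 1 / 4 := by rw [div_le_iff₀ hqp]; linarith
      exact inv_nonneg.2 (by linarith)
    have e1 : (0 : ℝ) ≤ (if n % q = r then (0 : ℝ) else 1) := by split_ifs <;> norm_num
    have e2 : ∀ T : Finset ℕ, (0 : ℝ) ≤
        (if Q < q then (if r ∈ T then 0 else (1 - ((K : ℝ) + 1) / q)⁻¹) else 1) := by
      intro T
      split_ifs with h1 h2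
      · exact le_rfl
      · exact hc h1
      · norm_num
    exact mul_nonneg (mul_nonneg e1 (e2 _)) (e2 _)
  · have hq0 : 0 < q := (hG.prime q hq).pos
    by_cases hQ : Q < q
    · simp only [if_pos hQ]
      rw [pair_factor K p b p' b' q n hq0 (hn q hq)]
      exact hg q hq hQ
    · simp only [if_neg hQ, mul_one]
      exact (sum_small_factor q n hq0).le

end Pool.Agent.P2Gap
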